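import Pool.Agent.R460.SL.Fin

set_option autoImplicit false

/-! The Liouville function at quadratic polynomials in progressions, uniformly in the polynomial. -/

namespace Pool.Agent.R460.SL

open Finset
open Pool.Agent.R460.SB (kap fv)
open Pool.Agent.Y614.GJ.Core (ev_log)

/-- the shift of the class -/
def rs (s r : ℕ) : ℕ := (s - r % s) % s

lemma rs_lt {s r : ℕ} (hs : 0 < s) : rs s r < s := Nat.mod_lt _ hs

lemma rs_dvd {s : ℕ} (r : ℕ) (hs : 0 < s) : s ∣ r + rs s r := by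
  unfold rs
  obtain ⟨e, he⟩ : ∃ e, e = r % s := ⟨_, rfl⟩
  have h1 : s * (r / s) + e = r := by rw [he]; exact Nat.div_add_mod r s
  have h2 : e < s := by rw [he]; exact Nat.mod_lt _ hs
  rw [← he]
  rcases Nat.eq_zero_or_pos e with h | h
  · rw [h, Nat.sub_zero, Nat.mod_self, add_zero, ← h1, h, add_zero]
    exact Dvd.intro _ rfl
  · rw [Nat.mod_eq_of_lt (by omega : s - e < s)]
    refine ⟨r / s + 1, ?_⟩
    rw [mul_add, mul_one]
    omega

lemma mod_iff {s r t : ℕ} (hs : 0 < s) : t ≡ r [MOD s] ↔ s ∣ t + rs s r := by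
  have h1 := rs_dvd r hs
  constructor
  · intro h
    have h2 : t + rs s r ≡ r + rs s r [MOD s] := Nat.ModEq.add_right _ h
    exact (Nat.modEq_zero_iff_dvd).1 (h2.trans ((Nat.modEq_zero_iff_dvd).2 h1))
  · intro h
    have h2 : t + rs s r ≡ r + rs s r [MOD s] :=
      ((Nat.modEq_zero_iff_dvd).2 h).trans ((Nat.modEq_zero_iff_dvd).2 h1).symm
    exact Nat.ModEq.add_right_cancel' _ h2

lemma ap_sum (F : ℕ → ℤ) {s y r' : ℕ} (hs : 0 < s) (hr : r' < s) :
    ∑ t ∈ (Icc 1 y).filter (fun t => s ∣ t + r'), F t = ∑ m ∈ Icc 1 ((y + r') / s), F (s * m - r') := by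
  symm
  refine sum_bij' (fun m _ => s * m - r') (fun t _ => (t + r') / s) ?_ ?_ ?_ ?_ ?_
  · intro m hm
    rw [mem_Icc] at hm
    have h1 : s * 1 ≤ s * m := Nat.mul_le_mul_left _ hm.1
    have h2 : m * s ≤ y + r' := (Nat.le_div_iff_mul_le hs).1 hm.2
    have h3 : m * s = s * m := mul_comm _ _
    rw [mem_filter, mem_Icc]
    refine ⟨⟨by omega, by omega⟩, ?_⟩
    have : s * m - r' + r' = s * m := by omega
    rw [this]
    exact Dvd.intro _ rfl
  · intro t ht
    rw [mem_filter, mem_Icc] at ht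
    obtain ⟨⟨h1, h2⟩, k, hk⟩ := ht
    rw [hk, Nat.mul_div_cancel_left _ hs, mem_Icc]
    constructor
    · rcases Nat.eq_zero_or_pos k with h | h
      · rw [h, mul_zero] at hk
        omega
      · exact h
    · rw [Nat.le_div_iff_mul_le hs, mul_comm, ← hk]
      omega
  · intro m hm
    rw [mem_Icc] at hm
    have h1 : s * 1 ≤ s * m := Nat.mul_le_mul_left _ hm.1
    have : s * m - r' + r' = s * m := by omega
    simp only [this]
    exact Nat.mul_div_cancel_left _ hs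
  · intro t ht
    rw [mem_filter, mem_Icc] at ht
    obtain ⟨⟨h1, h2⟩, hd⟩ := ht
    show s * ((t + r') / s) - r' = t
    rw [Nat.mul_div_cancel' hd]
    omega
  · intro m _
    rfl

/-- the sum over a progression -/
def psum (a b c : ℤ) (s r y : ℕ) : ℤ :=
  ∑ t ∈ (Icc 1 y).filter (fun t : ℕ => t ≡ r [MOD s]), lam (a * (t : ℤ) ^ 2 + b * t + c)

lemma psum_eq (a b c : ℤ) {s r y : ℕ} (hs : 0 < s) :
    ((psum a b c s r y : ℤ) : ℝ) = lsum (-a * (s : ℤ) ^ 2) (-b * s + 2 * a * s * (rs s r : ℤ))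
      (c + a * (rs s r : ℤ) ^ 2 - b * (rs s r : ℤ)) ((y + rs s r) / s) := by
  unfold psum lsum
  congr 1
  have h1 : (Icc 1 y).filter (fun t : ℕ => t ≡ r [MOD s]) = (Icc 1 y).filter (fun t => s ∣ t + rs s r) :=
    filter_congr fun t _ => mod_iff hs
  rw [h1, ap_sum (fun t : ℕ => lam (a * (t : ℤ) ^ 2 + b * t + c)) hs (rs_lt hs)]
  refine sum_congr rfl fun m hm => ?_
  rw [mem_Icc] at hm
  have h2 : s * 1 ≤ s * m := Nat.mul_le_mul_left _ hm.1
  have h3 := rs_lt (s := s) (r := r) hs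
  have h4 : ((s * m - rs s r : ℕ) : ℤ) = (s : ℤ) * m - (rs s r : ℤ) := by
    rw [Nat.cast_sub (by omega)]
    push_cast
    ring
  rw [h4]
  congr 1
  unfold fv
  ring

/-- the conclusion for one constant term -/
def GoodC (C T κ X q : ℕ) (c : ℤ) : Prop :=
  ∀ a b : ℤ, a ≠ 0 → (|a| : ℝ) ≤ Real.log X ^ κ → (|b| : ℝ) ≤ Real.log X ^ κ →
    (Int.gcd (b ^ 2 - 4 * a * c) q : ℝ) ≤ Real.log X ^ T →
    ∀ s r y : ℕ, 1 ≤ s → (s : ℝ) ≤ Real.log X ^ κ → y ^ 2 ≤ X →
      |((psum a b c s r y : ℤ) : ℝ)| ≤ Real.sqrt X / Real.log X ^ C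

open Classical in
/-- the exceptional constant terms -/
noncomputable def badC (C T κ X q : ℕ) (c₀ : ℤ) : Finset ℤ :=
  (Icc (-(X : ℤ)) X).filter (fun c : ℤ => c ≡ c₀ [ZMOD q] ∧ ¬ GoodC C T κ X q c)

theorem fin_ap (ρ : ℝ) (hρ : 0 < ρ) (A C T κ : ℕ) : ∃ X₀ : ℕ, ∀ X : ℕ, X₀ ≤ X →
    ∀ q : ℕ, 1 ≤ q → (q : ℝ) ≤ (X : ℝ) ^ (1 / 2 - ρ) → (q.divisors.card : ℝ) ≤ Real.log X ^ T → ∀ c₀ : ℤ,
    ((badC C T κ X q c₀).card : ℝ) ≤ X / (q * Real.log X ^ A) := by
  classical
  obtain ⟨A', hA'⟩ : ∃ A', A' = A + 4 * κ + 1 := ⟨_, rfl⟩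
  obtain ⟨X₁, h1⟩ := fin_li ρ hρ A' (C + 1) (T + 2 * κ) (3 * κ + 1)
  obtain ⟨X₂, h2⟩ := Filter.eventually_atTop.1 (ev_log (3 * κ + 1) (s := 1) (by norm_num) 18)
  refine ⟨X₁ + X₂ + 2, fun X hX q hq1 hqX hτ c₀ => ?_⟩
  obtain ⟨hLb, hLp⟩ := h2 X (by omega)
  have hX0 : (0 : ℝ) < X := by
    have : 0 < X := by omega
    exact_mod_cast this
  obtain ⟨X', hX'⟩ : ∃ X', X' = 2 * X := ⟨_, rfl⟩
  have hX'r : (X' : ℝ) = 2 * X := by rw [hX']; push_cast; ring
  have hLL : Real.log X ≤ Real.log X' := by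
    apply Real.log_le_log hX0
    rw [hX'r]
    linarith
  have hfin := h1 X' (by omega)
  obtain ⟨L, hL⟩ : ∃ L, L = Real.log (X : ℝ) := ⟨_, rfl⟩
  obtain ⟨L', hL'⟩ : ∃ L', L' = Real.log (X' : ℝ) := ⟨_, rfl⟩
  rw [← hL] at hLb hLp hτ hLL ⊢
  rw [← hL'] at hLL hfin
  rw [Real.rpow_one] at hLp
  have hL0 : 0 < L := by linarith
  have hL1 : 1 ≤ L := by linarith
  have hL'0 : 0 < L' := by linarith
  have hqr : (0 : ℝ) < q := by exact_mod_cast hq1
  have hpow : ∀ k : ℕ, L ^ k ≤ L' ^ k := fun k => pow_le_pow_left₀ hL0.le hLL k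
  have hqX' : (q : ℝ) ≤ (X' : ℝ) ^ (1 / 2 - ρ) := by
    rcases le_or_gt ρ (1 / 2) with h | h
    · refine hqX.trans ?_
      exact Real.rpow_le_rpow hX0.le (by rw [hX'r]; linarith) (by linarith)
    · exfalso
      have h3 : (X : ℝ) ^ (1 / 2 - ρ) < 1 := by
        apply Real.rpow_lt_one_of_one_lt_of_neg
        · exact_mod_cast (by omega : 1 < X)
        · linarith
      have h4 : (1 : ℝ) ≤ q := by exact_mod_cast hq1
      linarith
  obtain ⟨S, hS⟩ : ∃ S, S = ⌊L ^ κ⌋₊ := ⟨_, rfl⟩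
  have hSr : (S : ℝ) ≤ L ^ κ := by rw [hS]; exact Nat.floor_le (by positivity)
  have hLκ1 : 1 ≤ L ^ κ := one_le_pow₀ hL1
  have hS1 : 1 ≤ S := by
    rw [hS, Nat.one_le_floor_iff]
    exact hLκ1
  have hS1r : (1 : ℝ) ≤ S := by exact_mod_cast hS1
  -- one polynomial and one progression
  obtain ⟨W, hW⟩ : ∃ W : Finset (((ℤ × ℤ) × ℕ) × ℕ), W = ((Icc (-(S : ℤ)) S ×ˢ Icc (-(S : ℤ)) S) ×ˢ Icc 1 S) ×ˢ range S :=
    ⟨_, rfl⟩
  have hWc : (W.card : ℝ) ≤ 9 * L ^ (4 * κ) := by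
    rw [hW, card_product, card_product, card_product, Int.card_Icc, Nat.card_Icc, card_range]
    have e1 : ((S : ℤ) + 1 - -(S : ℤ)).toNat = 2 * S + 1 := by omega
    rw [e1]
    push_cast
    calc ((2 * (S : ℝ) + 1) * (2 * S + 1)) * ((S + 1 - 1 : ℕ) : ℝ) * S ≤ ((3 * (S : ℝ)) * (3 * S)) * S * S := by
          rw [Nat.add_sub_cancel]
          gcongr <;> linarith
      _ = 9 * (S : ℝ) ^ 4 := by ring
      _ ≤ 9 * (L ^ κ) ^ 4 := by gcongr
      _ = _ := by rw [← pow_mul]; ring_nf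
  obtain ⟨V, hV⟩ : ∃ V : (((ℤ × ℤ) × ℕ) × ℕ) → Finset ℤ, V = fun w => (badC C T κ X q c₀).filter (fun c : ℤ =>
    w.1.1.1 ≠ 0 ∧ w.2 < w.1.2 ∧ 1 ≤ w.1.2 ∧ (Int.gcd (w.1.1.2 ^ 2 - 4 * w.1.1.1 * c) q : ℝ) ≤ L ^ T ∧
      ∃ y : ℕ, y ^ 2 ≤ X ∧ Real.sqrt X / L ^ C < |lsum (-w.1.1.1 * (w.1.2 : ℤ) ^ 2)
        (-w.1.1.2 * w.1.2 + 2 * w.1.1.1 * w.1.2 * (w.2 : ℤ)) (c + w.1.1.1 * (w.2 : ℤ) ^ 2 - w.1.1.2 * (w.2 : ℤ)) y|) :=
    ⟨_, rfl⟩
  have hcov : badC C T κ X q c₀ ⊆ W.biUnion V := by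
    intro c hc
    have hc' := hc
    unfold badC GoodC at hc
    rw [mem_filter] at hc
    obtain ⟨hcX, hcc, hng⟩ := hc
    push Not at hng
    obtain ⟨a, b, ha0, ha, hb, hg, s, r, y, hs1, hsκ, hy, hbig⟩ := hng
    rw [← hL] at ha hb hg hsκ hbig
    have hs0 : 0 < s := by omega
    have hsS : s ≤ S := by
      rw [hS]
      exact Nat.le_floor hsκ
    have haS : a ∈ Icc (-(S : ℤ)) S := by
      rw [mem_Icc, ← abs_le]
      have h3 : a.natAbs ≤ S := by
        rw [hS]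
        apply Nat.le_floor
        rw [Nat.cast_natAbs, Int.cast_abs]
        exact ha
      rw [Int.abs_eq_natAbs]
      exact_mod_cast h3
    have hbS : b ∈ Icc (-(S : ℤ)) S := by
      rw [mem_Icc, ← abs_le]
      have h3 : b.natAbs ≤ S := by
        rw [hS]
        apply Nat.le_floor
        rw [Nat.cast_natAbs, Int.cast_abs]
        exact hb
      rw [Int.abs_eq_natAbs]
      exact_mod_cast h3
    rw [mem_biUnion]
    refine ⟨(((a, b), s), rs s r), ?_, ?_⟩
    · rw [hW]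
      simp only [mem_product, mem_range]
      exact ⟨⟨⟨haS, hbS⟩, mem_Icc.2 ⟨hs1, hsS⟩⟩, lt_of_lt_of_le (rs_lt hs0) hsS⟩
    · rw [hV, mem_filter]
      refine ⟨hc', ha0, rs_lt hs0, hs1, hg, (y + rs s r) / s, ?_, ?_⟩
      · refine le_trans ?_ hy
        apply Nat.pow_le_pow_left
        have h5 := rs_lt (s := s) (r := r) hs0
        rcases Nat.eq_zero_or_pos y with h | h
        · rw [h, zero_add, Nat.div_eq_of_lt h5]
        · calc (y + rs s r) / s ≤ (y * s) / s := by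
                apply Nat.div_le_div_right
                obtain ⟨e, rfl⟩ : ∃ e, s = e + 1 := ⟨s - 1, by omega⟩
                obtain ⟨d, rfl⟩ : ∃ d, y = d + 1 := ⟨y - 1, by omega⟩
                nlinarith
            _ = y := Nat.mul_div_cancel _ hs0
      · rw [← psum_eq a b c hs0]
        exact hbig
  have hone : ∀ w ∈ W, ((V w).card : ℝ) ≤ X' / (q * L' ^ A') := by
    rintro ⟨⟨⟨a, b⟩, s⟩, r'⟩ hw
    rw [hW] at hw
    simp only [mem_product, mem_range] at hw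
    obtain ⟨⟨⟨haS, hbS⟩, hsI⟩, hr'S⟩ := hw
    obtain ⟨hs1, hsS⟩ := mem_Icc.1 hsI
    have hnn : 0 ≤ (X' : ℝ) / (q * L' ^ A') := by positivity
    rcases (V (((a, b), s), r')).eq_empty_or_nonempty with he | ⟨c₁, hc₁⟩
    · rw [he, card_empty, Nat.cast_zero]
      exact hnn
    · rw [hV, mem_filter] at hc₁
      obtain ⟨hc₁b, ha0, hrs, -, hg, -⟩ := hc₁
      simp only at ha0 hrs hg
      rw [mem_Icc, ← abs_le] at haS hbS
      have har : |(a : ℝ)| ≤ L ^ κ := by
        refine le_trans ?_ hSr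
        rw [← Int.cast_abs]
        exact_mod_cast haS
      have hbr : |(b : ℝ)| ≤ L ^ κ := by
        refine le_trans ?_ hSr
        rw [← Int.cast_abs]
        exact_mod_cast hbS
      have hsr : (s : ℝ) ≤ L ^ κ := le_trans (by exact_mod_cast hsS) hSr
      have hr'r : (r' : ℝ) ≤ L ^ κ := le_trans (by exact_mod_cast hr'S.le) hSr
      have hs1r : (1 : ℝ) ≤ s := by exact_mod_cast hs1
      -- the new polynomial
      have hα' : -a * (s : ℤ) ^ 2 ≠ 0 := mul_ne_zero (neg_ne_zero.2 ha0) (by positivity)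
      have hkap : kap (-a * (s : ℤ) ^ 2) (-b * s + 2 * a * s * (r' : ℤ)) ≤ L' ^ (3 * κ + 1) := by
        refine le_trans ?_ (hpow _)
        unfold kap
        push_cast
        have k1 : |-(a : ℝ) * (s : ℝ) ^ 2| ≤ L ^ κ * (L ^ κ) ^ 2 := by
          rw [abs_mul, abs_neg, abs_of_nonneg (by positivity : (0 : ℝ) ≤ (s : ℝ) ^ 2)]
          gcongr
        have k2 : |-(b : ℝ) * s + 2 * a * s * r'| ≤ L ^ κ * L ^ κ + 2 * L ^ κ * L ^ κ * L ^ κ := by
          refine (abs_add_le _ _).trans ?_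
          rw [abs_mul, abs_neg, abs_mul, abs_mul, abs_mul, abs_two, abs_of_nonneg (by positivity : (0 : ℝ) ≤ (s : ℝ)),
            abs_of_nonneg (by positivity : (0 : ℝ) ≤ (r' : ℝ))]
          gcongr
        have k3 : L ^ κ * L ^ κ ≤ L ^ κ * L ^ κ * L ^ κ := by
          nlinarith [mul_nonneg (by positivity : (0 : ℝ) ≤ L ^ κ) (by positivity : (0 : ℝ) ≤ L ^ κ)]
        calc |-(a : ℝ) * (s : ℝ) ^ 2| + |-(b : ℝ) * s + 2 * a * s * r'| ≤ 4 * (L ^ κ * L ^ κ * L ^ κ) := by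
              linarith
          _ ≤ L * (L ^ κ * L ^ κ * L ^ κ) := by
              gcongr
              linarith
          _ = _ := by ring
      have hgcd : (Int.gcd (4 * (-a * (s : ℤ) ^ 2) * (c₀ + a * (r' : ℤ) ^ 2 - b * (r' : ℤ)) +
          (-b * s + 2 * a * s * (r' : ℤ)) ^ 2) q : ℝ) ≤ L' ^ (T + 2 * κ) := by
        refine le_trans ?_ (hpow _)
        have e1 : 4 * (-a * (s : ℤ) ^ 2) * (c₀ + a * (r' : ℤ) ^ 2 - b * (r' : ℤ)) +
          (-b * s + 2 * a * s * (r' : ℤ)) ^ 2 = ((s : ℤ) ^ 2) * (b ^ 2 - 4 * a * c₀) := by ring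
        have e2 : Int.gcd (b ^ 2 - 4 * a * c₀) q = Int.gcd (b ^ 2 - 4 * a * c₁) q := by
          have hcc : c₁ ≡ c₀ [ZMOD q] := by
            unfold badC at hc₁b
            rw [mem_filter] at hc₁b
            exact hc₁b.2.1
          have h3 : b ^ 2 - 4 * a * c₀ ≡ b ^ 2 - 4 * a * c₁ [ZMOD q] :=
            Int.ModEq.sub (Int.ModEq.refl _) (hcc.symm.mul_left _)
          rw [← Int.gcd_emod, h3, Int.gcd_emod]
        have e3 : Int.gcd (((s : ℤ) ^ 2) * (b ^ 2 - 4 * a * c₀)) q ≤ s ^ 2 * Int.gcd (b ^ 2 - 4 * a * c₁) q := by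
          rw [← e2]
          unfold Int.gcd
          rw [Int.natAbs_mul, Int.natAbs_natCast, Int.natAbs_pow, Int.natAbs_natCast]
          have k1 := Nat.gcd_mul_right_dvd_mul_gcd q (s ^ 2) (b ^ 2 - 4 * a * c₀).natAbs
          have k2 : 0 < Nat.gcd q (s ^ 2) * Nat.gcd q (b ^ 2 - 4 * a * c₀).natAbs :=
            Nat.mul_pos (Nat.gcd_pos_of_pos_left _ hq1) (Nat.gcd_pos_of_pos_left _ hq1)
          have k3 := Nat.le_of_dvd k2 k1
          have k4 : Nat.gcd (s ^ 2 * (b ^ 2 - 4 * a * c₀).natAbs) q = Nat.gcd q (s ^ 2 * (b ^ 2 - 4 * a * c₀).natAbs) :=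
            Nat.gcd_comm _ _
          have k5 : Nat.gcd (b ^ 2 - 4 * a * c₀).natAbs q = Nat.gcd q (b ^ 2 - 4 * a * c₀).natAbs :=
            Nat.gcd_comm _ _
          refine (le_of_eq k4).trans (k3.trans (le_trans ?_ (le_of_eq (by rw [k5]))))
          apply Nat.mul_le_mul_right
          exact Nat.gcd_le_right _ (by positivity)
        rw [e1]
        calc (Int.gcd (((s : ℤ) ^ 2) * (b ^ 2 - 4 * a * c₀)) q : ℝ) ≤ ((s ^ 2 * Int.gcd (b ^ 2 - 4 * a * c₁) q : ℕ) : ℝ) := by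
              exact_mod_cast e3
          _ = (s : ℝ) ^ 2 * (Int.gcd (b ^ 2 - 4 * a * c₁) q : ℝ) := by push_cast; ring
          _ ≤ (L ^ κ) ^ 2 * L ^ T := by gcongr
          _ = _ := by ring
      have hf := hfin (-a * (s : ℤ) ^ 2) (-b * s + 2 * a * s * (r' : ℤ)) hα' hkap q hq1 hqX'
        (hτ.trans ((pow_le_pow_right₀ hL1 (by omega)).trans (hpow _))) (c₀ + a * (r' : ℤ) ^ 2 - b * (r' : ℤ)) hgcd
      refine le_trans ?_ hf
      have hinj : (V (((a, b), s), r')).card ≤ (badL (-a * (s : ℤ) ^ 2) (-b * s + 2 * a * s * (r' : ℤ)) (C + 1) X' q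
          (c₀ + a * (r' : ℤ) ^ 2 - b * (r' : ℤ))).card := by
        refine Finset.card_le_card_of_injOn (fun c => c + a * (r' : ℤ) ^ 2 - b * (r' : ℤ)) ?_ ?_
        · intro c hc
          rw [mem_coe, hV, mem_filter] at hc
          obtain ⟨hcb, -, -, -, -, y, hy, hbig⟩ := hc
          simp only at hbig
          unfold badC at hcb
          rw [mem_filter, mem_Icc] at hcb
          obtain ⟨hcX, hcc, -⟩ := hcb
          rw [mem_coe]
          unfold badL
          rw [mem_filter, mem_Icc]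
          have hsh : |a * (r' : ℤ) ^ 2 - b * (r' : ℤ)| ≤ X := by
            have k1 : |(a : ℝ) * (r' : ℝ) ^ 2 - b * r'| ≤ X := by
              calc |(a : ℝ) * (r' : ℝ) ^ 2 - b * r'| ≤ |(a : ℝ) * (r' : ℝ) ^ 2| + |(b : ℝ) * r'| := abs_sub _ _
                _ = |(a : ℝ)| * (r' : ℝ) ^ 2 + |(b : ℝ)| * r' := by
                    rw [abs_mul, abs_mul, abs_of_nonneg (by positivity : (0 : ℝ) ≤ (r' : ℝ) ^ 2),
                      abs_of_nonneg (by positivity : (0 : ℝ) ≤ (r' : ℝ))]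
                _ ≤ L ^ κ * (L ^ κ) ^ 2 + L ^ κ * L ^ κ := by gcongr
                _ ≤ 2 * (L ^ κ * L ^ κ * L ^ κ) := by
                    nlinarith [mul_nonneg (by positivity : (0 : ℝ) ≤ L ^ κ) (by positivity : (0 : ℝ) ≤ L ^ κ)]
                _ ≤ L * (L ^ κ * L ^ κ * L ^ κ) := by
                    gcongr
                    linarith
                _ = L ^ (3 * κ + 1) := by ring
                _ ≤ X := hLp
            have k2 : ((|a * (r' : ℤ) ^ 2 - b * (r' : ℤ)| : ℤ) : ℝ) ≤ ((X : ℤ) : ℝ) := by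
              push_cast
              exact k1
            exact_mod_cast k2
          rw [abs_le] at hsh
          refine ⟨⟨?_, ?_⟩, ?_, y, ?_, ?_⟩
          · rw [hX']
            push_cast
            linarith [hcX.1, hsh.1]
          · rw [hX']
            push_cast
            linarith [hcX.2, hsh.2]
          · have h3 : ((c : ℤ) : ZMod q) = ((c₀ : ℤ) : ZMod q) := (ZMod.intCast_eq_intCast_iff _ _ _).2 hcc
            push_cast
            rw [h3]
          · rw [hX']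
            omega
          · refine lt_of_le_of_lt ?_ hbig
            rw [← hL', hX'r]
            have k1 : Real.sqrt (2 * X) ≤ 2 * Real.sqrt X := by
              rw [Real.sqrt_mul (by norm_num)]
              have : Real.sqrt 2 ≤ 2 := by
                rw [Real.sqrt_le_left (by norm_num)]
                norm_num
              exact mul_le_mul_of_nonneg_right this (Real.sqrt_nonneg _)
            calc Real.sqrt (2 * X) / L' ^ (C + 1) ≤ 2 * Real.sqrt X / L ^ (C + 1) := by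
                  have := hpow (C + 1)
                  gcongr
              _ = Real.sqrt X / L ^ C * (2 / L) := by
                  rw [pow_succ]
                  field_simp
              _ ≤ Real.sqrt X / L ^ C * 1 := by
                  apply mul_le_mul_of_nonneg_left _ (by positivity)
                  rw [div_le_one hL0]
                  linarith
              _ = _ := mul_one _
        · intro c _ c' _ h
          simp only at h
          linarith
      exact_mod_cast hinj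
  have h5 : ((badC C T κ X q c₀).card : ℝ) ≤ ∑ w ∈ W, ((V w).card : ℝ) := by
    have := (card_le_card hcov).trans card_biUnion_le
    exact_mod_cast this
  refine h5.trans ((sum_le_sum hone).trans ?_)
  rw [sum_const, nsmul_eq_mul]
  calc (W.card : ℝ) * (X' / (q * L' ^ A')) ≤ (9 * L ^ (4 * κ)) * (2 * X / (q * L ^ A')) := by
        have := hpow A'
        rw [hX'r]
        gcongr
    _ = X / (q * L ^ A) * (18 / L) := by
        rw [hA', show A + 4 * κ + 1 = A + 4 * κ + 1 by rfl, pow_succ, pow_add]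
        field_simp
        ring
    _ ≤ X / (q * L ^ A) * 1 := by
        apply mul_le_mul_of_nonneg_left _ (by positivity)
        rw [div_le_one hL0]
        exact hLb
    _ = _ := mul_one _

end Pool.Agent.R460.SL
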