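import Pool.Agent.R460.SL.Pw2
import Pool.Agent.R460.SB.Core

set_option autoImplicit false

/-! The mean square of the sums of the Liouville function over a quadratic polynomial in a residue class.
Adapted from `R460/SB/Core`. -/

namespace Pool.Agent.R460.SL

open Finset
open Pool.Agent.Y883.GJ
open Pool.Agent.R460.GS
open Pool.Agent.R460.GH (BilMaj3Stm)
open Pool.Agent.R460.SB
open Pool.Agent.R460.SQ (mj mem_mj card_mj maj_count fin_arith cls cl_mean)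
open Pool.Agent.H807R2.Dav (ee norm_ee)
open Pool.Agent.Y614.GJ.Core (card_above gcd_above dirich ev_log)
open Pool.Agent.H373R2.T7 (liR liR_norm)

/-- CORELI -/
def CoreLiStm : Prop := ∀ (A T κ : ℕ) (ρ : ℝ), 0 < ρ → ∃ N₀ : ℕ,
  ∀ N : ℕ, N₀ ≤ N → ∀ α γ : ℤ, α ≠ 0 → kap α γ ≤ Real.log N ^ κ →
  ∀ (q : ℕ) [NeZero q], (q : ℝ) ≤ (N : ℝ) ^ (1 / 2 - ρ) → (q.divisors.card : ℝ) ≤ Real.log N ^ T →
  ∀ a : ZMod q, (Nat.gcd (4 * (α : ZMod q) * a + (γ : ZMod q) ^ 2).val q : ℝ) ≤ Real.log N ^ T →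
    ∀ y : ℕ, y ^ 2 ≤ N →
    ∑ n ∈ cls ((α.natAbs + γ.natAbs + 1) * N) q a, ‖cvs α γ liR y N n‖ ^ 2 ≤ (N : ℝ) ^ 2 / (q * Real.log N ^ A)

lemma maj_count' {D q Kk C κ N : ℕ} {L a w : ℝ} (ha : 1 ≤ a) (hLa : a ≤ L ^ κ) (hL : 100 ≤ L) (hN0 : (0 : ℝ) < N)
    (hq1 : (1 : ℝ) ≤ q) (hKk : (Kk : ℝ) ≤ L ^ (C + κ + 1)) (hw : w = L ^ C / (N : ℝ)) (hD : (D : ℝ) ≤ 3 * (a + 1) * N) :
    (Kk : ℝ) * (((Kk : ℝ) * q + 3) * (2 * ((D : ℝ) * w) + 1)) ≤ q * L ^ (3 * (C + κ) + 4) := by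
  have hL0 : 0 < L := by linarith
  have hL1 : 1 ≤ L := by linarith
  have hLC1 : 1 ≤ L ^ C := one_le_pow₀ hL1
  have hw0 : 0 ≤ w := by rw [hw]; positivity
  have e1 : 2 * ((D : ℝ) * w) + 1 ≤ 13 * L ^ (C + κ) := by
    have e3 : (D : ℝ) * w ≤ 3 * (a + 1) * L ^ C := by
      rw [hw]
      calc (D : ℝ) * (L ^ C / N) ≤ (3 * (a + 1) * N) * (L ^ C / N) := by gcongr
        _ = _ := by field_simp
    have e4 : 3 * (a + 1) * L ^ C ≤ 6 * (L ^ κ * L ^ C) := by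
      have : a + 1 ≤ 2 * L ^ κ := by linarith
      calc 3 * (a + 1) * L ^ C ≤ 3 * (2 * L ^ κ) * L ^ C := by gcongr
        _ = _ := by ring
    have e5 : 1 ≤ L ^ (C + κ) := one_le_pow₀ hL1
    have e6 : L ^ κ * L ^ C = L ^ (C + κ) := by ring
    rw [e6] at e4
    linarith
  have e2 : (Kk : ℝ) * q + 3 ≤ 4 * (q * L ^ (C + κ + 1)) := by
    have h1 : (Kk : ℝ) * q ≤ L ^ (C + κ + 1) * q := by gcongr
    have h2 : 1 ≤ L ^ (C + κ + 1) := one_le_pow₀ hL1
    nlinarith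
  calc (Kk : ℝ) * (((Kk : ℝ) * q + 3) * (2 * ((D : ℝ) * w) + 1))
      ≤ L ^ (C + κ + 1) * ((4 * (q * L ^ (C + κ + 1))) * (13 * L ^ (C + κ))) := by
        gcongr
    _ = 52 * (q * L ^ (3 * (C + κ) + 2)) := by ring
    _ ≤ L ^ 2 * (q * L ^ (3 * (C + κ) + 2)) := by
        gcongr
        nlinarith
    _ = _ := by ring

theorem coreLi (h3 : OrthStm) (hBil : BilMaj3Stm) (hTm : TiMaj2Stm) : CoreLiStm := by
  classical
  intro A T κ ρ hρ
  obtain ⟨C, hC⟩ : ∃ C, C = A + 7 := ⟨_, rfl⟩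
  obtain ⟨T', hT'⟩ : ∃ T', T' = T + C + κ + 1 := ⟨_, rfl⟩
  obtain ⟨A', hA'⟩ : ∃ A', A' = A + 3 * (C + κ) + 5 := ⟨_, rfl⟩
  obtain ⟨E, N₅, hpwl⟩ := pw_li h3 hBil hTm A' T' C κ
  obtain ⟨N₃, hN₃⟩ := Filter.eventually_atTop.1 (ev_log (C + κ + 1 + (E + C)) (s := ρ) hρ 300)
  refine ⟨max (max N₃ 1) N₅, ?_⟩
  intro N hN α γ hα hκ q _ hq hτ a ha y hy
  have hNN₃ : N₃ ≤ N := le_trans (le_trans (le_max_left _ _) (le_max_left _ _)) hN
  have hN1 : 1 ≤ N := le_trans (le_trans (le_max_right _ _) (le_max_left _ _)) hN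
  have hpw1 := hpwl N (le_trans (le_max_right _ _) hN) α γ hα hκ
  obtain ⟨G, hGd⟩ : ∃ G : ℕ → ℂ, G = liR := ⟨_, rfl⟩
  obtain ⟨hLb, hLp⟩ := hN₃ N hNN₃
  obtain ⟨L, hL⟩ : ∃ L, L = Real.log (N : ℝ) := ⟨_, rfl⟩
  rw [← hL] at hLb hLp hτ ha hκ hpw1 ⊢
  rw [← hGd] at hpw1 ⊢
  have hα0 : (0 : ℝ) ≤ |(α : ℝ)| := abs_nonneg _
  obtain ⟨hα1, hακ, hκ1⟩ := kap_ge hα γ
  have hL300 : 300 ≤ L := by linarith
  have hL0 : 0 < L := by linarith
  have hL1 : 1 ≤ L := by linarith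
  have hG : ∀ n ∈ Icc 1 N, ‖G n‖ ≤ L ^ 2 := by
    intro n _
    rw [hGd]
    refine (liR_norm n).trans ?_
    nlinarith
  have hN0 : (0 : ℝ) < N := by exact_mod_cast hN1
  have hNr1 : (1 : ℝ) ≤ N := by exact_mod_cast hN1
  have hq0 : (0 : ℝ) < q := by exact_mod_cast NeZero.pos q
  have hq1 : (1 : ℝ) ≤ q := by exact_mod_cast NeZero.pos q
  have hnat : (α.natAbs : ℝ) = |(α : ℝ)| := by rw [Nat.cast_natAbs, Int.cast_abs]
  have hnat0 : 0 < α.natAbs := Int.natAbs_pos.2 hα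
  obtain ⟨M, hM⟩ : ∃ M, M = Real.sqrt N := ⟨_, rfl⟩
  have hM0 : 0 < M := by rw [hM]; exact Real.sqrt_pos.2 hN0
  have hMM : M * M = N := by rw [hM]; exact Real.mul_self_sqrt hN0.le
  have hM1 : 1 ≤ M := by
    rw [hM]
    exact Real.one_le_sqrt.2 hNr1
  have hMN : M ≤ N := by nlinarith
  have hbig : (q : ℝ) * L ^ (C + κ + 1 + (E + C)) ≤ M := by
    calc (q : ℝ) * L ^ (C + κ + 1 + (E + C)) ≤ (N : ℝ) ^ (1 / 2 - ρ) * (N : ℝ) ^ ρ := by gcongr
      _ = M := by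
          rw [← Real.rpow_add hN0, hM, Real.sqrt_eq_rpow]
          congr 1
          ring
  have hsmall : ∀ e : ℕ, e ≤ C + κ + 1 + (E + C) → (q : ℝ) * L ^ e ≤ M := by
    intro e he
    refine le_trans ?_ hbig
    gcongr
  have hqC : (q : ℝ) * L ^ C ≤ M := hsmall C (by omega)
  have hLC0 : 0 < L ^ C := by positivity
  have hLC1 : 1 ≤ L ^ C := one_le_pow₀ hL1
  have hqN : (q : ℝ) ≤ N := by
    have : (q : ℝ) ≤ q * L ^ C := by nlinarith
    linarith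
  obtain ⟨D, hD⟩ : ∃ D, D = 2 * ((α.natAbs + γ.natAbs + 1) * N) + 1 := ⟨_, rfl⟩
  have hDr : (D : ℝ) = 2 * ((kap α γ + 1) * N) + 1 := by
    rw [hD, ← kap_nat]
    push_cast
    ring
  have hDN : N < D := by
    rw [hD]
    nlinarith [Nat.zero_le (α.natAbs * N), Nat.zero_le (γ.natAbs * N)]
  have hD0 : (0 : ℝ) < D := by exact_mod_cast (by omega : 0 < D)
  have hDNr : (N : ℝ) ≤ D := by exact_mod_cast hDN.le
  -- the quantities
  obtain ⟨Kk, hKk⟩ : ∃ Kk, Kk = 2 * α.natAbs * ⌊L ^ C⌋₊ := ⟨_, rfl⟩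
  have h2α : 2 * |(α : ℝ)| ≤ L ^ (κ + 1) := by
    calc 2 * |(α : ℝ)| ≤ L * L ^ κ := by
          gcongr
          · linarith
          · linarith
      _ = _ := by ring
  have hKkr : (Kk : ℝ) ≤ L ^ (C + κ + 1) := by
    rw [hKk]
    push_cast
    rw [hnat]
    have h1 : ((⌊L ^ C⌋₊ : ℕ) : ℝ) ≤ L ^ C := Nat.floor_le hLC0.le
    calc 2 * |(α : ℝ)| * (⌊L ^ C⌋₊ : ℝ) ≤ L ^ (κ + 1) * L ^ C := by gcongr
      _ = _ := by ring
  obtain ⟨w, hw⟩ : ∃ w, w = L ^ C / (N : ℝ) := ⟨_, rfl⟩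
  have hw0 : 0 ≤ w := by rw [hw]; positivity
  obtain ⟨Sb, hSb⟩ : ∃ Sb : ℝ → ℝ, Sb = fun β => ∑ k : ZMod q, ‖cl q N G β (a - ((α : ZMod q) * k ^ 2 + (γ : ZMod q) * k))‖ ^ 2 :=
    ⟨_, rfl⟩
  have hSb0 : ∀ β, 0 ≤ Sb β := fun β => by rw [hSb]; exact sum_nonneg fun _ _ => sq_nonneg _
  obtain ⟨X₁, hX₁⟩ : ∃ X₁, X₁ = (N : ℝ) / (q * L ^ (A + 5)) := ⟨_, rfl⟩
  obtain ⟨X₂, hX₂⟩ : ∃ X₂, X₂ = (N : ℝ) ^ 3 / (q ^ 2 * L ^ A') := ⟨_, rfl⟩
  have hX₁0 : 0 ≤ X₁ := by rw [hX₁]; positivity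
  have hX₂0 : 0 ≤ X₂ := by rw [hX₂]; positivity
  -- the estimate for one frequency
  have hpt : ∀ t ∈ range D, ‖TT α γ G y N q ((t : ℝ) / D) a‖ ^ 2 ≤
      X₁ * Sb ((t : ℝ) / D) + (if t ∈ mj D q Kk w then X₂ else 0) := by
    intro t ht
    obtain ⟨β, hβ⟩ : ∃ β, β = (t : ℝ) / D := ⟨_, rfl⟩
    rw [← hβ]
    obtain ⟨n, hn⟩ : ∃ n, n = ⌊(N : ℝ) / (q * L ^ C)⌋₊ := ⟨_, rfl⟩
    have hqLC : (q : ℝ) * L ^ C ≤ N := hqC.trans hMN
    have hn0 : 0 < n := by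
      rw [hn, Nat.floor_pos, le_div_iff₀ (by positivity), one_mul]
      exact hqLC
    have hn1 : (n : ℝ) ≤ (N : ℝ) / (q * L ^ C) := by rw [hn]; exact Nat.floor_le (by positivity)
    have hn2 : (N : ℝ) / (q * L ^ C) < n + 1 := by rw [hn]; exact Nat.lt_floor_add_one _
    obtain ⟨j, h, hj, hcop, hx⟩ := dirich (2 * α * q * β) hn0
    have hjn : ((j + 1 : ℕ) : ℝ) ≤ n := by exact_mod_cast hj
    have hk0 : (0 : ℝ) < ((j + 1 : ℕ) : ℝ) := by positivity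
    have hk1 : (1 : ℝ) ≤ ((j + 1 : ℕ) : ℝ) := by exact_mod_cast Nat.succ_pos j
    by_cases hkC : L ^ C ≤ ((j + 1 : ℕ) : ℝ)
    · -- minor arcs
      have e1 : (q : ℝ) * ((j + 1 : ℕ) : ℝ) * L ^ C ≤ N := by
        have := (le_div_iff₀ (by positivity)).1 (hjn.trans hn1)
        linarith
      have e2 : |2 * α * q * β - h / ((j + 1 : ℕ) : ℝ)| ≤ 1 / ((j + 1 : ℕ) : ℝ) ^ 2 := by
        refine hx.trans ?_
        rw [sq]
        apply one_div_le_one_div_of_le (by positivity)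
        apply mul_le_mul_of_nonneg_right _ hk0.le
        linarith
      have e3 := SF_min (α := α) (γ := γ) (A := A + 5) (s := j + 1) hL hL300 hN1 hy (by
        rw [← hM]
        refine hsmall _ (by omega)) β (by rw [show A + 5 + 2 = C by omega]; exact hkC)
        (by rw [show A + 5 + 2 = C by omega]; exact e1) hcop e2
      rw [← hX₁] at e3
      have e4 : ‖TT α γ G y N q β a‖ ^ 2 ≤ X₁ * Sb β := by
        refine (TT_cauchy β a).trans ?_
        rw [hSb]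
        exact mul_le_mul_of_nonneg_right e3 (sum_nonneg fun _ _ => sq_nonneg _)
      refine e4.trans ?_
      have : 0 ≤ (if t ∈ mj D q Kk w then X₂ else 0) := by
        split_ifs
        · exact hX₂0
        · exact le_rfl
      linarith
    · -- major arcs
      rw [not_le] at hkC
      obtain ⟨k, hk⟩ : ∃ k : ℕ, k = 2 * α.natAbs * (j + 1) := ⟨_, rfl⟩
      have hk0' : 0 < k := by rw [hk]; positivity
      have : NeZero (k * q) := ⟨Nat.mul_ne_zero (by omega) (NeZero.ne q)⟩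
      have hkr : (k : ℝ) = 2 * |(α : ℝ)| * ((j + 1 : ℕ) : ℝ) := by
        rw [hk, Nat.cast_mul, Nat.cast_mul, hnat]
        push_cast
        ring
      have hkr0 : (0 : ℝ) < k := by exact_mod_cast hk0'
      have hkL : (k : ℝ) ≤ L ^ (C + κ + 1) := by
        rw [hkr]
        calc 2 * |(α : ℝ)| * ((j + 1 : ℕ) : ℝ) ≤ L ^ (κ + 1) * L ^ C := by gcongr
          _ = _ := by ring
      have hkK : k ≤ Kk := by
        rw [hk, hKk]
        apply Nat.mul_le_mul_left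
        exact Nat.le_floor hkC.le
      obtain ⟨h', hh'⟩ : ∃ h' : ℤ, h' = α.sign * h := ⟨_, rfl⟩
      have hηle : |β - h' / ((k * q : ℕ) : ℝ)| ≤ w := by
        have e0 : (α : ℝ) * h' = |(α : ℝ)| * h := by
          rw [hh']
          push_cast
          rw [← mul_assoc, ← Int.cast_mul, mul_comm α, Int.sign_mul_self_eq_abs, Int.cast_abs]
        have e1 : 2 * α * q * β - h / ((j + 1 : ℕ) : ℝ) = 2 * α * q * (β - h' / ((k * q : ℕ) : ℝ)) := by
          have hα' : |(α : ℝ)| ≠ 0 := by linarith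
          have e2 : (2 * α * q : ℝ) * (h' / ((k * q : ℕ) : ℝ)) = h / ((j + 1 : ℕ) : ℝ) := by
            rw [Nat.cast_mul, hkr]
            have : (2 * α * q : ℝ) * (h' / (2 * |(α : ℝ)| * ((j + 1 : ℕ) : ℝ) * q)) =
                (α * h') / (|(α : ℝ)| * ((j + 1 : ℕ) : ℝ)) := by
              field_simp
            rw [this, e0]
            field_simp
          rw [mul_sub, e2]
        rw [e1, abs_mul, abs_mul, abs_mul, abs_two, abs_of_pos hq0] at hx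
        have e3 : (N : ℝ) ≤ (n + 1) * (q * L ^ C) := by
          have := (div_lt_iff₀ (by positivity)).1 hn2
          linarith
        rw [hw, le_div_iff₀ hN0]
        have hn3 : (0 : ℝ) < n + 1 := by positivity
        have e4 : 1 / (((n : ℝ) + 1) * ((j + 1 : ℕ) : ℝ)) ≤ 1 / ((n : ℝ) + 1) := by
          apply one_div_le_one_div_of_le hn3
          nlinarith
        have e5 : q * |β - h' / ((k * q : ℕ) : ℝ)| ≤ 1 / ((n : ℝ) + 1) := by
          refine le_trans ?_ (hx.trans e4)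
          have := abs_nonneg (β - h' / ((k * q : ℕ) : ℝ))
          have h6 : 0 ≤ q * |β - h' / ((k * q : ℕ) : ℝ)| := by positivity
          have h7 : 1 ≤ 2 * |(α : ℝ)| := by linarith
          nlinarith
        have e6 : |β - h' / ((k * q : ℕ) : ℝ)| ≤ 1 / ((n : ℝ) + 1) / q := by
          rw [le_div_iff₀ hq0, mul_comm]
          exact e5
        calc |β - h' / ((k * q : ℕ) : ℝ)| * N ≤ (1 / ((n : ℝ) + 1) / q) * ((n + 1) * (q * L ^ C)) := by
              gcongr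
          _ = L ^ C := by field_simp
      -- the lifted modulus
      have hkqM : ((k * q : ℕ) : ℝ) * L ^ E ≤ M := by
        rw [Nat.cast_mul]
        calc (k : ℝ) * q * L ^ E ≤ L ^ (C + κ + 1) * q * L ^ E := by gcongr
          _ = q * L ^ (C + κ + 1 + E) := by ring
          _ ≤ M := hsmall _ (by omega)
      have hkqM' : ((k * q : ℕ) : ℝ) ≤ M := by
        refine le_trans ?_ hkqM
        have : (1 : ℝ) ≤ L ^ E := one_le_pow₀ hL1
        have h5 : (0 : ℝ) ≤ ((k * q : ℕ) : ℝ) := Nat.cast_nonneg _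
        nlinarith
      have hkqN : ((k * q : ℕ) : ℝ) ≤ N := hkqM'.trans hMN
      have hkq7 : ((k * q : ℕ) : ℝ) ≤ (N : ℝ) ^ (7 / 10 - 1 / 10 : ℝ) := by
        refine hkqM'.trans ?_
        rw [hM, Real.sqrt_eq_rpow]
        exact Real.rpow_le_rpow_of_exponent_le hNr1 (by norm_num)
      have hτ' : ((k * q).divisors.card : ℝ) ≤ L ^ T' := by
        have h1 : (k * q).divisors.card ≤ k * q.divisors.card := by
          have h2 : (k * q).divisors.card ≤ k.divisors.card * q.divisors.card := by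
            rw [Nat.divisors_mul]
            exact card_mul_le
          exact h2.trans (Nat.mul_le_mul_right _ (Nat.card_divisors_le_self k))
        calc ((k * q).divisors.card : ℝ) ≤ ((k * q.divisors.card : ℕ) : ℝ) := by exact_mod_cast h1
          _ = (k : ℝ) * q.divisors.card := by push_cast; ring
          _ ≤ L ^ (C + κ + 1) * L ^ T := by gcongr
          _ = L ^ T' := by rw [hT', ← pow_add]; congr 1; omega
      have hpw : ∀ a' : ZMod (k * q), ((a'.val : ℕ) : ZMod q) = a →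
          ‖TT α γ G y N (k * q) (β - h' / ((k * q : ℕ) : ℝ)) a'‖ ^ 2 ≤
            (N : ℝ) ^ 3 / (((k * q : ℕ) : ℝ) ^ 2 * L ^ A') := by
        intro a' ha'
        have hga : (Nat.gcd (4 * (α : ZMod (k * q)) * a' + (γ : ZMod (k * q)) ^ 2).val (k * q) : ℝ) ≤ L ^ T' := by
          have h0 := disc_cast α γ a a' ha'
          have h1 := gcd_above h0
          have h2 : ((Nat.gcd (4 * (α : ZMod (k * q)) * a' + (γ : ZMod (k * q)) ^ 2).val (k * q) : ℕ) : ℝ) ≤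
              (k : ℝ) * (Nat.gcd (4 * (α : ZMod q) * a + (γ : ZMod q) ^ 2).val q : ℝ) := by
            exact_mod_cast h1
          calc ((Nat.gcd (4 * (α : ZMod (k * q)) * a' + (γ : ZMod (k * q)) ^ 2).val (k * q) : ℕ) : ℝ) ≤
                (k : ℝ) * (Nat.gcd (4 * (α : ZMod q) * a + (γ : ZMod q) ^ 2).val q : ℝ) := h2
            _ ≤ L ^ (C + κ + 1) * L ^ T := by gcongr
            _ = L ^ T' := by rw [hT', ← pow_add]; congr 1; omega
        have hηw : |β - h' / ((k * q : ℕ) : ℝ)| ≤ L ^ C / N := by rw [← hw]; exact hηle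
        exact hpw1 (k * q) (by rw [← hM]; exact hkqM) hτ' a' hga _ hηw y hy
      have e3 : ‖TT α γ G y N q β a‖ ^ 2 ≤ X₂ := by
        have l1 := TT_lift (α := α) (γ := γ) (G := G) (k := k) hy (h := h') (β := β)
          (η := β - h' / ((k * q : ℕ) : ℝ)) (by ring) a
        obtain ⟨S, hS⟩ : ∃ S, S = univ.filter (fun a' : ZMod (k * q) => ((a'.val : ℕ) : ZMod q) = a) := ⟨_, rfl⟩
        rw [← hS] at l1
        have hSc : (S.card : ℝ) ≤ k := by rw [hS]; exact_mod_cast card_above k q a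
        have hY0 : 0 ≤ (N : ℝ) ^ 3 / (((k * q : ℕ) : ℝ) ^ 2 * L ^ A') := by positivity
        calc ‖TT α γ G y N q β a‖ ^ 2 ≤ (∑ a' ∈ S, ‖TT α γ G y N (k * q) (β - h' / ((k * q : ℕ) : ℝ)) a'‖) ^ 2 :=
              pow_le_pow_left₀ (norm_nonneg _) l1 2
          _ ≤ S.card * ∑ a' ∈ S, ‖TT α γ G y N (k * q) (β - h' / ((k * q : ℕ) : ℝ)) a'‖ ^ 2 :=
              sq_sum_le_card_mul_sum_sq
          _ ≤ S.card * ∑ _a' ∈ S, (N : ℝ) ^ 3 / (((k * q : ℕ) : ℝ) ^ 2 * L ^ A') := by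
              gcongr with a' ha'
              rw [hS, mem_filter] at ha'
              exact hpw a' ha'.2
          _ = (S.card : ℝ) ^ 2 * ((N : ℝ) ^ 3 / (((k * q : ℕ) : ℝ) ^ 2 * L ^ A')) := by
              rw [sum_const, nsmul_eq_mul]
              ring
          _ ≤ (k : ℝ) ^ 2 * ((N : ℝ) ^ 3 / (((k * q : ℕ) : ℝ) ^ 2 * L ^ A')) := by gcongr
          _ = X₂ := by
              rw [hX₂, Nat.cast_mul]
              field_simp
      have e4 : t ∈ mj D q Kk w := by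
        rw [mem_mj]
        refine ⟨ht, k, mem_Icc.2 ⟨hk0', hkK⟩, h', ?_⟩
        rw [← hβ]
        exact hηle
      rw [if_pos e4]
      have := mul_nonneg hX₁0 (hSb0 β)
      linarith
  -- the sum over the frequencies
  have hmean := TT_mean (α := α) (γ := γ) (G := G) hy a
  rw [← hD] at hmean
  have s1 : ∑ t ∈ range D, Sb ((t : ℝ) / D) ≤ D * (2 * N * L ^ 4) := by
    rw [hSb]
    simp only
    rw [sum_comm]
    calc ∑ k : ZMod q, ∑ t ∈ range D, ‖cl q N G ((t : ℝ) / D) (a - ((α : ZMod q) * k ^ 2 + (γ : ZMod q) * k))‖ ^ 2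
        ≤ ∑ _k : ZMod q, (D : ℝ) * (((N : ℝ) / q + 1) * (L ^ 2) ^ 2) :=
          sum_le_sum fun k _ => cl_mean hG hDN _
      _ = q * ((D : ℝ) * (((N : ℝ) / q + 1) * (L ^ 2) ^ 2)) := by
          rw [sum_const, card_univ, ZMod.card, nsmul_eq_mul]
      _ = D * ((N + q) * L ^ 4) := by field_simp
      _ ≤ D * ((N + N) * L ^ 4) := by gcongr
      _ = _ := by ring
  have s2 : ∑ t ∈ range D, (if t ∈ mj D q Kk w then X₂ else 0) ≤ (q * L ^ (3 * (C + κ) + 4)) * X₂ := by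
    rw [← sum_filter, sum_const, nsmul_eq_mul]
    apply mul_le_mul_of_nonneg_right _ hX₂0
    have hc1 : (((range D).filter (fun t => t ∈ mj D q Kk w)).card : ℝ) ≤ ((mj D q Kk w).card : ℝ) := by
      have : (range D).filter (fun t => t ∈ mj D q Kk w) ⊆ mj D q Kk w := fun t ht => (mem_filter.1 ht).2
      exact_mod_cast card_le_card this
    refine hc1.trans ((card_mj (by omega) (NeZero.pos q) hw0 ?_).trans ?_)
    · rw [hw]
      calc L ^ C / N * (Kk * q) ≤ L ^ C / N * (L ^ (C + κ + 1) * q) := by gcongr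
        _ = (q * L ^ (2 * C + κ + 1)) / N := by ring
        _ ≤ M / N := by
            gcongr
            exact hsmall _ (by omega)
        _ ≤ 1 := by rw [div_le_one hN0]; exact hMN
    · exact maj_count' (a := kap α γ) hκ1 hκ (by linarith) hN0 hq1 hKkr hw (by rw [hDr]; nlinarith)
  have hfin : (D : ℝ) * ∑ n ∈ cls ((α.natAbs + γ.natAbs + 1) * N) q a, ‖cvs α γ G y N n‖ ^ 2 ≤
      D * ((N : ℝ) ^ 2 / (q * L ^ A)) := by
    rw [hmean]
    refine (sum_le_sum hpt).trans ?_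
    rw [sum_add_distrib, ← mul_sum]
    apply fin_arith (by linarith) hq0 hN0 hDNr (A := A) (C := C + κ)
    · rw [← hX₁]
      exact mul_le_mul_of_nonneg_left s1 hX₁0
    · rw [← hA', ← hX₂]
      exact s2
  exact le_of_mul_le_mul_left hfin hD0

end Pool.Agent.R460.SL
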