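import Pool.Agent.R460.SL.Core
import Pool.Agent.R460.SB.Main

set_option autoImplicit false

/-! The Liouville function at quadratic polynomials: the number of the exceptional constant terms. -/

namespace Pool.Agent.R460.SL

open Finset
open Pool.Agent.Y883.GJ
open Pool.Agent.R460.GS
open Pool.Agent.R460.GH
open Pool.Agent.R460.SB
open Pool.Agent.R460.SQ (cls)
open Pool.Agent.Y614.GJ.Core (ev_log)
open Pool.Agent.H373R2.T7 (liR liR_norm)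

/-- the Liouville function on the integers -/
def lam (v : ℤ) : ℤ := if v = 0 then 0 else (-1) ^ ArithmeticFunction.cardFactors v.natAbs

lemma lam_abs (v : ℤ) : |((lam v : ℤ) : ℝ)| ≤ 1 := by
  unfold lam
  split_ifs
  · simp
  · push_cast
    rw [abs_pow, abs_neg, abs_one, one_pow]

/-- the sum of the Liouville function over the values -/
def lsum (α γ n : ℤ) (y : ℕ) : ℝ := ((∑ m ∈ Icc 1 y, lam (fv α γ n m) : ℤ) : ℝ)

lemma lsum_cvs {α γ : ℤ} {y N : ℕ} {n : ℤ} (h : ∀ m ∈ Icc 1 y, |fv α γ n m| ≤ N) :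
    |lsum α γ n y| ≤ ‖cvs α γ liR y N n‖ + ‖cvs (-α) (-γ) liR y N (-n)‖ := by
  have h' : ∀ m ∈ Icc 1 y, |fv (-α) (-γ) (-n) m| ≤ N := by
    intro m hm
    rw [fv_neg, abs_neg]
    exact h m hm
  have e1 : ((lsum α γ n y : ℝ) : ℂ) = cvs α γ liR y N n + cvs (-α) (-γ) liR y N (-n) := by
    rw [cvs_fv h, cvs_fv h', ← sum_add_distrib]
    unfold lsum
    push_cast
    refine sum_congr rfl fun m _ => ?_
    rw [fv_neg, Int.natAbs_neg]
    unfold lam liR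
    rcases lt_trichotomy (fv α γ n m) 0 with h0 | h0 | h0
    · rw [if_neg (by omega), if_neg (by omega), if_pos (by omega), zero_add]
      push_cast
      rfl
    · rw [if_pos h0, if_neg (by omega), if_neg (by omega), zero_add, Int.cast_zero]
    · rw [if_neg (by omega), if_pos (by omega), if_neg (by omega), add_zero]
      push_cast
      rfl
  calc _ = ‖((lsum α γ n y : ℝ) : ℂ)‖ := by rw [Complex.norm_real, Real.norm_eq_abs]
    _ ≤ _ := by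
        rw [e1]
        exact norm_add_le _ _

lemma grid_li {α γ n : ℤ} {y s : ℕ} (hs : 1 ≤ s) : |lsum α γ n y| ≤ |lsum α γ n (y / s * s)| + s := by
  obtain ⟨y', hy'⟩ : ∃ y', y' = y / s * s := ⟨_, rfl⟩
  rw [← hy']
  have h1 : y' ≤ y := by rw [hy']; exact Nat.div_mul_le_self y s
  have h2 : y ≤ y' + s := by
    rw [hy']
    have := Nat.div_add_mod y s
    have h3 := Nat.mod_lt y hs
    nlinarith
  have e1 : lsum α γ n y = lsum α γ n y' + ∑ m ∈ Ioc y' y, ((lam (fv α γ n m) : ℤ) : ℝ) := by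
    unfold lsum
    push_cast
    have e3 : ∀ y : ℕ, Icc 1 y = Ioc 0 y := by
      intro y
      ext b
      simp only [mem_Icc, mem_Ioc]
      omega
    rw [e3, e3, sum_Ioc_consecutive _ (Nat.zero_le _) h1]
  have h3 : |∑ m ∈ Ioc y' y, ((lam (fv α γ n m) : ℤ) : ℝ)| ≤ s := by
    calc _ ≤ ∑ _m ∈ Ioc y' y, (1 : ℝ) := (abs_sum_le_sum_abs _ _).trans (sum_le_sum fun m _ => lam_abs _)
      _ = ((Ioc y' y).card : ℝ) := by simp
      _ ≤ s := by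
          rw [Nat.card_Ioc]
          exact_mod_cast (by omega : y - y' ≤ s)
  rw [e1]
  exact (abs_add_le _ _).trans (add_le_add le_rfl h3)

lemma cnt_grid {α γ : ℤ} {G : ℕ → ℂ} {N Y Tg s q : ℕ} (a : ZMod q) (H : Finset ℤ) {R t : ℝ}
    (hH : H ⊆ cls ((α.natAbs + γ.natAbs + 1) * N) q a)
    (hms : ∀ y : ℕ, y ^ 2 ≤ N → ∑ n ∈ cls ((α.natAbs + γ.natAbs + 1) * N) q a, ‖cvs α γ G y N n‖ ^ 2 ≤ R)
    (hY : Y ^ 2 ≤ N)
    (hbig : ∀ n ∈ H, ∃ i ∈ range (Tg + 1), t ≤ ‖cvs α γ G (min (i * s) Y) N n‖) (ht : 0 < t) :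
    (H.card : ℝ) ≤ (Tg + 1) * R / t ^ 2 := by
  rw [le_div_iff₀ (by positivity)]
  obtain ⟨V, hV⟩ : ∃ V : ℕ → ℤ → ℝ, V = fun i n => ‖cvs α γ G (min (i * s) Y) N n‖ ^ 2 := ⟨_, rfl⟩
  have hV0 : ∀ i n, 0 ≤ V i n := fun i n => by rw [hV]; positivity
  have h1 : ∀ n ∈ H, t ^ 2 ≤ ∑ i ∈ range (Tg + 1), V i n := by
    intro n hn
    obtain ⟨i, hi, h2⟩ := hbig n hn
    have h3 : V i n ≤ ∑ i ∈ range (Tg + 1), V i n :=
      single_le_sum (f := fun i => V i n) (fun i _ => hV0 i _) hi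
    refine le_trans ?_ h3
    rw [hV]
    exact pow_le_pow_left₀ ht.le h2 2
  have h2 : ∀ i, ∑ n ∈ H, V i n ≤ R := by
    intro i
    have h3 := hms (min (i * s) Y) ((Nat.pow_le_pow_left (min_le_right _ _) 2).trans hY)
    refine le_trans ?_ h3
    rw [hV]
    exact sum_le_sum_of_subset_of_nonneg hH fun n _ _ => sq_nonneg _
  calc (H.card : ℝ) * t ^ 2 = ∑ _n ∈ H, t ^ 2 := by rw [sum_const, nsmul_eq_mul]
    _ ≤ ∑ n ∈ H, ∑ i ∈ range (Tg + 1), V i n := sum_le_sum h1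
    _ = ∑ i ∈ range (Tg + 1), ∑ n ∈ H, V i n := sum_comm
    _ ≤ ∑ _i ∈ range (Tg + 1), R := sum_le_sum fun i _ => h2 i
    _ = (Tg + 1) * R := by rw [sum_const, card_range, nsmul_eq_mul]; push_cast; ring

open Classical in
/-- the exceptional integers -/
noncomputable def badL (α γ : ℤ) (C X q : ℕ) (b : ℤ) : Finset ℤ :=
  (Icc (-(X : ℤ)) X).filter (fun n : ℤ => (n : ZMod q) = (b : ZMod q) ∧
    ∃ y : ℕ, y ^ 2 ≤ X ∧ Real.sqrt X / Real.log X ^ C < |lsum α γ n y|)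

theorem fin_core (hCore : CoreLiStm) (ρ : ℝ) (hρ : 0 < ρ) (A C T κ : ℕ) : ∃ X₀ : ℕ, ∀ X : ℕ, X₀ ≤ X →
    ∀ α γ : ℤ, α ≠ 0 → kap α γ ≤ Real.log X ^ κ → ∀ q : ℕ, 1 ≤ q → (q : ℝ) ≤ (X : ℝ) ^ (1 / 2 - ρ) →
    (q.divisors.card : ℝ) ≤ Real.log X ^ T → ∀ b : ℤ, (Int.gcd (4 * α * b + γ ^ 2) q : ℝ) ≤ Real.log X ^ T →
    ((badL α γ C X q b).card : ℝ) ≤ X / (q * Real.log X ^ A) := by
  classical
  obtain ⟨A₁, hA₁⟩ : ∃ A₁, A₁ = A + 3 * C + 2 * κ + 2 := ⟨_, rfl⟩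
  obtain ⟨N₁, h1⟩ := hCore A₁ T κ ρ hρ
  obtain ⟨X₁, h2⟩ := Filter.eventually_atTop.1 (ev_log (C + 1) (s := 1 / 2) (by norm_num) 384)
  refine ⟨N₁ + X₁ + 2, fun X hX α γ hα hκ q hq1 hqX hτ b hb => ?_⟩
  obtain ⟨hLb, hLp⟩ := h2 X (by omega)
  have hX1 : 1 ≤ X := by omega
  have hX0 : (0 : ℝ) < X := by exact_mod_cast hX1
  have hXr1 : (1 : ℝ) ≤ X := by exact_mod_cast hX1
  have hqn : NeZero q := ⟨by omega⟩
  have hqr : (0 : ℝ) < q := by exact_mod_cast hq1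
  obtain ⟨N, hN⟩ : ∃ N, N = (α.natAbs + γ.natAbs + 1) * X := ⟨_, rfl⟩
  have hXN : X ≤ N := by
    rw [hN]
    nlinarith [Nat.zero_le (α.natAbs * X), Nat.zero_le (γ.natAbs * X)]
  have hXNr : (X : ℝ) ≤ N := by exact_mod_cast hXN
  have hLL : Real.log X ≤ Real.log N := Real.log_le_log hX0 hXNr
  obtain ⟨L, hL⟩ : ∃ L, L = Real.log (X : ℝ) := ⟨_, rfl⟩
  obtain ⟨L', hL'⟩ : ∃ L', L' = Real.log (N : ℝ) := ⟨_, rfl⟩
  rw [← hL] at hLb hLp hκ hτ hb hLL ⊢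
  rw [← hL'] at hLL
  have hL0 : 0 < L := by linarith
  have hL1 : 1 ≤ L := by linarith
  have hL'0 : 0 < L' := by linarith
  have hpow : ∀ k : ℕ, L ^ k ≤ L' ^ k := fun k => pow_le_pow_left₀ hL0.le hLL k
  have hNr : (N : ℝ) ≤ 2 * L ^ κ * X := by
    rw [hN]
    push_cast
    have h3 := kap_nat α γ
    push_cast at h3
    rw [h3]
    have h4 : 1 ≤ L ^ κ := one_le_pow₀ hL1
    have h5 : kap α γ + 1 ≤ 2 * L ^ κ := by linarith
    gcongr
  -- the modulus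
  have hqN : (q : ℝ) ≤ (N : ℝ) ^ (1 / 2 - ρ) := by
    rcases le_or_gt ρ (1 / 2) with h | h
    · refine hqX.trans ?_
      exact Real.rpow_le_rpow hX0.le hXNr (by linarith)
    · exfalso
      have h3 : (X : ℝ) ^ (1 / 2 - ρ) < 1 := by
        apply Real.rpow_lt_one_of_one_lt_of_neg
        · exact_mod_cast (by omega : 1 < X)
        · linarith
      have h4 : (1 : ℝ) ≤ q := by exact_mod_cast hq1
      linarith
  have hcore := h1 N (by omega)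
  rw [← hL'] at hcore
  obtain ⟨R, hR⟩ : ∃ R, R = (N : ℝ) ^ 2 / (q * L' ^ A₁) := ⟨_, rfl⟩
  have hms1 := hcore α γ hα (hκ.trans (hpow κ)) q hqN (hτ.trans (hpow T)) (b : ZMod q)
    (by rw [gcd_disc hq1]; exact hb.trans (hpow T))
  have hms2 := hcore (-α) (-γ) (neg_ne_zero.2 hα) (by
    unfold kap at hκ ⊢
    push_cast
    rw [abs_neg, abs_neg]
    exact hκ.trans (hpow κ)) q hqN (hτ.trans (hpow T)) ((-b : ℤ) : ZMod q)
    (by
      rw [gcd_disc hq1]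
      have : 4 * -α * -b + (-γ) ^ 2 = 4 * α * b + γ ^ 2 := by ring
      rw [this]
      exact hb.trans (hpow T))
  rw [← hR] at hms1 hms2
  -- the grid
  obtain ⟨M, hM⟩ : ∃ M, M = Real.sqrt X := ⟨_, rfl⟩
  have hM0 : 0 < M := by rw [hM]; exact Real.sqrt_pos.2 hX0
  have hMM : M ^ 2 = X := by rw [hM]; exact Real.sq_sqrt hX0.le
  have hM1 : 1 ≤ M := by
    rw [hM]
    exact Real.one_le_sqrt.2 hXr1
  rw [← Real.sqrt_eq_rpow, ← hM] at hLp
  obtain ⟨s, hs⟩ : ∃ s, s = ⌊M / L ^ (C + 1)⌋₊ := ⟨_, rfl⟩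
  have hs1 : 1 ≤ s := by
    rw [hs, Nat.one_le_floor_iff, _root_.one_le_div (by positivity)]
    exact hLp
  have hsr : (s : ℝ) ≤ M / L ^ (C + 1) := by rw [hs]; exact Nat.floor_le (by positivity)
  have hsr' : M / L ^ (C + 1) ≤ 2 * s := by
    have h3 : M / L ^ (C + 1) < s + 1 := by rw [hs]; exact Nat.lt_floor_add_one _
    have h4 : (1 : ℝ) ≤ s := by exact_mod_cast hs1
    linarith
  obtain ⟨Y, hY⟩ : ∃ Y, Y = Nat.sqrt X := ⟨_, rfl⟩
  have hYX : Y ^ 2 ≤ X := by rw [hY]; exact Nat.sqrt_le' X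
  have hYM : (Y : ℝ) ≤ M := by rw [hM, hY]; exact Real.nat_sqrt_le_real_sqrt
  have hTg : (((Y / s : ℕ) : ℝ) + 1) ≤ 3 * L ^ (C + 1) := by
    have h3 : ((Y / s : ℕ) : ℝ) ≤ (Y : ℝ) / s := Nat.cast_div_le
    have h4 : (Y : ℝ) / s ≤ 2 * L ^ (C + 1) := by
      have h5 : (0 : ℝ) < s := by exact_mod_cast hs1
      rw [div_le_iff₀ h5]
      rw [div_le_iff₀ (by positivity)] at hsr'
      calc (Y : ℝ) ≤ M := hYM
        _ ≤ 2 * s * L ^ (C + 1) := hsr'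
        _ = _ := by ring
    have h6 : 1 ≤ L ^ (C + 1) := one_le_pow₀ hL1
    linarith
  obtain ⟨t, ht⟩ : ∃ t, t = M / (4 * L ^ C) := ⟨_, rfl⟩
  have ht0 : 0 < t := by rw [ht]; positivity
  obtain ⟨H, hH⟩ : ∃ H, H = badL α γ C X q b := ⟨_, rfl⟩
  rw [← hH]
  obtain ⟨P₁, hP₁⟩ : ∃ P₁ : ℤ → Prop, P₁ = fun n => ∃ i ∈ range (Y / s + 1), t ≤ ‖cvs α γ liR (min (i * s) Y) N n‖ :=
    ⟨_, rfl⟩
  obtain ⟨P₂, hP₂⟩ : ∃ P₂ : ℤ → Prop, P₂ = fun n => ∃ i ∈ range (Y / s + 1),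
    t ≤ ‖cvs (-α) (-γ) liR (min (i * s) Y) N (-n)‖ := ⟨_, rfl⟩
  obtain ⟨H₁, hH₁⟩ : ∃ H₁, H₁ = H.filter P₁ := ⟨_, rfl⟩
  obtain ⟨H₂, hH₂⟩ : ∃ H₂, H₂ = H.filter P₂ := ⟨_, rfl⟩
  have hmemH : ∀ n ∈ H, (n ∈ Icc (-(X : ℤ)) X ∧ (n : ZMod q) = (b : ZMod q)) ∧
      ∃ y : ℕ, y ^ 2 ≤ X ∧ Real.sqrt X / Real.log X ^ C < |lsum α γ n y| := by
    intro n hn
    rw [hH, badL, mem_filter] at hn
    exact ⟨⟨hn.1, hn.2.1⟩, hn.2.2⟩
  have hsub : H ⊆ H₁ ∪ H₂ := by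
    intro n hn
    obtain ⟨⟨k1, k2⟩, y, k3, k4⟩ := hmemH n hn
    rw [← hL, ← hM] at k4
    have hnX : |n| ≤ X := by
      rw [mem_Icc] at k1
      exact abs_le.2 k1
    have hyY : y ≤ Y := by
      rw [hY, Nat.le_sqrt']
      exact k3
    have hi : y / s ∈ range (Y / s + 1) := by
      rw [mem_range]
      have := Nat.div_le_div_right (c := s) hyY
      omega
    have hmin : min (y / s * s) Y = y / s * s := min_eq_left ((Nat.div_mul_le_self y s).trans hyY)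
    have hy' : (y / s * s) ^ 2 ≤ X := (Nat.pow_le_pow_left (Nat.div_mul_le_self y s) 2).trans k3
    have g1 := grid_li (α := α) (γ := γ) (n := n) (y := y) hs1
    have g2 := lsum_cvs (α := α) (γ := γ) (y := y / s * s) (N := N) (n := n)
      (fun m hm => fv_abs (by rw [hN]) hnX hy' hm)
    have g3 : M / L ^ (C + 1) ≤ M / L ^ C / 2 := by
      rw [pow_succ, div_div, div_le_div_iff₀ (by positivity) (by positivity)]
      have : 2 ≤ L := by linarith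
      have h7 : 0 < M * L ^ C := by positivity
      nlinarith
    have g4 : 2 * t = M / L ^ C / 2 := by rw [ht]; field_simp; norm_num
    have g5 : 2 * t < ‖cvs α γ liR (y / s * s) N n‖ + ‖cvs (-α) (-γ) liR (y / s * s) N (-n)‖ := by linarith
    rw [mem_union, hH₁, hH₂, mem_filter, mem_filter, hP₁, hP₂]
    rcases le_or_gt t ‖cvs α γ liR (y / s * s) N n‖ with h | h
    · left
      exact ⟨hn, y / s, hi, by rw [hmin]; exact h⟩
    · right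
      exact ⟨hn, y / s, hi, by rw [hmin]; linarith⟩
  have hXcls : ∀ n : ℤ, n ∈ Icc (-(X : ℤ)) X → n ∈ Icc (-(((α.natAbs + γ.natAbs + 1) * N : ℕ) : ℤ))
      (((α.natAbs + γ.natAbs + 1) * N : ℕ) : ℤ) := by
    intro n hn
    rw [mem_Icc] at hn ⊢
    have h3 : N ≤ (α.natAbs + γ.natAbs + 1) * N := by
      nlinarith [Nat.zero_le (α.natAbs * N), Nat.zero_le (γ.natAbs * N)]
    have h4 : (X : ℤ) ≤ (((α.natAbs + γ.natAbs + 1) * N : ℕ) : ℤ) := by exact_mod_cast hXN.trans h3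
    constructor <;> linarith [hn.1, hn.2]
  have c1 : (H₁.card : ℝ) ≤ (((Y / s : ℕ) : ℝ) + 1) * R / t ^ 2 := by
    refine cnt_grid (s := s) (b : ZMod q) H₁ ?_ hms1 (hYX.trans hXN) ?_ ht0
    · intro n hn
      rw [hH₁, mem_filter] at hn
      obtain ⟨⟨k1, k2⟩, -⟩ := hmemH n hn.1
      unfold cls
      rw [mem_filter]
      exact ⟨hXcls n k1, k2⟩
    · intro n hn
      rw [hH₁, mem_filter, hP₁] at hn
      exact hn.2
  have c2 : (H₂.card : ℝ) ≤ (((Y / s : ℕ) : ℝ) + 1) * R / t ^ 2 := by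
    have e1 : H₂.card = (H₂.image (fun n => -n)).card := (card_image_of_injective _ neg_injective).symm
    rw [e1]
    refine cnt_grid (s := s) ((-b : ℤ) : ZMod q) (H₂.image (fun n => -n)) ?_ hms2 (hYX.trans hXN) ?_ ht0
    · intro n hn
      rw [mem_image] at hn
      obtain ⟨n', hn', rfl⟩ := hn
      rw [hH₂, mem_filter] at hn'
      obtain ⟨⟨k1, k2⟩, -⟩ := hmemH n' hn'.1
      unfold cls
      rw [mem_filter]
      constructor
      · have h3 := hXcls (-n') (by rw [mem_Icc] at k1 ⊢; omega)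
        rw [Int.natAbs_neg, Int.natAbs_neg]
        exact h3
      · push_cast
        rw [k2]
    · intro n hn
      rw [mem_image] at hn
      obtain ⟨n', hn', rfl⟩ := hn
      rw [hH₂, mem_filter, hP₂] at hn'
      exact hn'.2
  have c3 : (H.card : ℝ) ≤ 2 * ((((Y / s : ℕ) : ℝ) + 1) * R / t ^ 2) := by
    have h3 : H.card ≤ H₁.card + H₂.card := (card_le_card hsub).trans (card_union_le _ _)
    have h4 : (H.card : ℝ) ≤ H₁.card + H₂.card := by exact_mod_cast h3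
    linarith
  refine c3.trans ?_
  have hRle : R ≤ (2 * L ^ κ * X) ^ 2 / (q * L ^ A₁) := by
    rw [hR]
    exact div_le_div₀ (by positivity) (pow_le_pow_left₀ (Nat.cast_nonneg _) hNr 2) (by positivity)
      (mul_le_mul_of_nonneg_left (hpow A₁) hqr.le)
  have hR0 : 0 ≤ R := by
    rw [hR]
    positivity
  calc 2 * ((((Y / s : ℕ) : ℝ) + 1) * R / t ^ 2)
      ≤ 2 * ((3 * L ^ (C + 1)) * ((2 * L ^ κ * X) ^ 2 / (q * L ^ A₁)) / t ^ 2) := by
        have e0 : (((Y / s : ℕ) : ℝ) + 1) * R ≤ (3 * L ^ (C + 1)) * ((2 * L ^ κ * X) ^ 2 / (q * L ^ A₁)) :=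
          mul_le_mul hTg hRle hR0 (by positivity)
        gcongr
    _ = X / (q * L ^ A) * (384 / L) := by
        rw [ht, hA₁, div_pow, hMM]
        have e1 : L ^ (A + 3 * C + 2 * κ + 2) = L ^ A * (L ^ C) ^ 3 * (L ^ κ) ^ 2 * L ^ 2 := by
          rw [← pow_mul, ← pow_mul, ← pow_add, ← pow_add, ← pow_add]
          congr 1
          ring
        rw [e1, pow_succ L C]
        field_simp
        ring
    _ ≤ X / (q * L ^ A) * 1 := by
        apply mul_le_mul_of_nonneg_left _ (by positivity)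
        rw [div_le_one hL0]
        exact hLb
    _ = _ := mul_one _

theorem fin_li (ρ : ℝ) (hρ : 0 < ρ) (A C T κ : ℕ) : ∃ X₀ : ℕ, ∀ X : ℕ, X₀ ≤ X →
    ∀ α γ : ℤ, α ≠ 0 → kap α γ ≤ Real.log X ^ κ → ∀ q : ℕ, 1 ≤ q → (q : ℝ) ≤ (X : ℝ) ^ (1 / 2 - ρ) →
    (q.divisors.card : ℝ) ≤ Real.log X ^ T → ∀ b : ℤ, (Int.gcd (4 * α * b + γ ^ 2) q : ℝ) ≤ Real.log X ^ T →
    ((badL α γ C X q b).card : ℝ) ≤ X / (q * Real.log X ^ A) :=
  fin_core (coreLi Pool.Agent.Y297.GJ.orth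
    (bilMaj3 Pool.Agent.Y812.GJ.l2 (countK Pool.Agent.Y812.GJ.l2)) (tiMaj2 Pool.Agent.Y812.GJ.l2)) ρ hρ A C T κ

end Pool.Agent.R460.SL
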