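import Pool.Agent.H373R2.T7.SupLiou
import Pool.Agent.Y883.GJ.Stm

set_option autoImplicit false

/-! An identity for the Liouville function. -/

namespace Pool.Agent.R460.SL

open Finset
open Pool.Agent.H373R2.T7 (liR liR_norm muC muC_norm)

/-- the arithmetic function given by a function -/
noncomputable def AF (f : ℕ → ℂ) : ArithmeticFunction ℂ := ⟨fun n => if n = 0 then 0 else f n, by simp⟩

lemma AF_apply (f : ℕ → ℂ) {n : ℕ} (hn : n ≠ 0) : AF f n = f n := by
  show (if n = 0 then (0 : ℂ) else f n) = f n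
  rw [if_neg hn]

lemma AF_zero (f : ℕ → ℂ) : AF f 0 = 0 := by simp

lemma sub_ap (f g : ArithmeticFunction ℂ) (n : ℕ) : (f - g) n = f n - g n := by
  rw [sub_eq_add_neg, ArithmeticFunction.add_apply, ArithmeticFunction.neg_apply, sub_eq_add_neg]

variable {V : Type*} [NormedAddCommGroup V] [NormedSpace ℂ V]

lemma conv_sum (f g : ArithmeticFunction ℂ) (E : ℕ → V) (y : ℕ) :
    ∑ n ∈ Icc 1 y, (f * g) n • E n = ∑ m ∈ Icc 1 y, ∑ k ∈ Icc 1 (y / m), (f m * g k) • E (m * k) := by
  have h1 : ∀ n ∈ Icc 1 y, (f * g) n • E n =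
      ∑ p ∈ n.divisorsAntidiagonal, (f p.1 * g p.2) • E (p.1 * p.2) := by
    intro n hn
    rw [ArithmeticFunction.mul_apply, sum_smul]
    refine sum_congr rfl fun p hp => ?_
    rw [(Nat.mem_divisorsAntidiagonal.1 hp).1]
  rw [sum_congr rfl h1, sum_sigma', sum_sigma']
  refine sum_bij' (fun x _ => (⟨x.2.1, x.2.2⟩ : Σ _ : ℕ, ℕ))
    (fun x _ => (⟨x.1 * x.2, (x.1, x.2)⟩ : Σ _ : ℕ, ℕ × ℕ)) ?_ ?_ ?_ ?_ ?_
  · rintro ⟨n, a, b⟩ hx
    simp only [mem_sigma, mem_Icc, Nat.mem_divisorsAntidiagonal] at hx ⊢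
    obtain ⟨⟨h1, h2⟩, h3, h4⟩ := hx
    have ha : 0 < a := Nat.pos_of_ne_zero (by rintro rfl; simp at h3; omega)
    have hb : 0 < b := Nat.pos_of_ne_zero (by rintro rfl; simp at h3; omega)
    refine ⟨⟨ha, ?_⟩, hb, ?_⟩
    · calc a ≤ a * b := Nat.le_mul_of_pos_right _ hb
        _ ≤ y := by omega
    · rw [Nat.le_div_iff_mul_le ha, mul_comm]
      omega
  · rintro ⟨a, b⟩ hx
    simp only [mem_sigma, mem_Icc, Nat.mem_divisorsAntidiagonal] at hx ⊢
    obtain ⟨⟨h1, h2⟩, h3, h4⟩ := hx
    have h5 : 0 < a * b := Nat.mul_pos (by omega) (by omega)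
    rw [Nat.le_div_iff_mul_le (by omega), mul_comm] at h4
    exact ⟨⟨h5, h4⟩, trivial, h5.ne'⟩
  · rintro ⟨n, a, b⟩ hx
    simp only [mem_sigma, mem_Icc, Nat.mem_divisorsAntidiagonal] at hx
    obtain ⟨-, h3, -⟩ := hx
    simp only [h3]
  · rintro ⟨a, b⟩ _
    rfl
  · rintro ⟨n, a, b⟩ _
    rfl

open Classical in
/-- the indicator function of the squares -/
noncomputable def SQ : ArithmeticFunction ℂ := AF (fun n => if IsSquare n then 1 else 0)

/-- the zeta function with complex values -/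
noncomputable def ZT : ArithmeticFunction ℂ := (ArithmeticFunction.zeta : ArithmeticFunction ℂ)

/-- the Moebius function with complex values -/
noncomputable def MB : ArithmeticFunction ℂ := (ArithmeticFunction.moebius : ArithmeticFunction ℂ)

lemma MB_ZT : MB * ZT = 1 := ArithmeticFunction.coe_moebius_mul_coe_zeta

lemma liou_eq : AF liR = SQ * MB := by
  classical
  ext n
  rcases Nat.eq_zero_or_pos n with h0 | h0
  · subst h0
    rw [ArithmeticFunction.map_zero, ArithmeticFunction.map_zero]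
  · rw [AF_apply _ h0.ne', ArithmeticFunction.mul_apply]
    unfold liR
    rw [Pool.Agent.H534R2.BH.lam_eq n n (mem_Icc.2 ⟨h0, le_rfl⟩), ← sum_filter]
    have e1 : ∑ p ∈ n.divisorsAntidiagonal, SQ p.1 * MB p.2 =
        ∑ p ∈ n.divisorsAntidiagonal.filter (fun p => IsSquare p.1), MB p.2 := by
      rw [sum_filter]
      refine sum_congr rfl fun p hp => ?_
      have h1 := Nat.mem_divisorsAntidiagonal.1 hp
      have h2 : p.1 ≠ 0 := by
        intro h
        rw [h, zero_mul] at h1
        omega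
      unfold SQ
      rw [AF_apply _ h2]
      split_ifs <;> simp
    rw [e1]
    refine sum_bij' (fun d _ => (d ^ 2, n / d ^ 2)) (fun p _ => Nat.sqrt p.1) ?_ ?_ ?_ ?_ ?_
    · intro d hd
      rw [mem_filter, mem_Icc] at hd
      rw [mem_filter, Nat.mem_divisorsAntidiagonal]
      exact ⟨⟨Nat.mul_div_cancel' hd.2, h0.ne'⟩, ⟨d, by ring⟩⟩
    · intro p hp
      rw [mem_filter, Nat.mem_divisorsAntidiagonal] at hp
      obtain ⟨⟨h1, h2⟩, r, hr⟩ := hp
      have h3 : Nat.sqrt p.1 = r := by rw [hr]; exact Nat.sqrt_eq r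
      rw [mem_filter, mem_Icc, h3]
      have h4 : r ^ 2 ∣ n := ⟨p.2, by rw [← h1, hr]; ring⟩
      have h5 : 0 < r := by
        rcases Nat.eq_zero_or_pos r with h | h
        · rw [h] at hr
          rw [hr] at h1
          simp at h1
          omega
        · exact h
      exact ⟨⟨h5, le_trans (Nat.le_self_pow two_ne_zero r) (Nat.le_of_dvd h0 h4)⟩, h4⟩
    · intro d hd
      simp only
      exact Nat.sqrt_eq' d
    · intro p hp
      rw [mem_filter, Nat.mem_divisorsAntidiagonal] at hp
      obtain ⟨⟨h1, h2⟩, r, hr⟩ := hp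
      have h3 : Nat.sqrt p.1 = r := by rw [hr]; exact Nat.sqrt_eq r
      have h5 : 0 < r := by
        rcases Nat.eq_zero_or_pos r with h | h
        · rw [h] at hr
          rw [hr] at h1
          simp at h1
          omega
        · exact h
      have h6 : p.1 = r ^ 2 := by rw [hr]; ring
      have h7 : n / r ^ 2 = p.2 := by
        rw [← h1, h6]
        exact Nat.mul_div_cancel_left _ (by positivity)
      show (Nat.sqrt p.1 ^ 2, n / Nat.sqrt p.1 ^ 2) = p
      rw [h3, h7, ← h6]
    · intro d hd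
      rw [mem_filter, mem_Icc] at hd
      simp only
      unfold MB
      rw [ArithmeticFunction.intCoe_apply]

lemma liou_zeta : AF liR * ZT = SQ := by
  rw [liou_eq, mul_assoc, MB_ZT, mul_one]

/-- truncations -/
noncomputable def MU (U : ℕ) : ArithmeticFunction ℂ := AF (fun n => if n ≤ U then muC n else 0)
noncomputable def LU (U : ℕ) : ArithmeticFunction ℂ := AF (fun n => if n ≤ U then liR n else 0)
noncomputable def GU (U : ℕ) : ArithmeticFunction ℂ := 1 - MU U * ZT
noncomputable def A1 (U R : ℕ) : ArithmeticFunction ℂ := AF (fun n => if U < n ∧ n ≤ R then liR n else 0)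
noncomputable def A2 (R : ℕ) : ArithmeticFunction ℂ := AF (fun n => if R < n then liR n else 0)
noncomputable def G1 (U R : ℕ) : ArithmeticFunction ℂ := AF (fun n => if n ≤ R then GU U n else 0)
noncomputable def G2 (U R : ℕ) : ArithmeticFunction ℂ := AF (fun n => if R < n then GU U n else 0)

lemma split_L {U R : ℕ} (h : U ≤ R) : AF liR = LU U + A1 U R + A2 R := by
  ext n
  rw [ArithmeticFunction.add_apply, ArithmeticFunction.add_apply]
  rcases Nat.eq_zero_or_pos n with h0 | h0
  · subst h0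
    simp
  · unfold LU A1 A2
    rw [AF_apply _ h0.ne', AF_apply _ h0.ne', AF_apply _ h0.ne', AF_apply _ h0.ne']
    rcases le_or_gt n U with h1 | h1
    · rw [if_pos h1, if_neg (by omega), if_neg (by omega), add_zero, add_zero]
    · rcases le_or_gt n R with h2 | h2
      · rw [if_neg (by omega), if_pos ⟨h1, h2⟩, if_neg (by omega), add_zero, zero_add]
      · rw [if_neg (by omega), if_neg (by omega), if_pos h2, add_zero, zero_add]

lemma split_G (U R : ℕ) : GU U = G1 U R + G2 U R := by
  ext n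
  rw [ArithmeticFunction.add_apply]
  rcases Nat.eq_zero_or_pos n with h0 | h0
  · subst h0
    simp
  · unfold G1 G2
    rw [AF_apply _ h0.ne', AF_apply _ h0.ne']
    rcases le_or_gt n R with h1 | h1
    · rw [if_pos h1, if_neg (by omega), add_zero]
    · rw [if_neg (by omega), if_pos h1, zero_add]

lemma main_id {U R : ℕ} (h : U ≤ R) : AF liR = MU U * SQ + LU U - (LU U * MU U) * ZT + A1 U R * GU U +
    G1 U R * A2 R + A2 R * G2 U R := by
  have e1 := split_L h
  have e2 := split_G U R
  have e3 := liou_zeta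
  have e4 : GU U = 1 - MU U * ZT := rfl
  have e5 : AF liR * GU U - LU U * GU U = A1 U R * GU U + A2 R * G1 U R + A2 R * G2 U R := by
    have : AF liR - LU U = A1 U R + A2 R := by rw [e1]; ring
    calc AF liR * GU U - LU U * GU U = (AF liR - LU U) * GU U := by ring
      _ = (A1 U R + A2 R) * GU U := by rw [this]
      _ = A1 U R * GU U + A2 R * GU U := by ring
      _ = A1 U R * GU U + A2 R * (G1 U R + G2 U R) := by rw [← e2]
      _ = _ := by ring
  have e6 : AF liR * GU U = AF liR - MU U * SQ := by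
    rw [e4, mul_sub, mul_one, ← e3]
    ring
  have e7 : LU U * GU U = LU U - (LU U * MU U) * ZT := by
    rw [e4]
    ring
  rw [e6, e7] at e5
  linear_combination e5

lemma A2G2_zero {U R n : ℕ} (hn : n < (R + 1) ^ 2) : (A2 R * G2 U R) n = 0 := by
  rw [ArithmeticFunction.mul_apply]
  apply sum_eq_zero
  intro p hp
  obtain ⟨h1, h2⟩ := Nat.mem_divisorsAntidiagonal.1 hp
  have ha : p.1 ≠ 0 := by
    intro h
    rw [h, zero_mul] at h1
    omega
  have hb : p.2 ≠ 0 := by
    intro h
    rw [h, mul_zero] at h1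
    omega
  unfold A2 G2
  rw [AF_apply _ ha, AF_apply _ hb]
  rcases le_or_gt p.1 R with h3 | h3
  · rw [if_neg (by omega), zero_mul]
  · rcases le_or_gt p.2 R with h4 | h4
    · rw [if_neg (by omega : ¬ R < p.2), mul_zero]
    · exfalso
      have : (R + 1) * (R + 1) ≤ p.1 * p.2 := Nat.mul_le_mul h3 h4
      rw [h1] at this
      nlinarith

lemma GU_apply (U n : ℕ) (hn : n ≠ 0) : GU U n = (if n = 1 then 1 else 0) -
    ∑ d ∈ n.divisors, (if d ≤ U then muC d else 0) := by
  unfold GU
  rw [sub_ap, ArithmeticFunction.one_apply]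
  congr 1
  unfold ZT
  rw [ArithmeticFunction.coe_mul_zeta_apply]
  refine sum_congr rfl fun d hd => ?_
  unfold MU
  rw [AF_apply _ (Nat.pos_of_mem_divisors hd).ne']

lemma GU_bd (U : ℕ) {n : ℕ} (hn : n ≠ 0) : ‖GU U n‖ ≤ 2 * (n.divisors.card : ℝ) := by
  have h1 : (1 : ℝ) ≤ (n.divisors.card : ℝ) := by
    have : 0 < n.divisors.card := card_pos.2 ⟨1, Nat.one_mem_divisors.2 hn⟩
    exact_mod_cast this
  rw [GU_apply U n hn]
  have h2 : ‖∑ d ∈ n.divisors, (if d ≤ U then muC d else 0)‖ ≤ (n.divisors.card : ℝ) := by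
    calc ‖∑ d ∈ n.divisors, (if d ≤ U then muC d else 0)‖ ≤ ∑ _d ∈ n.divisors, (1 : ℝ) := by
          refine (norm_sum_le _ _).trans (sum_le_sum fun d _ => ?_)
          split_ifs
          · exact muC_norm d
          · simp
      _ = _ := by simp
  have h3 : ‖(if n = 1 then (1 : ℂ) else 0)‖ ≤ 1 := by
    split_ifs <;> simp
  refine (norm_sub_le _ _).trans ?_
  linarith

lemma GU_zero {U n : ℕ} (hn : n ≤ U) : GU U n = 0 := by
  rcases Nat.eq_zero_or_pos n with h0 | h0
  · rw [h0, ArithmeticFunction.map_zero]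
  · rw [GU_apply U n h0.ne']
    have h1 : ∑ d ∈ n.divisors, (if d ≤ U then muC d else 0) = ∑ d ∈ n.divisors, MB d := by
      refine sum_congr rfl fun d hd => ?_
      have := Nat.divisor_le hd
      rw [if_pos (by omega)]
      unfold muC MB
      rw [ArithmeticFunction.intCoe_apply]
    have h2 : ∑ d ∈ n.divisors, MB d = (MB * ZT) n := by
      unfold ZT
      rw [ArithmeticFunction.coe_mul_zeta_apply]
    rw [h1, h2, MB_ZT, ArithmeticFunction.one_apply, sub_self]

lemma LM_bd (U : ℕ) (c : ℕ) : ‖(LU U * MU U) c‖ ≤ (c.divisors.card : ℝ) := by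
  rw [ArithmeticFunction.mul_apply]
  calc _ ≤ ∑ _p ∈ c.divisorsAntidiagonal, (1 : ℝ) := by
        refine (norm_sum_le _ _).trans (sum_le_sum fun p hp => ?_)
        obtain ⟨h1, h2⟩ := Nat.mem_divisorsAntidiagonal.1 hp
        have ha : p.1 ≠ 0 := by
          intro h
          rw [h, zero_mul] at h1
          omega
        have hb : p.2 ≠ 0 := by
          intro h
          rw [h, mul_zero] at h1
          omega
        unfold LU MU
        rw [AF_apply _ ha, AF_apply _ hb, norm_mul]
        have e1 : ‖(if p.1 ≤ U then liR p.1 else 0)‖ ≤ 1 := by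
          split_ifs
          · exact liR_norm _
          · simp
        have e2 : ‖(if p.2 ≤ U then muC p.2 else 0)‖ ≤ 1 := by
          split_ifs
          · exact muC_norm _
          · simp
        calc _ ≤ (1 : ℝ) * 1 := mul_le_mul e1 e2 (norm_nonneg _) zero_le_one
          _ = 1 := one_mul _
    _ = (c.divisors.card : ℝ) := by
        rw [sum_const, nsmul_eq_mul, mul_one, ← Nat.map_div_right_divisors, card_map]

lemma LM_zero {U c : ℕ} (hc : U * U < c) : (LU U * MU U) c = 0 := by
  rw [ArithmeticFunction.mul_apply]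
  apply sum_eq_zero
  intro p hp
  obtain ⟨h1, h2⟩ := Nat.mem_divisorsAntidiagonal.1 hp
  have ha : p.1 ≠ 0 := by
    intro h
    rw [h, zero_mul] at h1
    omega
  have hb : p.2 ≠ 0 := by
    intro h
    rw [h, mul_zero] at h1
    omega
  unfold LU MU
  rw [AF_apply _ ha, AF_apply _ hb]
  rcases le_or_gt p.1 U with h3 | h3
  · rcases le_or_gt p.2 U with h4 | h4
    · exfalso
      have : p.1 * p.2 ≤ U * U := Nat.mul_le_mul h3 h4
      omega
    · rw [if_neg (by omega : ¬ p.2 ≤ U), mul_zero]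
  · rw [if_neg (by omega), zero_mul]

end Pool.Agent.R460.SL
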