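import Pool.Agent.R460.SL.Id
import Pool.Agent.R460.GH.ML

set_option autoImplicit false

/-! The Liouville function on the major arcs. -/

namespace Pool.Agent.R460.SL

open Finset
open Pool.Agent.R460.GS
open Pool.Agent.R460.GH (BilMaj3Stm two_le_bd)
open Pool.Agent.Y883.GJ
open Pool.Agent.H807R2.Dav (ee norm_ee)
open Pool.Agent.Y614.GJ.Core (ev_log)
open Pool.Agent.H373R2.T7 (liR liR_norm muC muC_norm)

open Classical in
lemma ev_le {q : ℕ} [NeZero q] (S : Finset (DirichletCharacter ℂ q)) (η : ℝ) (n : ℕ) :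
    ‖ev S η n‖ ≤ Real.sqrt q := by
  apply Real.le_sqrt_of_sq_le
  have h := norm_ev1 S η ({n} : Finset ℕ) (fun _ => 1) (fun n => n)
  simp only [sum_singleton, one_smul, one_mul] at h
  rw [h]
  have h1 : ∑ χ ∈ S, ‖χ (n : ZMod q) * ee (n * η)‖ ^ 2 ≤ ∑ _χ ∈ S, (1 : ℝ) := by
    refine sum_le_sum fun χ _ => ?_
    rw [norm_mul, norm_ee, mul_one]
    exact pow_le_one₀ (norm_nonneg _) (DirichletCharacter.norm_le_one _ _)
  refine h1.trans ?_
  rw [sum_const, nsmul_eq_mul, mul_one]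
  have h2 : S.card ≤ Fintype.card (DirichletCharacter ℂ q) := card_le_univ _
  have h3 : Fintype.card (DirichletCharacter ℂ q) = q.totient := by
    rw [← Nat.card_eq_fintype_card]
    exact DirichletCharacter.card_eq_totient_of_hasEnoughRootsOfUnity ℂ q
  have h4 : S.card ≤ q := by
    rw [h3] at h2
    exact h2.trans (Nat.totient_le q)
  exact_mod_cast h4

lemma A1_bd (U R n : ℕ) : ‖A1 U R n‖ ≤ 1 := by
  rcases Nat.eq_zero_or_pos n with h0 | h0
  · subst h0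
    simp
  · unfold A1
    rw [AF_apply _ h0.ne']
    split_ifs
    · exact liR_norm _
    · simp

lemma A2_bd (R n : ℕ) : ‖A2 R n‖ ≤ 1 := by
  rcases Nat.eq_zero_or_pos n with h0 | h0
  · subst h0
    simp
  · unfold A2
    rw [AF_apply _ h0.ne']
    split_ifs
    · exact liR_norm _
    · simp

lemma G1_bd (U R : ℕ) {n : ℕ} (hn : n ≠ 0) : ‖G1 U R n‖ ≤ 2 * (n.divisors.card : ℝ) := by
  unfold G1
  rw [AF_apply _ hn]
  split_ifs
  · exact GU_bd U hn
  · simp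

lemma A1_supp {U R n : ℕ} (h : A1 U R n ≠ 0) : U < n ∧ n ≤ R := by
  by_contra h'
  apply h
  rcases Nat.eq_zero_or_pos n with h0 | h0
  · subst h0
    simp
  · unfold A1
    rw [AF_apply _ h0.ne', if_neg h']

lemma G1_supp {U R n : ℕ} (h : G1 U R n ≠ 0) : U < n ∧ n ≤ R := by
  by_contra h'
  apply h
  rcases Nat.eq_zero_or_pos n with h0 | h0
  · subst h0
    simp
  · unfold G1
    rw [AF_apply _ h0.ne']
    split_ifs with h1
    · apply GU_zero
      by_contra h2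
      exact h' ⟨by omega, h1⟩
    · rfl

/-- sparse terms, part one -/
lemma t1_le {q : ℕ} [NeZero q] (S : Finset (DirichletCharacter ℂ q)) (η : ℝ) {U N y : ℕ} (hy : y ≤ N) :
    ‖∑ m ∈ Icc 1 y, ∑ k ∈ Icc 1 (y / m), (MU U m * SQ k) • ev S η (m * k)‖ ≤
      U * (Real.sqrt N * Real.sqrt q) := by
  classical
  have h1 : ∀ m ∈ Icc 1 y, ‖∑ k ∈ Icc 1 (y / m), (MU U m * SQ k) • ev S η (m * k)‖ ≤
      (if m ≤ U then 1 else 0) * (Real.sqrt N * Real.sqrt q) := by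
    intro m hm
    rw [mem_Icc] at hm
    have hm0 : m ≠ 0 := by omega
    split_ifs with hU
    · rw [one_mul]
      have h2 : ∀ k ∈ Icc 1 (y / m), ‖(MU U m * SQ k) • ev S η (m * k)‖ ≤
          (if IsSquare k then Real.sqrt q else 0) := by
        intro k hk
        rw [mem_Icc] at hk
        have hk0 : k ≠ 0 := by omega
        unfold MU SQ
        rw [AF_apply _ hm0, AF_apply _ hk0, if_pos hU, norm_smul, norm_mul]
        split_ifs
        · rw [norm_one, mul_one]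
          calc ‖muC m‖ * ‖ev S η (m * k)‖ ≤ 1 * Real.sqrt q :=
                mul_le_mul (muC_norm m) (ev_le S η _) (norm_nonneg _) zero_le_one
            _ = _ := one_mul _
        · rw [norm_zero, mul_zero, zero_mul]
      refine (norm_sum_le _ _).trans ((sum_le_sum h2).trans ?_)
      rw [← sum_filter, sum_const, nsmul_eq_mul]
      apply mul_le_mul_of_nonneg_right _ (Real.sqrt_nonneg _)
      have h3 : ((Icc 1 (y / m)).filter IsSquare).card ≤ (Icc 1 (Nat.sqrt N)).card := by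
        refine Finset.card_le_card_of_injOn Nat.sqrt ?_ ?_
        · intro k hk
          rw [mem_coe, mem_filter, mem_Icc] at hk
          rw [mem_coe, mem_Icc]
          constructor
          · rw [Nat.le_sqrt]
            omega
          · apply Nat.sqrt_le_sqrt
            exact hk.1.2.trans ((Nat.div_le_self _ _).trans hy)
        · intro k hk l hl h
          rw [mem_coe, mem_filter] at hk hl
          obtain ⟨a, ha⟩ := hk.2
          obtain ⟨b, hb⟩ := hl.2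
          rw [ha, hb, Nat.sqrt_eq, Nat.sqrt_eq] at h
          rw [ha, hb, h]
      rw [Nat.card_Icc, Nat.add_sub_cancel] at h3
      calc ((((Icc 1 (y / m)).filter IsSquare).card : ℕ) : ℝ) ≤ (Nat.sqrt N : ℝ) := by exact_mod_cast h3
        _ ≤ Real.sqrt N := Real.nat_sqrt_le_real_sqrt
    · rw [zero_mul]
      apply le_of_eq
      rw [norm_eq_zero]
      apply sum_eq_zero
      intro k _
      unfold MU
      rw [AF_apply _ hm0, if_neg hU, zero_mul, zero_smul]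
  refine (norm_sum_le _ _).trans ((sum_le_sum h1).trans ?_)
  rw [← sum_mul]
  apply mul_le_mul_of_nonneg_right _ (by positivity)
  rw [← sum_filter, sum_const, nsmul_eq_mul, mul_one]
  have h4 : ((Icc 1 y).filter (fun m => m ≤ U)).card ≤ (Icc 1 U).card := by
    apply card_le_card
    intro m hm
    rw [mem_filter, mem_Icc] at hm
    rw [mem_Icc]
    exact ⟨hm.1.1, hm.2⟩
  rw [Nat.card_Icc, Nat.add_sub_cancel] at h4
  exact_mod_cast h4

/-- sparse terms, part two -/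
lemma t2_le {q : ℕ} [NeZero q] (S : Finset (DirichletCharacter ℂ q)) (η : ℝ) {U y : ℕ} :
    ‖∑ n ∈ Icc 1 y, (LU U n) • ev S η n‖ ≤ U * Real.sqrt q := by
  have h1 : ∀ n ∈ Icc 1 y, ‖(LU U n) • ev S η n‖ ≤ (if n ≤ U then 1 else 0) * Real.sqrt q := by
    intro n hn
    rw [mem_Icc] at hn
    unfold LU
    rw [AF_apply _ (by omega), norm_smul]
    split_ifs
    · exact mul_le_mul (liR_norm n) (ev_le S η _) (norm_nonneg _) zero_le_one
    · rw [norm_zero, zero_mul, zero_mul]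
  refine (norm_sum_le _ _).trans ((sum_le_sum h1).trans ?_)
  rw [← sum_mul]
  apply mul_le_mul_of_nonneg_right _ (Real.sqrt_nonneg _)
  rw [← sum_filter, sum_const, nsmul_eq_mul, mul_one]
  have h4 : ((Icc 1 y).filter (fun m => m ≤ U)).card ≤ (Icc 1 U).card := by
    apply card_le_card
    intro m hm
    rw [mem_filter, mem_Icc] at hm
    rw [mem_Icc]
    exact ⟨hm.1.1, hm.2⟩
  rw [Nat.card_Icc, Nat.add_sub_cancel] at h4
  exact_mod_cast h4

/-- the sums of type I -/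
lemma t3_le (hT : TiMaj2Stm) {q : ℕ} [NeZero q] (S : Finset (DirichletCharacter ℂ q))
    (hS : (1 : DirichletCharacter ℂ q) ∉ S) {η P : ℝ} {U N y : ℕ} (hy : y ≤ N) (hη : |η| ≤ P / N) (hN : 1 ≤ N)
    (hP : 1 ≤ P) :
    ‖∑ m ∈ Icc 1 y, ∑ k ∈ Icc 1 (y / m), ((LU U * MU U) m * ZT k) • ev S η (m * k)‖ ≤
      (U : ℝ) ^ 4 * (16 * q * P) := by
  have hN0 : (0 : ℝ) < N := by exact_mod_cast hN
  have h1 : ∀ m ∈ Icc 1 y, ‖∑ k ∈ Icc 1 (y / m), ((LU U * MU U) m * ZT k) • ev S η (m * k)‖ ≤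
      (if m ≤ U * U then 1 else 0) * ((U : ℝ) ^ 2 * (16 * q * P)) := by
    intro m hm
    rw [mem_Icc] at hm
    have hm0 : m ≠ 0 := by omega
    have e1 : ∑ k ∈ Icc 1 (y / m), ((LU U * MU U) m * ZT k) • ev S η (m * k) =
        (LU U * MU U) m • ∑ k ∈ Icc 1 (y / m), ev S η (k * m) := by
      rw [smul_sum]
      refine sum_congr rfl fun k hk => ?_
      rw [mem_Icc] at hk
      have : ZT k = 1 := by
        unfold ZT
        rw [ArithmeticFunction.natCoe_apply, ArithmeticFunction.zeta_apply_ne (by omega), Nat.cast_one]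
      rw [this, mul_one, mul_comm m k]
    rw [e1, norm_smul]
    split_ifs with hU
    · rw [one_mul]
      have e2 := hT q S hS η m (y / m)
      have e3 : |η| * ((m : ℝ) * ((y / m : ℕ) : ℝ)) ≤ P := by
        have e4 : (m : ℝ) * ((y / m : ℕ) : ℝ) ≤ N := by
          have : m * (y / m) ≤ N := (Nat.mul_div_le y m).trans hy
          exact_mod_cast this
        calc |η| * ((m : ℝ) * ((y / m : ℕ) : ℝ)) ≤ (P / N) * N := by gcongr
          _ = P := by field_simp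
      have e5 : 2 * (q : ℝ) * (1 + 7 * |η| * ((m : ℝ) * ((y / m : ℕ) : ℝ))) ≤ 16 * q * P := by
        have hq0 : (0 : ℝ) ≤ q := Nat.cast_nonneg _
        have : 1 + 7 * |η| * ((m : ℝ) * ((y / m : ℕ) : ℝ)) ≤ 8 * P := by
          have : 7 * |η| * ((m : ℝ) * ((y / m : ℕ) : ℝ)) = 7 * (|η| * ((m : ℝ) * ((y / m : ℕ) : ℝ))) := by ring
          rw [this]
          linarith
        calc _ ≤ 2 * (q : ℝ) * (8 * P) := by gcongr
          _ = _ := by ring
      have e6 : ‖(LU U * MU U) m‖ ≤ (U : ℝ) ^ 2 := by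
        refine (LM_bd U m).trans ?_
        have h5 : m.divisors.card ≤ U * U := (Nat.card_divisors_le_self m).trans hU
        calc (m.divisors.card : ℝ) ≤ ((U * U : ℕ) : ℝ) := by exact_mod_cast h5
          _ = _ := by push_cast; ring
      exact mul_le_mul e6 (e2.trans e5) (norm_nonneg _) (by positivity)
    · rw [LM_zero (by omega), norm_zero, zero_mul, zero_mul]
  refine (norm_sum_le _ _).trans ((sum_le_sum h1).trans ?_)
  rw [← sum_mul]
  have h4 : ((Icc 1 y).filter (fun m => m ≤ U * U)).card ≤ (Icc 1 (U * U)).card := by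
    apply card_le_card
    intro m hm
    rw [mem_filter, mem_Icc] at hm
    rw [mem_Icc]
    exact ⟨hm.1.1, hm.2⟩
  rw [Nat.card_Icc, Nat.add_sub_cancel] at h4
  have h5 : ∑ m ∈ Icc 1 y, (if m ≤ U * U then (1 : ℝ) else 0) ≤ (U : ℝ) ^ 2 := by
    rw [← sum_filter, sum_const, nsmul_eq_mul, mul_one]
    calc ((((Icc 1 y).filter (fun m => m ≤ U * U)).card : ℕ) : ℝ) ≤ ((U * U : ℕ) : ℝ) := by exact_mod_cast h4
      _ = _ := by push_cast; ring
  calc _ ≤ (U : ℝ) ^ 2 * ((U : ℝ) ^ 2 * (16 * q * P)) := by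
        apply mul_le_mul_of_nonneg_right h5
        positivity
    _ = _ := by ring

lemma five_sq {V : Type*} [NormedAddCommGroup V] (a b c d e : V) {X : ℝ} (ha : ‖a‖ ^ 2 ≤ X) (hb : ‖b‖ ^ 2 ≤ X)
    (hc : ‖c‖ ^ 2 ≤ X) (hd : ‖d‖ ^ 2 ≤ X) (he : ‖e‖ ^ 2 ≤ X) : ‖a + b - c + d + e‖ ^ 2 ≤ 25 * X := by
  have h1 : ‖a + b - c + d + e‖ ≤ ‖a‖ + ‖b‖ + ‖c‖ + ‖d‖ + ‖e‖ := by
    calc ‖a + b - c + d + e‖ ≤ ‖a + b - c + d‖ + ‖e‖ := norm_add_le _ _
      _ ≤ ‖a + b - c‖ + ‖d‖ + ‖e‖ := by gcongr; exact norm_add_le _ _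
      _ ≤ ‖a + b‖ + ‖c‖ + ‖d‖ + ‖e‖ := by gcongr; exact norm_sub_le _ _
      _ ≤ _ := by gcongr; exact norm_add_le _ _
  have h2 : (‖a‖ + ‖b‖ + ‖c‖ + ‖d‖ + ‖e‖) ^ 2 ≤ 5 * (‖a‖ ^ 2 + ‖b‖ ^ 2 + ‖c‖ ^ 2 + ‖d‖ ^ 2 + ‖e‖ ^ 2) := by
    nlinarith [sq_nonneg (‖a‖ - ‖b‖), sq_nonneg (‖a‖ - ‖c‖), sq_nonneg (‖a‖ - ‖d‖), sq_nonneg (‖a‖ - ‖e‖),
      sq_nonneg (‖b‖ - ‖c‖), sq_nonneg (‖b‖ - ‖d‖), sq_nonneg (‖b‖ - ‖e‖), sq_nonneg (‖c‖ - ‖d‖),
      sq_nonneg (‖c‖ - ‖e‖), sq_nonneg (‖d‖ - ‖e‖)]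
  have h3 := pow_le_pow_left₀ (norm_nonneg _) h1 2
  linarith

open Classical in
/-- the Liouville function on the major arcs -/
theorem mLi (hB : BilMaj3Stm) (hT : TiMaj2Stm) (A C : ℕ) : ∃ C₃ N₀ : ℕ, ∀ N : ℕ, N₀ ≤ N →
    MajAt N (1 / 5) A C C₃ liR := by
  obtain ⟨A', hA'⟩ : ∃ A', A' = A + 1 := ⟨_, rfl⟩
  obtain ⟨C', N₁, hB'⟩ := hB A' C 10 (1 / 2) (1 / 20) (1 / 2) (by norm_num) (by norm_num) (by norm_num)
    (by norm_num) (by norm_num) (by norm_num)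
  obtain ⟨N₂, hN₂⟩ := Filter.eventually_atTop.1 (ev_log (2 * C + A' + 1) (s := 2 / 5) (by norm_num) 256)
  refine ⟨C' + 2, N₁ + N₂ + 1, fun N hN q _ hq => ?_⟩
  have hN1 : 1 ≤ N := by omega
  obtain ⟨hLb, hLp⟩ := hN₂ N (by omega)
  have hN0 : (0 : ℝ) < N := by exact_mod_cast hN1
  have hNr1 : (1 : ℝ) ≤ N := by exact_mod_cast hN1
  have hq' : (q : ℝ) ≤ (N : ℝ) ^ (1 / 2 : ℝ) := by
    have e : (7 / 10 - 1 / 5 : ℝ) = 1 / 2 := by norm_num
    rw [e] at hq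
    exact hq
  obtain ⟨U, hU⟩ : ∃ U, U = ⌊(N : ℝ) ^ (1 / 20 : ℝ)⌋₊ := ⟨_, rfl⟩
  obtain ⟨R, hR⟩ : ∃ R, R = Nat.sqrt N := ⟨_, rfl⟩
  have hUr : (U : ℝ) ≤ (N : ℝ) ^ (1 / 20 : ℝ) := by rw [hU]; exact Nat.floor_le (by positivity)
  have hUr' : (N : ℝ) ^ (1 / 20 : ℝ) < U + 1 := by rw [hU]; exact Nat.lt_floor_add_one _
  have hRr : (R : ℝ) ≤ (N : ℝ) ^ (1 / 2 : ℝ) := by
    rw [← Real.sqrt_eq_rpow, hR]
    exact Real.nat_sqrt_le_real_sqrt
  have hUR : U ≤ R := by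
    rw [hR, Nat.le_sqrt]
    have : ((U * U : ℕ) : ℝ) ≤ N := by
      push_cast
      calc (U : ℝ) * U ≤ (N : ℝ) ^ (1 / 20 : ℝ) * (N : ℝ) ^ (1 / 20 : ℝ) := by gcongr
        _ = (N : ℝ) ^ (1 / 10 : ℝ) := by
            rw [← Real.rpow_add hN0]
            norm_num
        _ ≤ (N : ℝ) ^ (1 : ℝ) := Real.rpow_le_rpow_of_exponent_le hNr1 (by norm_num)
        _ = N := Real.rpow_one _
    exact_mod_cast this
  have hNR : N < (R + 1) ^ 2 := by
    rw [hR, pow_two]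
    exact Nat.lt_succ_sqrt N
  have hsupp : ∀ m : ℕ, U < m ∧ m ≤ R → (N : ℝ) ^ (1 / 20 : ℝ) ≤ 2 * m ∧ (m : ℝ) ≤ (N : ℝ) ^ (1 / 2 : ℝ) := by
    intro m hm
    have h1 : (U : ℝ) + 1 ≤ m := by exact_mod_cast hm.1
    have h2 : (m : ℝ) ≤ R := by exact_mod_cast hm.2
    have h3 : (0 : ℝ) ≤ m := Nat.cast_nonneg _
    constructor <;> linarith
  have hL2 : 2 ≤ Real.log N := by linarith
  have hgb : ∀ m ∈ Icc 1 N, ‖G1 U R m‖ ≤ Real.log N * (m.divisors.card : ℝ) := by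
    intro m hm
    rw [mem_Icc] at hm
    have := G1_bd U R (n := m) (by omega)
    have h3 : (0 : ℝ) ≤ (m.divisors.card : ℝ) := Nat.cast_nonneg _
    nlinarith
  have hGb : ∀ m ∈ Icc 1 N, ‖GU U m‖ ≤ Real.log N * (m.divisors.card : ℝ) := by
    intro m hm
    rw [mem_Icc] at hm
    have := GU_bd U (n := m) (by omega)
    have h3 : (0 : ℝ) ≤ (m.divisors.card : ℝ) := Nat.cast_nonneg _
    nlinarith
  obtain ⟨B1, hB1c, hB1⟩ := hB' N (by omega) q hq' (fun m => A1 U R m)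
    (fun m hm => one_le_bd (by linarith) hm (A1_bd _ _ _)) (fun m hm => hsupp m (A1_supp hm))
  obtain ⟨B2, hB2c, hB2⟩ := hB' N (by omega) q hq' (fun m => G1 U R m) hgb (fun m hm => hsupp m (G1_supp hm))
  refine ⟨insert 1 (B1 ∪ B2), mem_insert_self _ _, ?_, ?_⟩
  · have e1 : (insert 1 (B1 ∪ B2)).card ≤ B1.card + B2.card + 1 :=
      (card_insert_le _ _).trans (Nat.add_le_add_right (card_union_le _ _) 1)
    have e2 : ((insert 1 (B1 ∪ B2)).card : ℝ) ≤ B1.card + B2.card + 1 := by exact_mod_cast e1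
    have hL1 : 1 ≤ Real.log N := by linarith
    have e3 : 1 ≤ Real.log N ^ C' := one_le_pow₀ hL1
    calc ((insert 1 (B1 ∪ B2)).card : ℝ) ≤ 3 * Real.log N ^ C' := by linarith
      _ ≤ Real.log N ^ 2 * Real.log N ^ C' := by
          apply mul_le_mul_of_nonneg_right _ (by positivity)
          nlinarith
      _ = _ := by ring
  · intro η hη y hy S hS
    have hS1 : (1 : DirichletCharacter ℂ q) ∉ S := fun h => disjoint_left.1 hS h (mem_insert_self _ _)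
    have hSB1 : Disjoint S B1 := by
      refine Disjoint.mono_right (fun χ hχ => ?_) hS
      rw [mem_insert, mem_union]
      exact Or.inr (Or.inl hχ)
    have hSB2 : Disjoint S B2 := by
      refine Disjoint.mono_right (fun χ hχ => ?_) hS
      rw [mem_insert, mem_union]
      exact Or.inr (Or.inr hχ)
    have k1 := hB1 (fun m => GU U m) hGb η hη y hy S hSB1
    have k2 := hB2 (fun m => A2 R m) (fun m hm => one_le_bd (by linarith) hm (A2_bd _ _)) η hη y hy S hSB2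
    have hvec : ∑ χ ∈ S, ‖cs q y liR η χ‖ ^ 2 = ‖∑ n ∈ Icc 1 y, (AF liR n) • ev S η n‖ ^ 2 := by
      have e1 : ∑ n ∈ Icc 1 y, (AF liR n) • ev S η n = ∑ n ∈ Icc 1 y, (liR n) • ev S η n := by
        refine sum_congr rfl fun n hn => ?_
        rw [mem_Icc] at hn
        rw [AF_apply _ (by omega)]
      rw [e1, norm_ev1 S η (Icc 1 y) liR (fun n => n)]
      refine sum_congr rfl fun χ _ => ?_
      unfold cs
      congr 2
      exact sum_congr rfl fun n _ => by ring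
    have hid : ∑ n ∈ Icc 1 y, (AF liR n) • ev S η n =
        ∑ m ∈ Icc 1 y, ∑ k ∈ Icc 1 (y / m), (MU U m * SQ k) • ev S η (m * k) +
        ∑ n ∈ Icc 1 y, (LU U n) • ev S η n -
        ∑ m ∈ Icc 1 y, ∑ k ∈ Icc 1 (y / m), ((LU U * MU U) m * ZT k) • ev S η (m * k) +
        ∑ m ∈ Icc 1 y, ∑ k ∈ Icc 1 (y / m), (A1 U R m * GU U k) • ev S η (m * k) +
        ∑ m ∈ Icc 1 y, ∑ k ∈ Icc 1 (y / m), (G1 U R m * A2 R k) • ev S η (m * k) := by
      rw [← conv_sum, ← conv_sum, ← conv_sum, ← conv_sum, ← sum_add_distrib, ← sum_sub_distrib, ← sum_add_distrib,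
        ← sum_add_distrib]
      refine sum_congr rfl fun n hn => ?_
      rw [mem_Icc] at hn
      rw [← add_smul, ← sub_smul, ← add_smul, ← add_smul]
      congr 1
      have e1 : AF liR n = (MU U * SQ + LU U - (LU U * MU U) * ZT + A1 U R * GU U + G1 U R * A2 R +
          A2 R * G2 U R) n := by rw [← main_id hUR]
      rw [e1]
      simp only [ArithmeticFunction.add_apply, sub_ap]
      rw [A2G2_zero (by omega), add_zero]
    obtain ⟨L, hLd⟩ : ∃ L, L = Real.log (N : ℝ) := ⟨_, rfl⟩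
    rw [← hLd] at hLb hLp k1 k2 hη ⊢
    have hL0 : 0 < L := by linarith
    have hL1 : 1 ≤ L := by linarith
    have hs0 : Real.sqrt q ^ 2 = q := Real.sq_sqrt (Nat.cast_nonneg _)
    have hsN : Real.sqrt N ^ 2 = N := Real.sq_sqrt hN0.le
    have hUk : ∀ k : ℕ, (U : ℝ) ^ k ≤ (N : ℝ) ^ ((k : ℝ) / 20) := by
      intro k
      calc (U : ℝ) ^ k ≤ ((N : ℝ) ^ (1 / 20 : ℝ)) ^ k := pow_le_pow_left₀ (Nat.cast_nonneg _) hUr k
        _ = _ := by
            rw [← Real.rpow_natCast, ← Real.rpow_mul hN0.le]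
            congr 1
            ring
    have hLA : L ^ A' ≤ (N : ℝ) ^ (2 / 5 : ℝ) := (pow_le_pow_right₀ hL1 (by omega)).trans hLp
    have q1 : ‖∑ m ∈ Icc 1 y, ∑ k ∈ Icc 1 (y / m), (MU U m * SQ k) • ev S η (m * k)‖ ^ 2 ≤ (N : ℝ) ^ 2 / L ^ A' := by
      rw [le_div_iff₀ (by positivity)]
      have e1 := pow_le_pow_left₀ (norm_nonneg _) (t1_le S η (U := U) hy) 2
      calc _ ≤ (U * (Real.sqrt N * Real.sqrt q)) ^ 2 * L ^ A' := by gcongr
        _ = (U : ℝ) ^ 2 * (N * q) * L ^ A' := by rw [mul_pow, mul_pow, hs0, hsN]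
        _ ≤ (N : ℝ) ^ (((2 : ℕ) : ℝ) / 20) * (N * (N : ℝ) ^ (1 / 2 : ℝ)) * (N : ℝ) ^ (2 / 5 : ℝ) := by
            gcongr
            exact hUk 2
        _ = (N : ℝ) ^ 2 := by
            have : (N : ℝ) * (N : ℝ) ^ (1 / 2 : ℝ) = (N : ℝ) ^ (3 / 2 : ℝ) := by
              rw [show (3 / 2 : ℝ) = 1 + 1 / 2 by norm_num, Real.rpow_add hN0, Real.rpow_one]
            rw [this, ← Real.rpow_add hN0, ← Real.rpow_add hN0, ← Real.rpow_natCast]
            congr 1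
            norm_num
    have q2 : ‖∑ n ∈ Icc 1 y, (LU U n) • ev S η n‖ ^ 2 ≤ (N : ℝ) ^ 2 / L ^ A' := by
      rw [le_div_iff₀ (by positivity)]
      have e1 := pow_le_pow_left₀ (norm_nonneg _) (t2_le S η (U := U) (y := y)) 2
      calc _ ≤ (U * Real.sqrt q) ^ 2 * L ^ A' := by gcongr
        _ = (U : ℝ) ^ 2 * q * L ^ A' := by rw [mul_pow, hs0]
        _ ≤ (N : ℝ) ^ (((2 : ℕ) : ℝ) / 20) * (N : ℝ) ^ (1 / 2 : ℝ) * (N : ℝ) ^ (2 / 5 : ℝ) := by
            gcongr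
            exact hUk 2
        _ = (N : ℝ) ^ (1 : ℝ) := by
            rw [← Real.rpow_add hN0, ← Real.rpow_add hN0]
            congr 1
            norm_num
        _ ≤ (N : ℝ) ^ (2 : ℝ) := Real.rpow_le_rpow_of_exponent_le hNr1 (by norm_num)
        _ = (N : ℝ) ^ 2 := by
            rw [← Real.rpow_natCast]
            norm_num
    have q3 : ‖∑ m ∈ Icc 1 y, ∑ k ∈ Icc 1 (y / m), ((LU U * MU U) m * ZT k) • ev S η (m * k)‖ ^ 2 ≤
        (N : ℝ) ^ 2 / L ^ A' := by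
      rw [le_div_iff₀ (by positivity)]
      have e1 := pow_le_pow_left₀ (norm_nonneg _) (t3_le hT S hS1 (U := U) hy hη hN1 (one_le_pow₀ hL1)) 2
      calc _ ≤ ((U : ℝ) ^ 4 * (16 * q * L ^ C)) ^ 2 * L ^ A' := by gcongr
        _ = (U : ℝ) ^ 8 * (q : ℝ) ^ 2 * (256 * L ^ (2 * C + A')) := by
            rw [pow_add L (2 * C) A', mul_comm 2 C, pow_mul]
            ring
        _ ≤ (N : ℝ) ^ (((8 : ℕ) : ℝ) / 20) * ((N : ℝ) ^ (1 / 2 : ℝ)) ^ 2 * (L * L ^ (2 * C + A')) := by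
            gcongr
            exact hUk 8
        _ = (N : ℝ) ^ (((8 : ℕ) : ℝ) / 20) * ((N : ℝ) ^ (1 / 2 : ℝ)) ^ 2 * L ^ (2 * C + A' + 1) := by ring
        _ ≤ (N : ℝ) ^ (((8 : ℕ) : ℝ) / 20) * ((N : ℝ) ^ (1 / 2 : ℝ)) ^ 2 * (N : ℝ) ^ (2 / 5 : ℝ) := by
            gcongr
        _ = (N : ℝ) ^ (9 / 5 : ℝ) := by
            rw [← Real.rpow_natCast ((N : ℝ) ^ (1 / 2 : ℝ)) 2, ← Real.rpow_mul hN0.le, ← Real.rpow_add hN0,
              ← Real.rpow_add hN0]
            congr 1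
            norm_num
        _ ≤ (N : ℝ) ^ (2 : ℝ) := Real.rpow_le_rpow_of_exponent_le hNr1 (by norm_num)
        _ = (N : ℝ) ^ 2 := by
            rw [← Real.rpow_natCast]
            norm_num
    rw [hvec, hid]
    refine (five_sq _ _ _ _ _ q1 q2 q3 k1 k2).trans ?_
    rw [hA', pow_succ]
    calc 25 * ((N : ℝ) ^ 2 / (L ^ A * L)) = (N : ℝ) ^ 2 / L ^ A * (25 / L) := by field_simp
      _ ≤ (N : ℝ) ^ 2 / L ^ A * 1 := by
          apply mul_le_mul_of_nonneg_left _ (by positivity)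
          rw [div_le_one hL0]
          linarith
      _ = _ := mul_one _

end Pool.Agent.R460.SL
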