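import Pool.Agent.R460.SB.Cnt
import Pool.Agent.R460.SB.Core

set_option autoImplicit false

/-! The number of the solutions of a quadratic congruence. Adapted from `R460/SB/Cnt`. -/

namespace Pool.Agent.R460.SL

open Finset
open Pool.Agent.R460.SQ (card_lin gcd_mul_val sum_gcd sol_sq)
open Pool.Agent.R460.SB
open Pool.Agent.Y614.GJ.Core (q_le_phi)

variable {q : ℕ} [NeZero q]

lemma rt_unit (α : ℤ) (g a t : ZMod q) (u : (ZMod q)ˣ) :
    rt α ((u : ZMod q) * g + 2 * (α : ZMod q) * t)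
      ((u : ZMod q) ^ 2 * a - (α : ZMod q) * t ^ 2 - (u : ZMod q) * g * t) = rt α g a := by
  unfold rt
  rw [card_eq_sum_ones, card_eq_sum_ones, sum_filter, sum_filter]
  symm
  refine Fintype.sum_equiv ((Units.mulLeft u).trans (Equiv.subRight t)) _ _ fun k => ?_
  simp only [Equiv.trans_apply, Units.mulLeft_apply, Equiv.subRight_apply]
  have h1 : (α : ZMod q) * k ^ 2 + g * k = a ↔
      (α : ZMod q) * ((u : ZMod q) * k - t) ^ 2 + ((u : ZMod q) * g + 2 * (α : ZMod q) * t) * ((u : ZMod q) * k - t) =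
        (u : ZMod q) ^ 2 * a - (α : ZMod q) * t ^ 2 - (u : ZMod q) * g * t := by
    constructor
    · intro h
      rw [← h]
      ring
    · intro h
      have h2 : (u : ZMod q) * ((u : ZMod q) * ((α : ZMod q) * k ^ 2 + g * k)) = (u : ZMod q) * ((u : ZMod q) * a) := by
        linear_combination h
      exact u.isUnit.mul_left_cancel (u.isUnit.mul_left_cancel h2)
  simp only [h1]

/-- the bound for one class -/
lemma rt_phi {α : ℤ} (hα : α ≠ 0) (g : ZMod q) (a : ZMod q) :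
    (q.totient : ℝ) * (rt α g a : ℝ) ^ 2 ≤ (2 * |(α : ℝ)|) *
      ((2 * Nat.gcd (4 * (α : ZMod q) * a + g ^ 2).val q * q.divisors.card) *
      (2 * |(α : ℝ)| * (q.divisors.card * q))) := by
  classical
  choose r t hr ht using fun u : (ZMod q)ˣ => red_lin hα ((u : ZMod q) * g)
  obtain ⟨b, hb⟩ : ∃ b : (ZMod q)ˣ → ZMod q, b = fun u : (ZMod q)ˣ => (u : ZMod q) ^ 2 * a - (α : ZMod q) * t u ^ 2 -
    (u : ZMod q) * g * t u := ⟨_, rfl⟩
  have hu : ∀ u : (ZMod q)ˣ, rt α ((r u : ℕ) : ZMod q) (b u) = rt α g a := by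
    intro u
    rw [← rt_unit α g a (t u) u, ht u, hb]
  obtain ⟨D, hD⟩ : ∃ D : ZMod q, D = 4 * (α : ZMod q) * a + g ^ 2 := ⟨_, rfl⟩
  rw [← hD]
  have hdisc : ∀ u : (ZMod q)ˣ, (u : ZMod q) ^ 2 * D = 4 * (α : ZMod q) * b u + ((r u : ℕ) : ZMod q) ^ 2 := by
    intro u
    rw [← ht u, hb, hD]
    ring
  have hnat : ((2 * α.natAbs : ℕ) : ℝ) = 2 * |(α : ℝ)| := by
    push_cast
    rw [Nat.cast_natAbs, Int.cast_abs]
  have hmean : ∀ s : ZMod q, ∑ c : ZMod q, (rt α s c : ℝ) ^ 2 ≤ 2 * |(α : ℝ)| * (q.divisors.card * q) := by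
    intro s
    have h5 : ((∑ l : ZMod q, rt α s l ^ 2 : ℕ) : ℝ) ≤ ((2 * α.natAbs * (q.divisors.card * q) : ℕ) : ℝ) := by
      exact_mod_cast sum_rt_sq hα s
    push_cast at h5
    rw [Nat.cast_natAbs, Int.cast_abs] at h5
    exact h5
  calc (q.totient : ℝ) * (rt α g a : ℝ) ^ 2 = ∑ u : (ZMod q)ˣ, (rt α ((r u : ℕ) : ZMod q) (b u) : ℝ) ^ 2 := by
        simp_rw [hu]
        rw [Finset.sum_const, nsmul_eq_mul, Finset.card_univ, ZMod.card_units_eq_totient]
    _ = ∑ p ∈ range (2 * α.natAbs) ×ˢ (univ : Finset (ZMod q)),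
          ∑ u ∈ univ.filter (fun u : (ZMod q)ˣ => (r u, b u) = p),
          (rt α ((r u : ℕ) : ZMod q) (b u) : ℝ) ^ 2 := by
        rw [Finset.sum_fiberwise_of_maps_to]
        intro u _
        rw [mem_product, mem_range]
        exact ⟨hr u, mem_univ _⟩
    _ ≤ ∑ p ∈ range (2 * α.natAbs) ×ˢ (univ : Finset (ZMod q)),
          (2 * Nat.gcd D.val q * q.divisors.card : ℝ) * (rt α ((p.1 : ℕ) : ZMod q) p.2 : ℝ) ^ 2 := by
        refine sum_le_sum fun p _ => ?_
        have e1 : ∑ u ∈ univ.filter (fun u : (ZMod q)ˣ => (r u, b u) = p),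
            (rt α ((r u : ℕ) : ZMod q) (b u) : ℝ) ^ 2 =
            ((univ.filter (fun u : (ZMod q)ˣ => (r u, b u) = p)).card : ℝ) *
              (rt α ((p.1 : ℕ) : ZMod q) p.2 : ℝ) ^ 2 := by
          rw [← nsmul_eq_mul, ← sum_const]
          refine sum_congr rfl fun u hu => ?_
          have h1 := (mem_filter.1 hu).2
          rw [← h1]
        rw [e1]
        apply mul_le_mul_of_nonneg_right _ (sq_nonneg _)
        have h2 : (univ.filter (fun u : (ZMod q)ˣ => (r u, b u) = p)) ⊆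
            univ.filter (fun u : (ZMod q)ˣ => (u : ZMod q) ^ 2 * D = 4 * (α : ZMod q) * p.2 + ((p.1 : ℕ) : ZMod q) ^ 2) := by
          intro u hu
          rw [mem_filter] at hu ⊢
          refine ⟨mem_univ _, ?_⟩
          rw [← hu.2]
          exact hdisc u
        have h3 := (card_le_card h2).trans (sol_sq D (4 * (α : ZMod q) * p.2 + ((p.1 : ℕ) : ZMod q) ^ 2))
        exact_mod_cast h3
    _ = (2 * Nat.gcd D.val q * q.divisors.card : ℝ) * ∑ s ∈ range (2 * α.natAbs),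
          ∑ c : ZMod q, (rt α ((s : ℕ) : ZMod q) c : ℝ) ^ 2 := by
        rw [sum_product, mul_sum]
        refine sum_congr rfl fun s _ => ?_
        rw [mul_sum]
    _ ≤ (2 * Nat.gcd D.val q * q.divisors.card : ℝ) * ∑ _s ∈ range (2 * α.natAbs),
          (2 * |(α : ℝ)| * (q.divisors.card * q)) := by
        apply mul_le_mul_of_nonneg_left _ (by positivity)
        exact sum_le_sum fun s _ => hmean _
    _ = _ := by
        rw [sum_const, card_range, nsmul_eq_mul, hnat]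
        ring

/-- the number of solutions of a quadratic congruence -/
lemma rt_le {N T w : ℕ} {α : ℤ} (hα : α ≠ 0) {L : ℝ} (hL : L = Real.log N) (hL1 : 1 ≤ L) (hqN : (q : ℝ) ≤ N)
    (hLα : 24 * (α : ℝ) ^ 2 ≤ L ^ w) (hτ : (q.divisors.card : ℝ) ≤ L ^ T) (g a : ZMod q)
    (ha : (Nat.gcd (4 * (α : ZMod q) * a + g ^ 2).val q : ℝ) ≤ L ^ T) : (rt α g a : ℝ) ≤ L ^ (3 * T + 1 + w) := by
  have hL0 : 0 < L := by linarith
  have hq0 : (0 : ℝ) < q := by exact_mod_cast NeZero.pos q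
  have hφ0 : (0 : ℝ) < q.totient := by exact_mod_cast Nat.totient_pos.2 (NeZero.pos q)
  have hlq : Real.log q ≤ L := by
    rw [hL]
    exact Real.log_le_log hq0 hqN
  have e2 : (q : ℝ) ≤ 3 * L * q.totient := by
    have h1 := q_le_phi (NeZero.pos q)
    calc (q : ℝ) ≤ q.totient * (1 + 2 * Real.log q) := by
          refine h1.trans (le_of_eq ?_)
          ring
      _ ≤ q.totient * (3 * L) := by
          apply mul_le_mul_of_nonneg_left _ hφ0.le
          linarith
      _ = _ := by ring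
  have h1 := rt_phi hα g a
  have h2 : (q.totient : ℝ) * (rt α g a : ℝ) ^ 2 ≤ q.totient * L ^ (3 * T + 1 + w) := by
    refine h1.trans ?_
    calc (2 * |(α : ℝ)|) * ((2 * (Nat.gcd (4 * (α : ZMod q) * a + g ^ 2).val q : ℝ) * q.divisors.card) *
          (2 * |(α : ℝ)| * (q.divisors.card * q)))
        ≤ (2 * |(α : ℝ)|) * ((2 * L ^ T * L ^ T) * (2 * |(α : ℝ)| * (L ^ T * (3 * L * q.totient)))) := by gcongr
      _ = (24 * |(α : ℝ)| ^ 2) * (q.totient * (L ^ (3 * T) * L)) := by ring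
      _ ≤ L ^ w * (q.totient * (L ^ (3 * T) * L)) := by
          apply mul_le_mul_of_nonneg_right _ (by positivity)
          rw [sq_abs]
          exact hLα
      _ = _ := by ring
  have h3 := le_of_mul_le_mul_left h2 hφ0
  have h4 : (rt α g a : ℝ) ≤ (rt α g a : ℝ) ^ 2 := by
    have : rt α g a ≤ rt α g a ^ 2 := Nat.le_self_pow two_ne_zero _
    exact_mod_cast this
  exact h4.trans h3

end Pool.Agent.R460.SL
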