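import Pool.Agent.R460.SB.Per
import Pool.Agent.R460.SB.Maj

set_option autoImplicit false

/-! Incomplete sums of a character over the values of a quadratic polynomial with small coefficients, and the
pointwise estimate on the major arcs. Adapted from `R460/SB/Per` and `R460/SB/Maj`. -/

namespace Pool.Agent.R460.SL

open Finset
open Pool.Agent.H807R2.Dav (ee norm_ee ee_add dd dd_le)
open Pool.Agent.Y614.GJ.Core (q_le_phi)
open Pool.Agent.Y883.GJ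
open Pool.Agent.R460.SQ (good_mean)
open Pool.Agent.R460.SB

/-- the twisted incomplete sum, large conductor -/
lemma shqL {q N : ℕ} [NeZero q] {α γ : ℤ} (hα : α ≠ 0) {B C T w : ℕ} {L : ℝ} (hL : L = Real.log N)
    (hw : 96 * kap α γ ^ 2 ≤ L ^ w) (hL8 : 8 ≤ L) (hN : 1 ≤ N)
    (hqN : (q : ℝ) ≤ N) (hq : (q : ℝ) * L ^ (B + C + w + 1) ≤ Real.sqrt N) (hτ : (q.divisors.card : ℝ) ≤ L ^ T)
    (χ : DirichletCharacter ℂ q) (hχ : L ^ (3 * T + 3 + w + 2 * (B + C + w + 1)) < χ.conductor) (a : ZMod q)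
    (ha : (Nat.gcd (4 * (α : ZMod q) * a + (γ : ZMod q) ^ 2).val q : ℝ) ≤ L ^ T) (η : ℝ) (hη : |η| ≤ L ^ C / N)
    (y : ℕ) (hy : y ^ 2 ≤ N) :
    ‖∑ m ∈ Icc 1 y, ee (((α : ℝ) * (m : ℝ) ^ 2 + (γ : ℝ) * (m : ℝ)) * η) *
      χ (a - ((α : ZMod q) * (m : ZMod q) ^ 2 + (γ : ZMod q) * (m : ZMod q)))‖ ≤ Real.sqrt N / L ^ B := by
  obtain ⟨hα1, hακ, hκ1⟩ := kap_ge hα γ
  obtain ⟨κ, hκ⟩ : ∃ κ, κ = kap α γ := ⟨_, rfl⟩
  rw [← hκ] at hακ hκ1 hw
  have hL0 : 0 < L := by linarith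
  have hL1 : 1 ≤ L := by linarith
  have hN0 : (0 : ℝ) < N := by exact_mod_cast hN
  have hq0 : (0 : ℝ) < q := by exact_mod_cast NeZero.pos q
  have hc0 : (0 : ℝ) < χ.conductor := lt_of_le_of_lt (by positivity) hχ
  have hφ0 : (0 : ℝ) < q.totient := by exact_mod_cast Nat.totient_pos.2 (NeZero.pos q)
  have hlq : Real.log q ≤ L := by
    rw [hL]
    exact Real.log_le_log hq0 hqN
  have hlq0 : 0 ≤ Real.log q := Real.log_natCast_nonneg _
  obtain ⟨B', hB'⟩ : ∃ B', B' = B + C + w + 1 := ⟨_, rfl⟩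
  rw [← hB'] at hq hχ
  -- the complete sum
  have h1 : ‖Sq α (γ : ZMod q) χ a‖ ≤ q / L ^ B' := by
    have e1 := Sq_le hα (γ : ZMod q) χ a
    have e2 : (q : ℝ) ≤ 3 * L * q.totient := by
      have h1 := q_le_phi (NeZero.pos q)
      calc (q : ℝ) ≤ q.totient * (1 + 2 * Real.log q) := by
            refine h1.trans (le_of_eq ?_)
            ring
        _ ≤ q.totient * (3 * L) := by
            apply mul_le_mul_of_nonneg_left _ hφ0.le
            linarith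
        _ = _ := by ring
    have e3 : (q / Real.sqrt χ.conductor * (1 + Real.log q)) ^ 2 = q ^ 2 * (1 + Real.log q) ^ 2 / χ.conductor := by
      rw [mul_pow, div_pow, Real.sq_sqrt hc0.le]
      ring
    rw [e3] at e1
    have e4 : (q.totient : ℝ) * ‖Sq α (γ : ZMod q) χ a‖ ^ 2 ≤ q.totient * (q / L ^ B') ^ 2 := by
      refine e1.trans ?_
      calc 2 * |(α : ℝ)| * ((2 * (Nat.gcd (4 * (α : ZMod q) * a + (γ : ZMod q) ^ 2).val q : ℝ) * q.divisors.card) *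
            (q ^ 2 * (1 + Real.log q) ^ 2 / χ.conductor * (2 * |(α : ℝ)| * (q.divisors.card * q))))
          ≤ 2 * κ * ((2 * L ^ T * L ^ T) * (q ^ 2 * (2 * L) ^ 2 / L ^ (3 * T + 3 + w + 2 * B') *
            (2 * κ * (L ^ T * (3 * L * q.totient))))) := by
            gcongr
            linarith
        _ = q.totient * (q / L ^ B') ^ 2 * (96 * κ ^ 2) / L ^ w := by
            have : L ^ (3 * T + 3 + w + 2 * B') = L ^ T * L ^ T * L ^ T * L ^ 3 * L ^ w * (L ^ B') ^ 2 := by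
              rw [← pow_mul]
              ring
            rw [this]
            field_simp
            ring
        _ ≤ q.totient * (q / L ^ B') ^ 2 * L ^ w / L ^ w := by gcongr
        _ = _ := by field_simp
    have e5 := le_of_mul_le_mul_left e4 hφ0
    exact (pow_le_pow_iff_left₀ (norm_nonneg _) (by positivity) two_ne_zero).1 e5
  have hyr : (y : ℝ) ≤ Real.sqrt N := by
    apply Real.le_sqrt_of_sq_le
    exact_mod_cast hy
  have hy2 : (y : ℝ) ^ 2 ≤ N := by exact_mod_cast hy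
  have h2 : (y : ℝ) / q * ‖Sq α (γ : ZMod q) χ a‖ + q ≤ 2 * (Real.sqrt N / L ^ B') := by
    have e1 : (y : ℝ) / q * ‖Sq α (γ : ZMod q) χ a‖ ≤ Real.sqrt N / L ^ B' := by
      calc (y : ℝ) / q * ‖Sq α (γ : ZMod q) χ a‖ ≤ Real.sqrt N / q * (q / L ^ B') := by gcongr
        _ = _ := by field_simp
    have e2 : (q : ℝ) ≤ Real.sqrt N / L ^ B' := by
      rw [le_div_iff₀ (by positivity)]
      exact hq
    linarith
  have h3 : 1 + 2 * Real.pi * κ * |η| * (y : ℝ) ^ 2 ≤ L ^ (C + w) := by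
    have e1 : |η| * (y : ℝ) ^ 2 ≤ L ^ C := by
      calc |η| * (y : ℝ) ^ 2 ≤ L ^ C / N * N := by gcongr
        _ = L ^ C := by field_simp
    have hpi := Real.pi_lt_four
    have e2 : 2 * Real.pi * κ * |η| * (y : ℝ) ^ 2 ≤ 8 * κ * L ^ C := by
      calc 2 * Real.pi * κ * |η| * (y : ℝ) ^ 2 = 2 * Real.pi * κ * (|η| * (y : ℝ) ^ 2) := by ring
        _ ≤ 2 * 4 * κ * L ^ C := by gcongr
        _ = _ := by ring
    have e3 : 1 ≤ L ^ C := one_le_pow₀ hL1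
    have e4 : 1 + 8 * κ * L ^ C ≤ 9 * κ * L ^ C := by nlinarith
    have e5 : 9 * κ * L ^ C ≤ L ^ w * L ^ C := by
      apply mul_le_mul_of_nonneg_right _ (by positivity)
      nlinarith
    have e6 : L ^ (C + w) = L ^ w * L ^ C := by ring
    rw [e6]
    linarith
  refine (W_le α γ χ a η y).trans ?_
  rw [← hκ]
  calc _ ≤ 2 * (Real.sqrt N / L ^ B') * L ^ (C + w) := by
        apply mul_le_mul h2 h3 (by positivity) (by positivity)
    _ = Real.sqrt N / L ^ B * (2 / L) := by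
        rw [hB', show B + C + w + 1 = B + (C + w) + 1 by ring, pow_succ, pow_add]
        field_simp
    _ ≤ Real.sqrt N / L ^ B * 1 := by
        apply mul_le_mul_of_nonneg_left _ (by positivity)
        rw [div_le_one hL0]
        linarith
    _ = _ := mul_one _

/-- the pointwise estimate on the major arcs -/
lemma pwL (h3 : OrthStm) {q N : ℕ} [NeZero q] {α γ : ℤ} (hα : α ≠ 0) (G : ℕ → ℂ) {A T C₃ K B₂ U : ℕ} {L η : ℝ}
    {a : ZMod q} (hL : L = Real.log N) (hL200 : 200 ≤ L) (hN : 1 ≤ N)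
    (hqN : (q : ℝ) ≤ Real.sqrt N) (hατ : 8 * |(α : ℝ)| * (q.divisors.card : ℝ) ≤ L ^ (T + 1))
    (hG : ∀ n ∈ Icc 1 N, ‖G n‖ ≤ L ^ 2)
    (B : Finset (DirichletCharacter ℂ q)) (hBc : (B.card : ℝ) ≤ L ^ C₃)
    (hgood : ∀ S : Finset (DirichletCharacter ℂ q), Disjoint S B →
      ∑ χ ∈ S, ‖cs q N G η χ‖ ^ 2 ≤ (N : ℝ) ^ 2 / L ^ (A + T + 2 + 4))
    (hnon : ∑ l ∈ univ.filter (fun l : ZMod q => ¬ IsUnit l), ‖cl q N G η l‖ ^ 2 ≤
      (N : ℝ) ^ 2 / (q * L ^ (A + T + 2 + 2)))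
    (hsm : ∀ χ : DirichletCharacter ℂ q, (χ.conductor : ℝ) ≤ L ^ K → ‖cs q N G η χ‖ ≤ N / L ^ U)
    (hU : C₃ + (A + T + 2) + 4 ≤ 2 * U) {y : ℕ} (hy : y ^ 2 ≤ N)
    (hsh : ∀ χ : DirichletCharacter ℂ q, L ^ K < χ.conductor →
      ‖∑ m ∈ Icc 1 y, ee (((α : ℝ) * (m : ℝ) ^ 2 + (γ : ℝ) * (m : ℝ)) * (-η)) *
        χ (a - ((α : ZMod q) * (m : ZMod q) ^ 2 + (γ : ZMod q) * (m : ZMod q)))‖ ≤ Real.sqrt N / L ^ B₂)
    (hB₂ : 2 * C₃ + A + 9 ≤ 2 * B₂) :
    ‖TT α γ G y N q η a‖ ^ 2 ≤ (N : ℝ) ^ 3 / (q ^ 2 * L ^ A) := by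
  have hL0 : 0 < L := by linarith
  have hL1 : 1 ≤ L := by linarith
  have hNp : (0 : ℝ) < N := by exact_mod_cast hN
  have hN1 : (1 : ℝ) ≤ N := by exact_mod_cast hN
  have hq0 : 0 < q := Nat.pos_of_ne_zero (NeZero.ne q)
  have hqr : (0 : ℝ) < q := by exact_mod_cast hq0
  have hφ0 : (0 : ℝ) < q.totient := by exact_mod_cast Nat.totient_pos.2 hq0
  have hss : Real.sqrt N * Real.sqrt N = N := Real.mul_self_sqrt hNp.le
  have hs2 : Real.sqrt N ^ 2 = N := Real.sq_sqrt hNp.le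
  have hs0 : 0 < Real.sqrt N := Real.sqrt_pos.2 hNp
  have hsN : Real.sqrt N ≤ N := by
    rw [Real.sqrt_le_left hNp.le]
    nlinarith
  have hqN' : (q : ℝ) ≤ N := hqN.trans hsN
  have hφ : ((q.totient : ℝ))⁻¹ ≤ 3 * L / q := by
    have h1 := q_le_phi hq0
    have h2 : Real.log q ≤ L := by
      rw [hL]
      exact Real.log_le_log hqr hqN'
    rw [inv_eq_one_div, div_le_div_iff₀ hφ0 hqr, one_mul]
    refine h1.trans ?_
    rw [mul_comm (3 * L)]
    apply mul_le_mul_of_nonneg_left _ hφ0.le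
    linarith
  have hyr : (y : ℝ) ≤ Real.sqrt N := by
    apply Real.le_sqrt_of_sq_le
    exact_mod_cast hy
  obtain ⟨BF, hBF1, hBF2, hBF3⟩ := good_mean h3 G (A := A + T + 2) hL hL200 hN hqN' B hBc hgood hnon hsm hU
  have t1 := part_good (y := y) (N := N) (γ := γ) hα (fun l => cl q N G η l - clB q N G η BF l) a η
  have t2 := part_bad (y := y) (N := N) (α := α) (γ := γ) G a η BF (X := L ^ C₃) (Y := N * L ^ 2) (Z := Real.sqrt N / L ^ B₂)
    hBF1 (by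
      intro χ _
      unfold cs
      calc ‖∑ n ∈ Icc 1 N, G n * χ (n : ZMod q) * ee (n * η)‖ ≤ ∑ _n ∈ Icc 1 N, L ^ 2 := by
            refine (norm_sum_le _ _).trans (sum_le_sum fun n hn => ?_)
            rw [norm_mul, norm_mul, norm_ee, mul_one]
            have h1 := hG n hn
            have h2 := DirichletCharacter.norm_le_one χ (n : ZMod q)
            calc ‖G n‖ * ‖χ (n : ZMod q)‖ ≤ ‖G n‖ * 1 := mul_le_mul_of_nonneg_left h2 (norm_nonneg _)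
              _ ≤ L ^ 2 := by rw [mul_one]; exact h1
        _ = N * L ^ 2 := by rw [sum_const, Nat.card_Icc, nsmul_eq_mul, Nat.add_sub_cancel])
    (by positivity) (fun χ hχ => hsh χ (hBF2 χ hχ)) (by positivity)
  have hTT : TT α γ G y N q η a =
      ∑ m ∈ Icc 1 y, ee (((α : ℝ) * (m : ℝ) ^ 2 + (γ : ℝ) * (m : ℝ)) * η) * (fun l => cl q N G η l - clB q N G η BF l)
        (a - ((α : ZMod q) * (m : ZMod q) ^ 2 + (γ : ZMod q) * (m : ZMod q))) +
      ∑ m ∈ Icc 1 y, ee (((α : ℝ) * (m : ℝ) ^ 2 + (γ : ℝ) * (m : ℝ)) * η) * clB q N G η BF (a - ((α : ZMod q) * (m : ZMod q) ^ 2 + (γ : ZMod q) * (m : ZMod q))) := by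
    unfold TT
    rw [← sum_add_distrib]
    refine sum_congr rfl fun m _ => ?_
    ring
  obtain ⟨X, hX⟩ : ∃ X, X = ‖∑ m ∈ Icc 1 y, ee (((α : ℝ) * (m : ℝ) ^ 2 + (γ : ℝ) * (m : ℝ)) * η) *
    (fun l => cl q N G η l - clB q N G η BF l) (a - ((α : ZMod q) * (m : ZMod q) ^ 2 + (γ : ZMod q) * (m : ZMod q)))‖ := ⟨_, rfl⟩
  obtain ⟨Y, hY⟩ : ∃ Y, Y = ‖∑ m ∈ Icc 1 y, ee (((α : ℝ) * (m : ℝ) ^ 2 + (γ : ℝ) * (m : ℝ)) * η) *
    clB q N G η BF (a - ((α : ZMod q) * (m : ZMod q) ^ 2 + (γ : ZMod q) * (m : ZMod q)))‖ := ⟨_, rfl⟩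
  have k0 : ‖TT α γ G y N q η a‖ ≤ X + Y := by
    rw [hTT, hX, hY]
    exact norm_add_le _ _
  rw [← hX] at t1
  rw [← hY] at t2
  have hX0 : 0 ≤ X := by rw [hX]; exact norm_nonneg _
  have hY0 : 0 ≤ Y := by rw [hY]; exact norm_nonneg _
  obtain ⟨E, hE⟩ : ∃ E, E = (N : ℝ) ^ 3 / (q ^ 2 * L ^ (A + 2)) := ⟨_, rfl⟩
  have hE0 : 0 ≤ E := by rw [hE]; positivity
  have u1 : X ^ 2 ≤ E := by
    refine t1.trans ?_
    have e1 : (y : ℝ) / q + 1 ≤ 2 * Real.sqrt N / q := by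
      have h1 : (y : ℝ) / q ≤ Real.sqrt N / q := by gcongr
      have h2 : 1 ≤ Real.sqrt N / q := by rw [one_le_div hqr]; exact hqN
      have h3 : 2 * Real.sqrt N / q = Real.sqrt N / q + Real.sqrt N / q := by ring
      linarith
    calc ((y : ℝ) / q + 1) ^ 2 * ((2 * |(α : ℝ)| * (q.divisors.card * q)) *
          ∑ l, ‖cl q N G η l - clB q N G η BF l‖ ^ 2)
        ≤ (2 * Real.sqrt N / q) ^ 2 * ((2 * |(α : ℝ)| * (q.divisors.card * q)) *
          ((N : ℝ) ^ 2 / (q * L ^ (A + T + 2 + 1)))) := by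
          gcongr
      _ = (8 * |(α : ℝ)| * q.divisors.card) * (N ^ 3 / (q ^ 2 * L ^ (A + 2))) / L ^ (T + 1) := by
          have h1 : L ^ (A + T + 2 + 1) = L ^ (T + 1) * L ^ (A + 2) := by ring
          rw [h1, div_pow, mul_pow, hs2]
          field_simp
          ring
      _ ≤ L ^ (T + 1) * (N ^ 3 / (q ^ 2 * L ^ (A + 2))) / L ^ (T + 1) := by gcongr
      _ = E := by rw [hE]; field_simp
  have u2 : Y ^ 2 ≤ E := by
    have e1 : Y ≤ (3 * L / q) * (L ^ C₃ * (N * L ^ 2 * (Real.sqrt N / L ^ B₂))) := by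
      refine t2.trans ?_
      gcongr
    calc Y ^ 2 ≤ ((3 * L / q) * (L ^ C₃ * (N * L ^ 2 * (Real.sqrt N / L ^ B₂)))) ^ 2 :=
          pow_le_pow_left₀ hY0 e1 2
      _ = N ^ 3 / q ^ 2 * (9 * L ^ (2 * C₃ + 6) / L ^ (2 * B₂)) := by
          have h1 : L ^ (2 * C₃ + 6) = (L ^ C₃) ^ 2 * L ^ 6 := by rw [← pow_mul]; ring
          have h2 : L ^ (2 * B₂) = (L ^ B₂) ^ 2 := by rw [← pow_mul]; ring
          have h3 : (Real.sqrt N / L ^ B₂) ^ 2 = N / (L ^ B₂) ^ 2 := by rw [div_pow, hs2]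
          rw [h1, h2, mul_pow, mul_pow, mul_pow, h3, div_pow]
          field_simp
          ring
      _ ≤ N ^ 3 / q ^ 2 * (1 / L ^ (A + 2)) := by
          have h1 : 9 * L ^ (2 * C₃ + 6) / L ^ (2 * B₂) ≤ 1 / L ^ (A + 2) := by
            rw [div_le_div_iff₀ (by positivity) (by positivity), one_mul]
            calc 9 * L ^ (2 * C₃ + 6) * L ^ (A + 2) ≤ L * L ^ (2 * C₃ + 6) * L ^ (A + 2) := by
                  gcongr; linarith
              _ = L ^ (2 * C₃ + A + 9) := by ring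
              _ ≤ L ^ (2 * B₂) := pow_le_pow_right₀ hL1 hB₂
          gcongr
      _ = E := by rw [hE]; field_simp
  calc ‖TT α γ G y N q η a‖ ^ 2 ≤ (X + Y) ^ 2 := pow_le_pow_left₀ (norm_nonneg _) k0 2
    _ ≤ 2 * X ^ 2 + 2 * Y ^ 2 := by nlinarith [sq_nonneg (X - Y)]
    _ ≤ 4 * E := by linarith
    _ ≤ L ^ 2 * E := by
        apply mul_le_mul_of_nonneg_right _ hE0
        nlinarith
    _ = _ := by
        rw [hE, pow_add L A 2]
        field_simp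

end Pool.Agent.R460.SL
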