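import Pool.Agent.R460.SL.Small
import Pool.Agent.R460.SB.Pars

set_option autoImplicit false

/-! Splitting of the classes by the greatest common divisor with the modulus. -/

namespace Pool.Agent.R460.SL

open Finset
open Pool.Agent.H807R2.Dav (ee norm_ee)
open Pool.Agent.Y614.GJ.Core (ev_log)
open Pool.Agent.Y883.GJ (cl)
open Pool.Agent.Y185.GJ (ee_add)
open Pool.Agent.R460.SB (TT)
open Pool.Agent.H373R2.T7 (liR liR_norm)

/-- the Liouville function on the integers up to `M` coprime to `Q` -/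
noncomputable def GM (M Q n : ℕ) : ℂ := if n ≤ M ∧ n.Coprime Q then liR n else 0

lemma GM_bd (M Q n : ℕ) : ‖GM M Q n‖ ≤ 1 := by
  unfold GM
  split_ifs
  · exact liR_norm n
  · simp

lemma cls_iff {Q : ℕ} (n : ℕ) (v : ℤ) : (n : ZMod Q) = ((v : ℤ) : ZMod Q) ↔ (Q : ℤ) ∣ v - n := by
  rw [← Int.cast_natCast, ZMod.intCast_eq_intCast_iff_dvd_sub]

lemma cop_iff {Q : ℕ} {n : ℕ} {v : ℤ} (h : (n : ZMod Q) = ((v : ℤ) : ZMod Q)) :
    n.Coprime Q ↔ IsCoprime v (Q : ℤ) := by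
  rw [cls_iff] at h
  obtain ⟨c, hc⟩ := h
  have h1 : v = n + Q * c := by linarith
  rw [h1, IsCoprime.add_mul_left_left_iff, Nat.isCoprime_iff_coprime]

lemma cl_g {g Q' N : ℕ} (hg : 0 < g) (u : ℤ) (hu : IsCoprime u (Q' : ℤ)) (η : ℝ) :
    cl (g * Q') N liR η (((g : ℤ) * u : ℤ) : ZMod (g * Q')) =
      liR g * cl Q' N (GM (N / g) Q') (g * η) ((u : ℤ) : ZMod Q') := by
  unfold cl
  rw [mul_sum]
  have hg0 : (g : ℤ) ≠ 0 := by exact_mod_cast hg.ne'
  have h1 : ∑ k ∈ (Icc 1 N).filter (fun k : ℕ => (k : ZMod Q') = ((u : ℤ) : ZMod Q')),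
      liR g * (GM (N / g) Q' k * ee (k * (g * η))) =
      ∑ k ∈ (Icc 1 (N / g)).filter (fun k : ℕ => (k : ZMod Q') = ((u : ℤ) : ZMod Q')),
      liR g * (liR k * ee (k * (g * η))) := by
    symm
    apply sum_subset_zero_on_sdiff
    · intro k hk
      rw [mem_filter, mem_Icc] at hk ⊢
      exact ⟨⟨hk.1.1, hk.1.2.trans (Nat.div_le_self _ _)⟩, hk.2⟩
    · intro k hk
      rw [mem_sdiff, mem_filter, mem_filter, mem_Icc, mem_Icc] at hk
      unfold GM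
      rw [if_neg, zero_mul, mul_zero]
      rintro ⟨h2, -⟩
      exact hk.2 ⟨⟨hk.1.1.1, h2⟩, hk.1.2⟩
    · intro k hk
      rw [mem_filter, mem_Icc] at hk
      unfold GM
      rw [if_pos ⟨hk.1.2, (cop_iff hk.2).2 hu⟩]
  rw [h1]
  symm
  refine sum_bij' (fun k _ => g * k) (fun n _ => n / g) ?_ ?_ ?_ ?_ ?_
  · intro k hk
    rw [mem_filter, mem_Icc] at hk
    rw [mem_filter, mem_Icc]
    refine ⟨⟨Nat.mul_pos hg (by omega), ?_⟩, ?_⟩
    · calc g * k ≤ g * (N / g) := Nat.mul_le_mul_left _ hk.1.2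
        _ ≤ N := Nat.mul_div_le _ _
    · rw [cls_iff]
      have h2 := (cls_iff k u).1 hk.2
      push_cast
      rw [← mul_sub]
      exact mul_dvd_mul_left _ h2
  · intro n hn
    rw [mem_filter, mem_Icc] at hn
    rw [mem_filter, mem_Icc]
    have h2 := (cls_iff n _).1 hn.2
    push_cast at h2
    have h3 : (g : ℤ) ∣ n := by
      have h4 : (g : ℤ) ∣ (g : ℤ) * u - n := (Dvd.intro _ rfl).trans h2
      have h5 : (g : ℤ) ∣ (g : ℤ) * u := Dvd.intro _ rfl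
      exact (dvd_sub_right h5).1 h4
    obtain ⟨k, hk⟩ : g ∣ n := by exact_mod_cast h3
    rw [hk, Nat.mul_div_cancel_left _ hg]
    refine ⟨⟨?_, ?_⟩, ?_⟩
    · rcases Nat.eq_zero_or_pos k with h | h
      · rw [h, mul_zero] at hk; omega
      · exact h
    · rw [Nat.le_div_iff_mul_le hg, mul_comm, ← hk]
      exact hn.1.2
    · rw [cls_iff]
      rw [hk] at h2
      push_cast at h2
      rw [← mul_sub] at h2
      exact (mul_dvd_mul_iff_left hg0).1 h2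
  · intro k _
    exact Nat.mul_div_cancel_left _ hg
  · intro n hn
    rw [mem_filter, mem_Icc] at hn
    have h2 := (cls_iff n _).1 hn.2
    push_cast at h2
    have h3 : (g : ℤ) ∣ n := by
      have h4 : (g : ℤ) ∣ (g : ℤ) * u - n := (Dvd.intro _ rfl).trans h2
      have h5 : (g : ℤ) ∣ (g : ℤ) * u := Dvd.intro _ rfl
      exact (dvd_sub_right h5).1 h4
    have h4 : g ∣ n := by exact_mod_cast h3
    exact Nat.mul_div_cancel' h4
  · intro k hk
    rw [mem_filter, mem_Icc] at hk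
    rw [liR_mul hg.ne' (by omega)]
    have : (((g * k : ℕ) : ℝ)) * η = k * (g * η) := by push_cast; ring
    rw [this]
    ring

lemma cl_g0 {Q' N M : ℕ} (u : ℤ) (hu : ¬ IsCoprime u (Q' : ℤ)) (β : ℝ) :
    cl Q' N (GM M Q') β ((u : ℤ) : ZMod Q') = 0 := by
  unfold cl
  apply sum_eq_zero
  intro n hn
  rw [mem_filter] at hn
  unfold GM
  rw [if_neg, zero_mul]
  rintro ⟨-, h⟩
  exact hu ((cop_iff hn.2).1 h)

lemma cl_split {Q N : ℕ} [NeZero Q] (v : ℤ) (η : ℝ) :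
    cl Q N liR η ((v : ℤ) : ZMod Q) = ∑ g ∈ Q.divisors, if (g : ℤ) ∣ v then
      liR g * cl (Q / g) N (GM (N / g) (Q / g)) (g * η) ((v / g : ℤ) : ZMod (Q / g)) else 0 := by
  have hQ0 : 0 < Q := NeZero.pos Q
  obtain ⟨g₀, hg₀⟩ : ∃ g₀, g₀ = Int.gcd v Q := ⟨_, rfl⟩
  have hgv : (g₀ : ℤ) ∣ v := by rw [hg₀]; exact Int.gcd_dvd_left _ _
  have hgQ' : (g₀ : ℤ) ∣ (Q : ℤ) := by rw [hg₀]; exact Int.gcd_dvd_right _ _
  have hgQ : g₀ ∣ Q := by exact_mod_cast hgQ'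
  have hg0 : 0 < g₀ := Nat.pos_of_dvd_of_pos hgQ hQ0
  have key : ∀ (g Q' : ℕ) (u : ℤ), 0 < g → IsCoprime u (Q' : ℤ) → Q = g * Q' → v = g * u →
      cl Q N liR η ((v : ℤ) : ZMod Q) =
        liR g * cl (Q / g) N (GM (N / g) (Q / g)) (g * η) ((v / g : ℤ) : ZMod (Q / g)) := by
    intro g Q' u hg hu h1 h2
    have h3 : Q / g = Q' := by rw [h1]; exact Nat.mul_div_cancel_left _ hg
    have h4 : v / g = u := by
      rw [h2]
      exact Int.mul_ediv_cancel_left _ (by exact_mod_cast hg.ne')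
    rw [h3, h4, h2]
    subst h1
    exact cl_g hg u hu η
  rw [sum_eq_single g₀]
  · rw [if_pos hgv]
    obtain ⟨Q', hQ'⟩ := hgQ
    obtain ⟨u, hu⟩ := hgv
    refine key g₀ Q' u hg0 ?_ hQ' hu
    rw [Int.isCoprime_iff_gcd_eq_one]
    have h5 : g₀ = g₀ * Int.gcd u Q' := by
      conv_lhs => rw [hg₀, hu, hQ']
      push_cast
      rw [Int.gcd_mul_left, Int.natAbs_natCast]
    exact Nat.eq_of_mul_eq_mul_left hg0 (by rw [mul_one]; exact h5.symm)
  · intro g hg hne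
    split_ifs with hd
    · have hgQ2 := (Nat.mem_divisors.1 hg).1
      have hgp : 0 < g := Nat.pos_of_dvd_of_pos hgQ2 hQ0
      obtain ⟨Q', hQ'⟩ := hgQ2
      obtain ⟨u, hu⟩ := hd
      have h3 : Q / g = Q' := by rw [hQ']; exact Nat.mul_div_cancel_left _ hgp
      have h4 : v / g = u := by
        rw [hu]
        exact Int.mul_ediv_cancel_left _ (by exact_mod_cast hgp.ne')
      rw [h3, h4, cl_g0 u _ _, mul_zero]
      intro hc
      apply hne
      rw [Int.isCoprime_iff_gcd_eq_one] at hc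
      rw [hg₀, hu, hQ']
      push_cast
      rw [Int.gcd_mul_left, Int.natAbs_natCast, hc, mul_one]
    · rfl
  · intro h
    exact absurd (Nat.mem_divisors.2 ⟨hgQ, hQ0.ne'⟩) h

/-- the values of the polynomial -/
def FF (α γ : ℤ) (m : ℤ) : ℤ := α * m ^ 2 + γ * m

lemma TT_sp {α γ : ℤ} {y N Q : ℕ} [NeZero Q] (η : ℝ) (n₀ : ℤ) :
    TT α γ liR y N Q η ((n₀ : ℤ) : ZMod Q) = ∑ g ∈ Q.divisors,
      liR g * ∑ m ∈ (Icc 1 y).filter (fun m : ℕ => (g : ℤ) ∣ n₀ - FF α γ m),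
        ee (((α : ℝ) * (m : ℝ) ^ 2 + (γ : ℝ) * (m : ℝ)) * η) *
          cl (Q / g) N (GM (N / g) (Q / g)) (g * η) (((n₀ - FF α γ m) / g : ℤ) : ZMod (Q / g)) := by
  unfold TT
  have h1 : ∀ m ∈ Icc 1 y, ee (((α : ℝ) * (m : ℝ) ^ 2 + (γ : ℝ) * (m : ℝ)) * η) *
      cl Q N liR η (((n₀ : ℤ) : ZMod Q) - ((α : ZMod Q) * (m : ZMod Q) ^ 2 + (γ : ZMod Q) * (m : ZMod Q))) =
      ∑ g ∈ Q.divisors, liR g * (if (g : ℤ) ∣ n₀ - FF α γ m then
        ee (((α : ℝ) * (m : ℝ) ^ 2 + (γ : ℝ) * (m : ℝ)) * η) *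
          cl (Q / g) N (GM (N / g) (Q / g)) (g * η) (((n₀ - FF α γ m) / g : ℤ) : ZMod (Q / g)) else 0) := by
    intro m _
    have e1 : ((n₀ : ℤ) : ZMod Q) - ((α : ZMod Q) * (m : ZMod Q) ^ 2 + (γ : ZMod Q) * (m : ZMod Q)) =
        ((n₀ - FF α γ m : ℤ) : ZMod Q) := by
      unfold FF
      push_cast
      ring
    rw [e1, cl_split, mul_sum]
    refine sum_congr rfl fun g _ => ?_
    split_ifs
    · ring
    · simp
  rw [sum_congr rfl h1, sum_comm]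
  refine sum_congr rfl fun g _ => ?_
  rw [← mul_sum, sum_filter]

/-- the progressions modulo `g` -/
lemma inner_s {α γ : ℤ} {y N g Q' : ℕ} (hg : 0 < g) (G : ℕ → ℂ) (η : ℝ) (n₀ : ℤ) :
    ∑ m ∈ (Icc 1 y).filter (fun m : ℕ => (g : ℤ) ∣ n₀ - FF α γ m),
        ee (((α : ℝ) * (m : ℝ) ^ 2 + (γ : ℝ) * (m : ℝ)) * η) *
          cl Q' N G (g * η) (((n₀ - FF α γ m) / g : ℤ) : ZMod Q') =
      ∑ s ∈ (range g).filter (fun s : ℕ => (g : ℤ) ∣ n₀ - FF α γ (-(s : ℤ))),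
        ee (((α : ℝ) * (s : ℝ) ^ 2 - (γ : ℝ) * (s : ℝ)) * η) *
          TT (α * g) (γ - 2 * α * s) G ((y + s) / g) N Q' (g * η)
            (((n₀ - FF α γ (-(s : ℤ))) / g : ℤ) : ZMod Q') := by
  have hg0 : (g : ℤ) ≠ 0 := by exact_mod_cast hg.ne'
  have hcong : ∀ (s m' : ℕ), n₀ - FF α γ ((g : ℤ) * m' - s) =
      (n₀ - FF α γ (-(s : ℤ))) - g * ((α * g) * (m' : ℤ) ^ 2 + (γ - 2 * α * s) * m') := by
    intro s m'
    unfold FF
    ring
  have hdvd : ∀ (s m' : ℕ), (g : ℤ) ∣ n₀ - FF α γ ((g : ℤ) * m' - s) ↔ (g : ℤ) ∣ n₀ - FF α γ (-(s : ℤ)) := by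
    intro s m'
    rw [hcong]
    exact dvd_sub_left (Dvd.intro _ rfl)
  unfold TT
  rw [sum_congr rfl fun s _ => mul_sum _ _ _, sum_sigma']
  symm
  refine sum_bij' (fun x _ => g * x.2 - x.1)
    (fun m _ => (⟨g * ((m + g - 1) / g) - m, (m + g - 1) / g⟩ : Σ _ : ℕ, ℕ)) ?_ ?_ ?_ ?_ ?_
  · rintro ⟨s, m'⟩ hx
    simp only [mem_sigma, mem_filter, mem_range, mem_Icc] at hx ⊢
    obtain ⟨⟨h1, h2⟩, h3, h4⟩ := hx
    have h5 : g * 1 ≤ g * m' := Nat.mul_le_mul_left _ h3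
    have h6 : m' * g ≤ y + s := (Nat.le_div_iff_mul_le hg).1 h4
    have h7 : m' * g = g * m' := mul_comm _ _
    refine ⟨⟨by omega, by omega⟩, ?_⟩
    have h8 : ((g * m' - s : ℕ) : ℤ) = (g : ℤ) * m' - s := by
      rw [Nat.cast_sub (by omega)]
      push_cast
      ring
    rw [h8, hdvd]
    exact h2
  · intro m hm
    simp only [mem_sigma, mem_filter, mem_range, mem_Icc] at hm ⊢
    obtain ⟨⟨h1, h2⟩, h3⟩ := hm
    obtain ⟨k, hk⟩ : ∃ k, k = (m + g - 1) / g := ⟨_, rfl⟩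
    rw [← hk]
    have h4 : g * k ≤ m + g - 1 := by rw [hk]; exact Nat.mul_div_le _ _
    have h5 : m + g - 1 < g * (k + 1) := by
      rw [hk]
      exact Nat.lt_mul_div_succ _ hg
    have h5' : g * (k + 1) = g * k + g := by ring
    have h6 : 1 ≤ k := by
      rw [hk, Nat.le_div_iff_mul_le hg]
      omega
    have h8 : ((m : ℕ) : ℤ) = (g : ℤ) * k - ((g * k - m : ℕ) : ℤ) := by
      rw [Nat.cast_sub (by omega)]
      push_cast
      ring
    refine ⟨⟨by omega, ?_⟩, h6, ?_⟩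
    · rw [← hdvd (g * k - m) k, ← h8]
      exact h3
    · rw [Nat.le_div_iff_mul_le hg, mul_comm]
      omega
  · rintro ⟨s, m'⟩ hx
    simp only [mem_sigma, mem_filter, mem_range, mem_Icc] at hx ⊢
    obtain ⟨⟨h1, h2⟩, h3, h4⟩ := hx
    have h5 : g * 1 ≤ g * m' := Nat.mul_le_mul_left _ h3
    have h6 : (g * m' - s + g - 1) / g = m' := by
      have e1 : m' * g = g * m' := mul_comm _ _
      have e2 : (m' + 1) * g = g * m' + g := by ring
      apply Nat.div_eq_of_lt_le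
      · omega
      · omega
    rw [h6]
    have h7 : g * m' - (g * m' - s) = s := by omega
    rw [h7]
  · intro m hm
    simp only [mem_filter, mem_Icc] at hm ⊢
    have h4 : g * ((m + g - 1) / g) ≤ m + g - 1 := Nat.mul_div_le _ _
    have h5 : m + g - 1 < g * ((m + g - 1) / g + 1) := Nat.lt_mul_div_succ _ hg
    have h5' : g * ((m + g - 1) / g + 1) = g * ((m + g - 1) / g) + g := by ring
    omega
  · rintro ⟨s, m'⟩ hx
    simp only [mem_sigma, mem_filter, mem_range, mem_Icc] at hx ⊢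
    obtain ⟨⟨h1, h2⟩, h3, h4⟩ := hx
    have h5 : g * 1 ≤ g * m' := Nat.mul_le_mul_left _ h3
    have h8 : ((g * m' - s : ℕ) : ℤ) = (g : ℤ) * m' - s := by
      rw [Nat.cast_sub (by omega)]
      push_cast
      ring
    have h8r : ((g * m' - s : ℕ) : ℝ) = (g : ℝ) * m' - s := by
      rw [Nat.cast_sub (by omega)]
      push_cast
      ring
    rw [h8, h8r, ← mul_assoc, ← ee_add, hcong]
    obtain ⟨c, hc⟩ := h2
    rw [hc, Int.mul_ediv_cancel_left _ hg0, ← mul_sub, Int.mul_ediv_cancel_left _ hg0]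
    congr 1
    · congr 1
      push_cast
      ring
    · congr 1
      push_cast
      ring

end Pool.Agent.R460.SL
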