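import Pool.Agent.R460.SL.Maj
import Pool.Agent.R460.SL.Shq
import Pool.Agent.R460.SL.Rt
import Pool.Agent.R460.SL.Split

set_option autoImplicit false

/-! The Liouville function: the pointwise estimate on the major arcs. -/

namespace Pool.Agent.R460.SL

open Finset
open Pool.Agent.H807R2.Dav (ee norm_ee)
open Pool.Agent.Y614.GJ.Core (ev_log)
open Pool.Agent.Y883.GJ
open Pool.Agent.R460.GS
open Pool.Agent.R460.GH (BilMaj3Stm)
open Pool.Agent.R460.SB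
open Pool.Agent.H373R2.T7 (liR liR_norm)

lemma gcd_val {Q : ℕ} [NeZero Q] (v : ℤ) : Nat.gcd ((v : ℤ) : ZMod Q).val Q = Int.gcd v Q := by
  have h1 : ((((v : ℤ) : ZMod Q).val : ℕ) : ℤ) = v % (Q : ℤ) := ZMod.val_intCast v
  have h2 : Nat.gcd ((v : ℤ) : ZMod Q).val Q = Int.gcd ((((v : ℤ) : ZMod Q).val : ℕ) : ℤ) (Q : ℤ) := by
    rw [Int.gcd_natCast_natCast]
  rw [h2, h1, Int.gcd_emod]

lemma gcd_dvd_mono {Q Q' : ℕ} (hQ : 0 < Q) (h : Q' ∣ Q) (v : ℤ) : Int.gcd v Q' ≤ Int.gcd v Q := by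
  apply Nat.le_of_dvd
  · exact Nat.pos_of_ne_zero (by
      rw [Ne, Int.gcd_eq_zero_iff]
      rintro ⟨-, h2⟩
      have : Q = 0 := by exact_mod_cast h2
      omega)
  · apply Int.dvd_gcd
    · exact Int.gcd_dvd_left _ _
    · exact (Int.gcd_dvd_right _ _).trans (by exact_mod_cast h)

lemma cs_GM {Q' N M : ℕ} [NeZero Q'] (hM : M ≤ N) (β : ℝ) (χ : DirichletCharacter ℂ Q') :
    cs Q' N (GM M Q') β χ = cs Q' M liR β χ := by
  unfold cs
  symm
  apply sum_subset_zero_on_sdiff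
  · exact Icc_subset_Icc_right hM
  · intro n hn
    rw [mem_sdiff, mem_Icc, mem_Icc] at hn
    unfold GM
    rw [if_neg, zero_mul, zero_mul]
    rintro ⟨h, -⟩
    exact hn.2 ⟨hn.1.1, h⟩
  · intro n hn
    rw [mem_Icc] at hn
    unfold GM
    by_cases hc : n.Coprime Q'
    · rw [if_pos ⟨hn.2, hc⟩]
    · have : χ (n : ZMod Q') = 0 := by
        apply χ.map_nonunit
        rw [ZMod.isUnit_iff_coprime]
        exact hc
      rw [this, mul_zero, mul_zero]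

lemma cl_nonunit {Q' N M : ℕ} [NeZero Q'] (β : ℝ) (l : ZMod Q') (hl : ¬ IsUnit l) : cl Q' N (GM M Q') β l = 0 := by
  unfold cl
  apply sum_eq_zero
  intro n hn
  rw [mem_filter] at hn
  unfold GM
  rw [if_neg, zero_mul]
  rintro ⟨-, h⟩
  apply hl
  rw [← hn.2]
  exact (ZMod.isUnit_iff_coprime n Q').2 h

lemma clM_le {Q' N M : ℕ} [NeZero Q'] (β : ℝ) (l : ZMod Q') : ‖cl Q' N (GM M Q') β l‖ ≤ (M : ℝ) / Q' + 1 := by
  unfold cl
  have h1 : ∀ n ∈ (Icc 1 N).filter (fun n : ℕ => (n : ZMod Q') = l), ‖GM M Q' n * ee (n * β)‖ ≤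
      (if n ≤ M then 1 else 0) := by
    intro n _
    rw [norm_mul, norm_ee, mul_one]
    unfold GM
    split_ifs with h2 h3 h3
    · exact liR_norm n
    · exact absurd h2.1 h3
    · simp
    · simp
  refine (norm_sum_le _ _).trans ((sum_le_sum h1).trans ?_)
  rw [← sum_filter, sum_const, nsmul_eq_mul, mul_one]
  refine le_trans ?_ (Pool.Agent.Y812.GJ.card_class Q' M l)
  have : ((Icc 1 N).filter (fun n : ℕ => (n : ZMod Q') = l)).filter (fun n => n ≤ M) ⊆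
      (Icc 1 M).filter (fun n : ℕ => (n : ZMod Q') = l) := by
    intro n hn
    rw [mem_filter, mem_filter, mem_Icc] at hn
    rw [mem_filter, mem_Icc]
    exact ⟨⟨hn.1.1.1, hn.2⟩, hn.1.2⟩
  exact_mod_cast card_le_card this

/-- the number of the `m` with a large divisor -/
lemma count_g {α γ : ℤ} {g y : ℕ} [NeZero g] (n₀ : ℤ) :
    (((Icc 1 y).filter (fun m : ℕ => (g : ℤ) ∣ n₀ - FF α γ m)).card : ℝ) ≤
      (rt α (γ : ZMod g) (n₀ : ZMod g) : ℝ) * ((y : ℝ) / g + 1) := by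
  classical
  have h1 : (Icc 1 y).filter (fun m : ℕ => (g : ℤ) ∣ n₀ - FF α γ m) ⊆
      (univ.filter (fun k : ZMod g => (α : ZMod g) * k ^ 2 + (γ : ZMod g) * k = (n₀ : ZMod g))).biUnion
        (fun k => (Icc 1 y).filter (fun m : ℕ => (m : ZMod g) = k)) := by
    intro m hm
    rw [mem_filter] at hm
    rw [mem_biUnion]
    refine ⟨(m : ZMod g), ?_, mem_filter.2 ⟨hm.1, rfl⟩⟩
    rw [mem_filter]
    refine ⟨mem_univ _, ?_⟩
    have h2 := (ZMod.intCast_eq_intCast_iff_dvd_sub (FF α γ m) n₀ g).2 hm.2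
    rw [← h2]
    unfold FF
    push_cast
    ring
  have h2 := (card_le_card h1).trans card_biUnion_le
  have h3 : (((Icc 1 y).filter (fun m : ℕ => (g : ℤ) ∣ n₀ - FF α γ m)).card : ℝ) ≤
      ∑ k ∈ univ.filter (fun k : ZMod g => (α : ZMod g) * k ^ 2 + (γ : ZMod g) * k = (n₀ : ZMod g)),
        (((Icc 1 y).filter (fun m : ℕ => (m : ZMod g) = k)).card : ℝ) := by exact_mod_cast h2
  refine h3.trans ((sum_le_sum fun k _ => Pool.Agent.Y812.GJ.card_class g y k).trans ?_)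
  rw [sum_const, nsmul_eq_mul]
  unfold rt
  exact le_rfl

lemma disc_s (α γ n₀ c : ℤ) (g s : ℤ) (hc : n₀ - FF α γ (-s) = g * c) :
    4 * (α * g) * c + (γ - 2 * α * s) ^ 2 = 4 * α * n₀ + γ ^ 2 := by
  unfold FF at hc
  linear_combination (-4 * α) * hc

lemma kap_gs {α γ : ℤ} {g s : ℕ} (hs : s < g) : kap (α * g) (γ - 2 * α * s) ≤ 3 * g * kap α γ := by
  unfold kap
  have hg : (1 : ℝ) ≤ g := by exact_mod_cast (by omega : 1 ≤ g)
  have hsr : (s : ℝ) ≤ g := by exact_mod_cast hs.le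
  have hs0 : (0 : ℝ) ≤ s := Nat.cast_nonneg _
  push_cast
  rw [abs_mul, abs_of_nonneg (by linarith : (0 : ℝ) ≤ g)]
  have h1 : |(γ : ℝ) - 2 * α * s| ≤ |(γ : ℝ)| + 2 * |(α : ℝ)| * s := by
    refine (abs_sub _ _).trans ?_
    rw [abs_mul, abs_mul, abs_two, abs_of_nonneg hs0]
  have h2 : |(γ : ℝ)| ≤ 3 * g * |(γ : ℝ)| := by
    nlinarith [abs_nonneg (γ : ℝ), mul_nonneg (abs_nonneg (γ : ℝ)) (by linarith : (0 : ℝ) ≤ (g : ℝ) - 1)]
  have h3 : 2 * |(α : ℝ)| * s ≤ 2 * |(α : ℝ)| * g := by gcongr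
  nlinarith

end Pool.Agent.R460.SL
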