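import Pool.Agent.R460.SL.Pw

set_option autoImplicit false

/-! The Liouville function: the pointwise estimate on the major arcs, end of the proof. -/

namespace Pool.Agent.R460.SL

open Finset
open Pool.Agent.H807R2.Dav (ee norm_ee)
open Pool.Agent.Y614.GJ.Core (ev_log)
open Pool.Agent.Y883.GJ
open Pool.Agent.R460.GS
open Pool.Agent.R460.GH (BilMaj3Stm)
open Pool.Agent.R460.SB
open Pool.Agent.H373R2.T7 (liR liR_norm)

/-- one divisor and one progression -/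
lemma one_gs (h3 : OrthStm) {α γ : ℤ} (hα : α ≠ 0) {A T C K₀ C₃ B₂ K U N w : ℕ} {L : ℝ} (hL : L = Real.log N)
    (hL200 : 200 ≤ L) (hLκ : 864 * kap α γ ^ 2 ≤ L ^ w) (hN : 1 ≤ N)
    (hMaj : MajAt N (1 / 5) (A + (T + K₀ + w) + 2 + 4) (C + K₀) C₃ liR)
    (hSm : ∀ (q : ℕ) [NeZero q], (q.divisors.card : ℝ) ≤ L ^ T → ∀ χ : DirichletCharacter ℂ q,
      (χ.conductor : ℝ) ≤ L ^ K → ∀ y : ℕ, y ≤ N → ∀ η : ℝ, ‖cs q y liR η χ‖ ≤ N / L ^ U)
    (hK : K = 3 * T + 3 + (2 * K₀ + w) + 2 * (B₂ + (C + K₀) + (2 * K₀ + w) + 1))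
    (hU : C₃ + (A + (T + K₀ + w) + 2) + 4 ≤ 2 * U) (hB₂ : 2 * C₃ + A + 9 ≤ 2 * B₂)
    {Q : ℕ} [NeZero Q] (hQ : (Q : ℝ) * L ^ (B₂ + (C + K₀) + (2 * K₀ + w) + 1) ≤ Real.sqrt N)
    (hτ : (Q.divisors.card : ℝ) ≤ L ^ T) (n₀ : ℤ) (hgcd : (Int.gcd (4 * α * n₀ + γ ^ 2) Q : ℝ) ≤ L ^ T)
    {η : ℝ} (hη : |η| ≤ L ^ C / N) {y : ℕ} (hy : y ^ 2 ≤ N) {g s : ℕ} (hg : g ∣ Q) (hgL : (g : ℝ) ≤ L ^ K₀)
    (hs : s < g) (hd : (g : ℤ) ∣ n₀ - FF α γ (-(s : ℤ))) :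
    ‖TT (α * g) (γ - 2 * α * s) (GM (N / g) (Q / g)) ((y + s) / g) N (Q / g) (g * η)
      (((n₀ - FF α γ (-(s : ℤ))) / g : ℤ) : ZMod (Q / g))‖ ^ 2 ≤ (N : ℝ) ^ 3 / (((Q / g : ℕ) : ℝ) ^ 2 * L ^ A) := by
  classical
  have hL0 : 0 < L := by linarith
  have hL1 : 1 ≤ L := by linarith
  have hN0 : (0 : ℝ) < N := by exact_mod_cast hN
  have hNr1 : (1 : ℝ) ≤ N := by exact_mod_cast hN
  have hQ0 : 0 < Q := NeZero.pos Q
  have hgp : 0 < g := by omega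
  have hQ'0 : 0 < Q / g := Nat.div_pos (Nat.le_of_dvd hQ0 hg) hgp
  have : NeZero (Q / g) := ⟨hQ'0.ne'⟩
  obtain ⟨Q', hQ'⟩ : ∃ Q', Q' = Q / g := ⟨_, rfl⟩
  have hQQ : Q' ∣ Q := by rw [hQ']; exact Nat.div_dvd_of_dvd hg
  rw [← hQ'] at this hQ'0 ⊢
  have hQ'r : (0 : ℝ) < Q' := by exact_mod_cast hQ'0
  have hQQr : (Q' : ℝ) ≤ Q := by exact_mod_cast Nat.le_of_dvd hQ0 hQQ
  have hg1 : (1 : ℝ) ≤ g := by exact_mod_cast hgp
  obtain ⟨hα1, hακ, hκ1⟩ := kap_ge hα γ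
  have hκ2 : kap α γ ≤ kap α γ ^ 2 := by nlinarith
  have hαg : α * g ≠ 0 := mul_ne_zero hα (by exact_mod_cast hgp.ne')
  have hQM : (Q' : ℝ) ≤ Real.sqrt N := by
    have : (1 : ℝ) ≤ L ^ (B₂ + (C + K₀) + (2 * K₀ + w) + 1) := one_le_pow₀ hL1
    nlinarith
  have hsN : Real.sqrt N ≤ N := by
    rw [Real.sqrt_le_left hN0.le]
    nlinarith
  have hτ' : (Q'.divisors.card : ℝ) ≤ L ^ T := by
    refine le_trans ?_ hτ
    exact_mod_cast card_le_card (Nat.divisors_subset_of_dvd hQ0.ne' hQQ)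
  have hQ5 : (Q' : ℝ) ≤ (N : ℝ) ^ (7 / 10 - 1 / 5 : ℝ) := by
    rw [show (7 / 10 - 1 / 5 : ℝ) = 1 / 2 by norm_num, ← Real.sqrt_eq_rpow]
    exact hQM
  have hηg : |(g : ℝ) * η| ≤ L ^ (C + K₀) / N := by
    rw [abs_mul, abs_of_nonneg (by linarith : (0 : ℝ) ≤ g)]
    calc (g : ℝ) * |η| ≤ L ^ K₀ * (L ^ C / N) := by gcongr
      _ = _ := by rw [pow_add]; ring
  obtain ⟨B, -, hBc, hB⟩ := hMaj Q' hQ5
  rw [← hL] at hBc hB
  have hNg : N / g ≤ N := Nat.div_le_self _ _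
  have hy' : ((y + s) / g) ^ 2 ≤ N := by
    refine le_trans ?_ hy
    apply Nat.pow_le_pow_left
    rcases Nat.eq_zero_or_pos y with h | h
    · rw [h, zero_add, Nat.div_eq_of_lt hs]
    · calc (y + s) / g ≤ (y * g) / g := by
            apply Nat.div_le_div_right
            obtain ⟨c, rfl⟩ : ∃ c, g = c + 1 := ⟨g - 1, by omega⟩
            obtain ⟨d, rfl⟩ : ∃ d, y = d + 1 := ⟨y - 1, by omega⟩
            nlinarith
        _ = y := Nat.mul_div_cancel _ hgp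
  obtain ⟨c, hc⟩ := hd
  have hcg : (n₀ - FF α γ (-(s : ℤ))) / g = c := by
    rw [hc]
    exact Int.mul_ediv_cancel_left _ (by exact_mod_cast hgp.ne')
  rw [hcg]
  have hdisc := disc_s α γ n₀ c g s hc
  have hga : (Nat.gcd (4 * ((α * g : ℤ) : ZMod Q') * ((c : ℤ) : ZMod Q') + ((γ - 2 * α * s : ℤ) : ZMod Q') ^ 2).val Q' : ℝ) ≤
      L ^ T := by
    have e1 : 4 * ((α * g : ℤ) : ZMod Q') * ((c : ℤ) : ZMod Q') + ((γ - 2 * α * s : ℤ) : ZMod Q') ^ 2 =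
        ((4 * α * n₀ + γ ^ 2 : ℤ) : ZMod Q') := by
      rw [← hdisc]
      push_cast
      ring
    rw [e1, gcd_val]
    refine le_trans ?_ hgcd
    exact_mod_cast gcd_dvd_mono hQ0 hQQ _
  refine pwL (A := A) (T := T + K₀ + w) (C₃ := C₃) (K := K) (B₂ := B₂) (U := U) h3 hαg (GM (N / g) Q') hL hL200 hN hQM
    ?_ ?_ B hBc ?_ ?_ ?_ hU hy' ?_ hB₂
  · rw [Int.cast_mul, Int.cast_natCast, abs_mul, abs_of_nonneg (by linarith : (0 : ℝ) ≤ g)]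
    calc 8 * (|(α : ℝ)| * g) * (Q'.divisors.card : ℝ) = (8 * |(α : ℝ)|) * g * (Q'.divisors.card : ℝ) := by ring
      _ ≤ L ^ w * L ^ K₀ * L ^ T := by
          have j1 : 8 * |(α : ℝ)| ≤ L ^ w := by linarith
          have j2 : 8 * |(α : ℝ)| * g ≤ L ^ w * L ^ K₀ := mul_le_mul j1 hgL (by linarith) (by positivity)
          exact mul_le_mul j2 hτ' (Nat.cast_nonneg _) (by positivity)
      _ = L ^ (T + K₀ + w) := by ring
      _ ≤ L ^ (T + K₀ + w + 1) := pow_le_pow_right₀ hL1 (by omega)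
  · intro n _
    refine (GM_bd _ _ n).trans ?_
    nlinarith
  · intro S hS
    have := hB (g * η) hηg (N / g) hNg S hS
    refine le_trans (le_of_eq (sum_congr rfl fun χ _ => ?_)) this
    rw [cs_GM hNg]
  · rw [sum_eq_zero]
    · positivity
    · intro l hl
      rw [cl_nonunit _ l (mem_filter.1 hl).2, norm_zero, zero_pow two_ne_zero]
  · intro χ hχ
    rw [cs_GM hNg]
    exact hSm Q' hτ' χ hχ (N / g) hNg _
  · intro χ hχ
    refine shqL hαg (B := B₂) (C := C + K₀) (T := T) (w := 2 * K₀ + w) hL ?_ (by linarith) hN (hQM.trans hsN) ?_ hτ' χ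
      (by rw [← hK]; exact hχ) _ hga _ (by rw [abs_neg]; exact hηg) _ hy'
    · calc 96 * kap (α * g) (γ - 2 * α * s) ^ 2 ≤ 96 * (3 * g * kap α γ) ^ 2 := by
            have h0 : 0 ≤ kap (α * g) (γ - 2 * α * s) := by unfold kap; positivity
            gcongr
            exact kap_gs hs
        _ = (864 * kap α γ ^ 2) * (g : ℝ) ^ 2 := by ring
        _ ≤ L ^ w * (L ^ K₀) ^ 2 := by gcongr
        _ = _ := by ring
    · refine le_trans ?_ hQ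
      gcongr

/-- the pointwise estimate on the major arcs -/
theorem pw_li (h3 : OrthStm) (hB : BilMaj3Stm) (hT : TiMaj2Stm) (A T C κ : ℕ) :
    ∃ E N₀ : ℕ, ∀ N : ℕ, N₀ ≤ N → ∀ α γ : ℤ, α ≠ 0 → kap α γ ≤ Real.log N ^ κ → ∀ (Q : ℕ) [NeZero Q], (Q : ℝ) * Real.log N ^ E ≤ Real.sqrt N →
      (Q.divisors.card : ℝ) ≤ Real.log N ^ T → ∀ a : ZMod Q,
      (Nat.gcd (4 * (α : ZMod Q) * a + (γ : ZMod Q) ^ 2).val Q : ℝ) ≤ Real.log N ^ T → ∀ η : ℝ,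
      |η| ≤ Real.log N ^ C / N → ∀ y : ℕ, y ^ 2 ≤ N →
      ‖TT α γ liR y N Q η a‖ ^ 2 ≤ (N : ℝ) ^ 3 / (Q ^ 2 * Real.log N ^ A) := by
  classical
  obtain ⟨w, hw⟩ : ∃ w, w = 2 * κ + 1 := ⟨_, rfl⟩
  obtain ⟨K₀, hK₀⟩ : ∃ K₀, K₀ = 4 * T + 3 + w + A := ⟨_, rfl⟩
  obtain ⟨A₃, hA₃⟩ : ∃ A₃, A₃ = 3 * K₀ + A + 1 := ⟨_, rfl⟩
  obtain ⟨C₃, N₁, h1⟩ := mLi hB hT (2 * A₃ + (T + K₀ + w) + 2 + 4) (C + K₀)
  obtain ⟨B₂, hB₂⟩ : ∃ B₂, B₂ = C₃ + 2 * A₃ + 9 := ⟨_, rfl⟩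
  obtain ⟨K, hK⟩ : ∃ K, K = 3 * T + 3 + (2 * K₀ + w) + 2 * (B₂ + (C + K₀) + (2 * K₀ + w) + 1) := ⟨_, rfl⟩
  obtain ⟨U, hU⟩ : ∃ U, U = C₃ + (2 * A₃ + (T + K₀ + w) + 2) + 4 := ⟨_, rfl⟩
  obtain ⟨N₂, h2⟩ := small_li K U T
  obtain ⟨N₄, h4⟩ := Filter.eventually_atTop.1 (ev_log 1 (s := 1) (by norm_num) 1000)
  refine ⟨B₂ + (C + K₀) + (2 * K₀ + w) + 1, N₁ + N₂ + N₄ + 1, fun N hN α γ hα hκ Q _ hQ hτ a ha η hη y hy => ?_⟩
  obtain ⟨hLb, -⟩ := h4 N (by omega)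
  have hMaj := h1 N (by omega)
  have hSm := h2 N (by omega)
  have hN1 : 1 ≤ N := by omega
  obtain ⟨L, hL⟩ : ∃ L, L = Real.log (N : ℝ) := ⟨_, rfl⟩
  rw [← hL] at hLb hSm hκ hQ hτ ha hη ⊢
  obtain ⟨hα1, hακ, hκ1⟩ := kap_ge hα γ
  have hL200 : 200 ≤ L := by linarith
  have hL0 : 0 < L := by linarith
  have hL1 : 1 ≤ L := by linarith
  have hκ864 : 864 * kap α γ ^ 2 ≤ L ^ w := by
    calc 864 * kap α γ ^ 2 ≤ L * (L ^ κ) ^ 2 := by
          gcongr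
          linarith
      _ = L ^ w := by rw [hw]; ring
  have hα24 : 24 * (α : ℝ) ^ 2 ≤ L ^ w := by
    rw [← sq_abs (α : ℝ)]
    nlinarith
  have hN0 : (0 : ℝ) < N := by exact_mod_cast hN1
  have hNr1 : (1 : ℝ) ≤ N := by exact_mod_cast hN1
  have hQ0 : 0 < Q := NeZero.pos Q
  have hQr : (0 : ℝ) < Q := by exact_mod_cast hQ0
  obtain ⟨M, hM⟩ : ∃ M, M = Real.sqrt N := ⟨_, rfl⟩
  have hM0 : 0 < M := by rw [hM]; exact Real.sqrt_pos.2 hN0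
  have hMM : M ^ 2 = N := by rw [hM]; exact Real.sq_sqrt hN0.le
  have hM1 : 1 ≤ M := by
    rw [hM]
    exact Real.one_le_sqrt.2 hNr1
  have hMN : M ≤ N := by nlinarith
  have hQM : (Q : ℝ) ≤ M := by
    rw [hM]
    refine le_trans ?_ hQ
    have : (1 : ℝ) ≤ L ^ (B₂ + (C + K₀) + (2 * K₀ + w) + 1) := one_le_pow₀ hL1
    nlinarith
  have hyM : (y : ℝ) ≤ M := by
    rw [hM]
    apply Real.le_sqrt_of_sq_le
    exact_mod_cast hy
  obtain ⟨n₀, hn₀⟩ : ∃ n₀ : ℤ, n₀ = (a.val : ℤ) := ⟨_, rfl⟩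
  have hna : ((n₀ : ℤ) : ZMod Q) = a := by
    rw [hn₀]
    simp
  have hgcd : (Int.gcd (4 * α * n₀ + γ ^ 2) Q : ℝ) ≤ L ^ T := by
    have e1 : 4 * (α : ZMod Q) * a + (γ : ZMod Q) ^ 2 = ((4 * α * n₀ + γ ^ 2 : ℤ) : ZMod Q) := by
      rw [← hna]
      push_cast
      ring
    rw [e1, gcd_val] at ha
    exact ha
  obtain ⟨P, hP⟩ : ∃ P, P = (N : ℝ) * M / Q := ⟨_, rfl⟩
  have hP0 : 0 < P := by rw [hP]; positivity
  obtain ⟨D, hD⟩ : ∃ D, D = ⌊L ^ K₀⌋₊ := ⟨_, rfl⟩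
  have hDr : (D : ℝ) ≤ L ^ K₀ := by rw [hD]; exact Nat.floor_le (by positivity)
  have hDr' : L ^ K₀ < D + 1 := by rw [hD]; exact Nat.lt_floor_add_one _
  -- small divisors
  have hsm : ∀ g ∈ Q.divisors, g ≤ D → ‖liR g * ∑ m ∈ (Icc 1 y).filter (fun m : ℕ => (g : ℤ) ∣ n₀ - FF α γ m),
        ee (((α : ℝ) * (m : ℝ) ^ 2 + (γ : ℝ) * (m : ℝ)) * η) *
          cl (Q / g) N (GM (N / g) (Q / g)) (g * η) (((n₀ - FF α γ m) / g : ℤ) : ZMod (Q / g))‖ ≤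
      L ^ (2 * K₀) * (P / L ^ A₃) := by
    intro g hg hgD
    have hgQ := (Nat.mem_divisors.1 hg).1
    have hgp : 0 < g := Nat.pos_of_mem_divisors hg
    have hgr : (g : ℝ) ≤ L ^ K₀ := le_trans (by exact_mod_cast hgD) hDr
    have hg0 : (0 : ℝ) < g := by exact_mod_cast hgp
    have hQg : ((Q / g : ℕ) : ℝ) = (Q : ℝ) / g := Nat.cast_div hgQ hg0.ne'
    rw [norm_mul, inner_s hgp]
    have e1 : ∀ s ∈ (range g).filter (fun s : ℕ => (g : ℤ) ∣ n₀ - FF α γ (-(s : ℤ))),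
        ‖ee (((α : ℝ) * (s : ℝ) ^ 2 - (γ : ℝ) * (s : ℝ)) * η) *
          TT (α * g) (γ - 2 * α * s) (GM (N / g) (Q / g)) ((y + s) / g) N (Q / g) (g * η)
            (((n₀ - FF α γ (-(s : ℤ))) / g : ℤ) : ZMod (Q / g))‖ ≤ L ^ K₀ * (P / L ^ A₃) := by
      intro s hs
      rw [mem_filter, mem_range] at hs
      rw [norm_mul, norm_ee, one_mul]
      have k1 := one_gs (A := 2 * A₃) (T := T) (C := C) (K₀ := K₀) (C₃ := C₃) (B₂ := B₂) (K := K) (U := U) h3 hα hL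
        hL200 hκ864 hN1 hMaj hSm hK (by omega) (by omega) hQ hτ n₀ hgcd hη hy hgQ hgr hs.1 hs.2
      have k2 : (N : ℝ) ^ 3 / (((Q / g : ℕ) : ℝ) ^ 2 * L ^ (2 * A₃)) = (g * (P / L ^ A₃)) ^ 2 := by
        rw [hQg, hP, show L ^ (2 * A₃) = (L ^ A₃) ^ 2 by rw [← pow_mul]; ring_nf]
        field_simp
        rw [hMM]
      rw [k2] at k1
      have k3 := (pow_le_pow_iff_left₀ (norm_nonneg _) (by positivity) two_ne_zero).1 k1
      refine k3.trans ?_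
      gcongr
    have e2 : ‖liR g‖ ≤ 1 := liR_norm g
    calc _ ≤ 1 * ∑ _s ∈ (range g).filter (fun s : ℕ => (g : ℤ) ∣ n₀ - FF α γ (-(s : ℤ))), L ^ K₀ * (P / L ^ A₃) := by
          apply mul_le_mul e2 _ (norm_nonneg _) zero_le_one
          exact (norm_sum_le _ _).trans (sum_le_sum e1)
      _ ≤ L ^ K₀ * (L ^ K₀ * (P / L ^ A₃)) := by
          rw [one_mul, sum_const, nsmul_eq_mul]
          apply mul_le_mul_of_nonneg_right _ (by positivity)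
          refine le_trans ?_ hgr
          have : ((range g).filter (fun s : ℕ => (g : ℤ) ∣ n₀ - FF α γ (-(s : ℤ)))).card ≤ g := by
            refine (card_filter_le _ _).trans ?_
            rw [card_range]
          exact_mod_cast this
      _ = _ := by ring
  -- large divisors
  have hlg : ∀ g ∈ Q.divisors, ¬ g ≤ D → ‖liR g * ∑ m ∈ (Icc 1 y).filter (fun m : ℕ => (g : ℤ) ∣ n₀ - FF α γ m),
        ee (((α : ℝ) * (m : ℝ) ^ 2 + (γ : ℝ) * (m : ℝ)) * η) *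
          cl (Q / g) N (GM (N / g) (Q / g)) (g * η) (((n₀ - FF α γ m) / g : ℤ) : ZMod (Q / g))‖ ≤
      4 * L ^ (3 * T + 1 + w) * (P / L ^ K₀) := by
    intro g hg hgD
    have hgQ := (Nat.mem_divisors.1 hg).1
    have hgp : 0 < g := Nat.pos_of_mem_divisors hg
    have hgn : NeZero g := ⟨hgp.ne'⟩
    have hg0 : (0 : ℝ) < g := by exact_mod_cast hgp
    have hQg : ((Q / g : ℕ) : ℝ) = (Q : ℝ) / g := Nat.cast_div hgQ hg0.ne'
    have hQ'0 : 0 < Q / g := Nat.div_pos (Nat.le_of_dvd hQ0 hgQ) hgp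
    have hQ'n : NeZero (Q / g) := ⟨hQ'0.ne'⟩
    have hgr : L ^ K₀ ≤ g := by
      have : (D : ℝ) + 1 ≤ g := by exact_mod_cast (not_le.1 hgD)
      linarith
    have hgQr : (g : ℝ) ≤ Q := by exact_mod_cast Nat.le_of_dvd hQ0 hgQ
    have e1 : ∀ m ∈ (Icc 1 y).filter (fun m : ℕ => (g : ℤ) ∣ n₀ - FF α γ m),
        ‖ee (((α : ℝ) * (m : ℝ) ^ 2 + (γ : ℝ) * (m : ℝ)) * η) *
          cl (Q / g) N (GM (N / g) (Q / g)) (g * η) (((n₀ - FF α γ m) / g : ℤ) : ZMod (Q / g))‖ ≤ 2 * (N / Q) := by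
      intro m _
      rw [norm_mul, norm_ee, one_mul]
      refine (clM_le _ _).trans ?_
      have k1 : ((N / g : ℕ) : ℝ) ≤ (N : ℝ) / g := Nat.cast_div_le
      rw [hQg]
      have k2 : ((N / g : ℕ) : ℝ) / ((Q : ℝ) / g) ≤ N / Q := by
        calc ((N / g : ℕ) : ℝ) / ((Q : ℝ) / g) ≤ ((N : ℝ) / g) / ((Q : ℝ) / g) := by gcongr
          _ = N / Q := by field_simp
      have k3 : 1 ≤ (N : ℝ) / Q := by
        rw [one_le_div hQr]
        exact hQM.trans hMN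
      linarith
    have e2 : ‖liR g‖ ≤ 1 := liR_norm g
    have e3 := count_g (α := α) (γ := γ) (g := g) (y := y) n₀
    have e4 : (rt α (γ : ZMod g) (n₀ : ZMod g) : ℝ) ≤ L ^ (3 * T + 1 + w) := by
      apply rt_le hα hL hL1 (hgQr.trans (hQM.trans hMN)) hα24
      · refine le_trans ?_ hτ
        exact_mod_cast card_le_card (Nat.divisors_subset_of_dvd hQ0.ne' hgQ)
      · have e5 : 4 * (α : ZMod g) * (n₀ : ZMod g) + (γ : ZMod g) ^ 2 = ((4 * α * n₀ + γ ^ 2 : ℤ) : ZMod g) := by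
          push_cast
          ring
        rw [e5, gcd_val]
        refine le_trans ?_ hgcd
        exact_mod_cast gcd_dvd_mono hQ0 hgQ _
    have e6 : (y : ℝ) / g + 1 ≤ 2 * (M / L ^ K₀) := by
      have k1 : (y : ℝ) / g ≤ M / g := by gcongr
      have k2 : 1 ≤ M / g := by
        rw [one_le_div hg0]
        exact hgQr.trans hQM
      have k3 : M / g ≤ M / L ^ K₀ := by gcongr
      linarith
    calc _ ≤ 1 * ∑ _m ∈ (Icc 1 y).filter (fun m : ℕ => (g : ℤ) ∣ n₀ - FF α γ m), 2 * ((N : ℝ) / Q) := by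
          rw [norm_mul]
          apply mul_le_mul e2 _ (norm_nonneg _) zero_le_one
          exact (norm_sum_le _ _).trans (sum_le_sum e1)
      _ = (((Icc 1 y).filter (fun m : ℕ => (g : ℤ) ∣ n₀ - FF α γ m)).card : ℝ) * (2 * (N / Q)) := by
          rw [one_mul, sum_const, nsmul_eq_mul]
      _ ≤ (L ^ (3 * T + 1 + w) * (2 * (M / L ^ K₀))) * (2 * (N / Q)) := by
          gcongr
          refine e3.trans ?_
          gcongr
      _ = _ := by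
          rw [hP]
          ring
  -- the sum
  have htot : ‖TT α γ liR y N Q η a‖ ≤ P / L ^ A := by
    rw [← hna, TT_sp]
    refine (norm_sum_le _ _).trans ?_
    rw [← sum_filter_add_sum_filter_not Q.divisors (fun g => g ≤ D)]
    have s1 : ∑ g ∈ Q.divisors.filter (fun g => g ≤ D), ‖liR g *
        ∑ m ∈ (Icc 1 y).filter (fun m : ℕ => (g : ℤ) ∣ n₀ - FF α γ m),
        ee (((α : ℝ) * (m : ℝ) ^ 2 + (γ : ℝ) * (m : ℝ)) * η) *
          cl (Q / g) N (GM (N / g) (Q / g)) (g * η) (((n₀ - FF α γ m) / g : ℤ) : ZMod (Q / g))‖ ≤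
        L ^ K₀ * (L ^ (2 * K₀) * (P / L ^ A₃)) := by
      refine (sum_le_sum fun g hg => hsm g (mem_filter.1 hg).1 (mem_filter.1 hg).2).trans ?_
      rw [sum_const, nsmul_eq_mul]
      apply mul_le_mul_of_nonneg_right _ (by positivity)
      refine le_trans ?_ hDr
      have : (Q.divisors.filter (fun g => g ≤ D)).card ≤ (Icc 1 D).card := by
        apply card_le_card
        intro g hg
        rw [mem_filter] at hg
        rw [mem_Icc]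
        exact ⟨Nat.pos_of_mem_divisors hg.1, hg.2⟩
      rw [Nat.card_Icc, Nat.add_sub_cancel] at this
      exact_mod_cast this
    have s2 : ∑ g ∈ Q.divisors.filter (fun g => ¬ g ≤ D), ‖liR g *
        ∑ m ∈ (Icc 1 y).filter (fun m : ℕ => (g : ℤ) ∣ n₀ - FF α γ m),
        ee (((α : ℝ) * (m : ℝ) ^ 2 + (γ : ℝ) * (m : ℝ)) * η) *
          cl (Q / g) N (GM (N / g) (Q / g)) (g * η) (((n₀ - FF α γ m) / g : ℤ) : ZMod (Q / g))‖ ≤
        L ^ T * (4 * L ^ (3 * T + 1 + w) * (P / L ^ K₀)) := by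
      refine (sum_le_sum fun g hg => hlg g (mem_filter.1 hg).1 (mem_filter.1 hg).2).trans ?_
      rw [sum_const, nsmul_eq_mul]
      apply mul_le_mul_of_nonneg_right _ (by positivity)
      refine le_trans ?_ hτ
      exact_mod_cast card_filter_le _ _
    have s3 : L ^ K₀ * (L ^ (2 * K₀) * (P / L ^ A₃)) = P / L ^ A * (1 / L) := by
      rw [hA₃, show 3 * K₀ + A + 1 = (K₀ + 2 * K₀) + A + 1 by ring, pow_succ, pow_add, pow_add]
      field_simp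
    have s4 : L ^ T * (4 * L ^ (3 * T + 1 + w) * (P / L ^ K₀)) = P / L ^ A * (4 / L ^ 2) := by
      have e : L ^ K₀ = L ^ T * L ^ (3 * T + 1 + w) * L ^ A * L ^ 2 := by
        rw [hK₀]
        ring
      rw [e]
      field_simp
    have s5 : 1 / L + 4 / L ^ 2 ≤ 1 := by
      have k1 : 1 / L ≤ 1 / 2 := by
        apply one_div_le_one_div_of_le (by norm_num)
        linarith
      have k2 : 4 / L ^ 2 ≤ 1 / 2 := by
        rw [div_le_div_iff₀ (by positivity) (by norm_num)]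
        nlinarith
      linarith
    calc _ ≤ P / L ^ A * (1 / L) + P / L ^ A * (4 / L ^ 2) := by
          rw [← s3, ← s4]
          exact add_le_add s1 s2
      _ = P / L ^ A * (1 / L + 4 / L ^ 2) := by ring
      _ ≤ P / L ^ A * 1 := by gcongr
      _ = _ := mul_one _
  calc ‖TT α γ liR y N Q η a‖ ^ 2 ≤ (P / L ^ A) ^ 2 := pow_le_pow_left₀ (norm_nonneg _) htot 2
    _ = (N : ℝ) ^ 3 / (Q ^ 2 * L ^ A) * (1 / L ^ A) := by
        rw [hP]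
        field_simp
        rw [hMM]
    _ ≤ (N : ℝ) ^ 3 / (Q ^ 2 * L ^ A) * 1 := by
        apply mul_le_mul_of_nonneg_left _ (by positivity)
        rw [div_le_one (by positivity)]
        exact one_le_pow₀ hL1
    _ = _ := mul_one _

end Pool.Agent.R460.SL
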