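import Pool.Agent.R460.SL.Id
import Pool.Agent.Y185.GJ.SmallC
import Pool.Agent.Y614.GJ.Core

set_option autoImplicit false

/-! Character sums with the Liouville function: characters of small conductor. -/

namespace Pool.Agent.R460.SL

open Finset
open Pool.Agent.Y883.GJ
open Pool.Agent.H807R2.Dav (ee norm_ee)
open Pool.Agent.Y614.GJ.Core (ev_log)
open Pool.Agent.Y185.GJ (std_eq ee_add)
open Pool.Agent.H373R2.T7 (liR liR_norm muC muC_norm sup_liou)

lemma liR_mul {a b : ℕ} (ha : a ≠ 0) (hb : b ≠ 0) : liR (a * b) = liR a * liR b := by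
  unfold liR
  rw [ArithmeticFunction.cardFactors_mul ha hb, pow_add]

/-- all initial sums with exponential twists -/
lemma sup_all (U : ℕ) : ∃ N₀ : ℕ, ∀ N : ℕ, N₀ ≤ N → ∀ y : ℕ, y ≤ N → ∀ α : ℝ,
    ‖∑ n ∈ Icc 1 y, liR n * ee ((n : ℝ) * α)‖ ≤ N / Real.log N ^ U := by
  obtain ⟨N1, h1⟩ := sup_liou (U + 1)
  obtain ⟨N2, h2⟩ := Filter.eventually_atTop.1 (ev_log U (s := 1 / 2) (by norm_num) (2 ^ (U + 1)))
  refine ⟨N1 * N1 + N2 + 1, fun N hN y hy α => ?_⟩
  obtain ⟨hLb, hLp⟩ := h2 N (by omega)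
  have hN0 : (0 : ℝ) < N := by
    have : 0 < N := by omega
    exact_mod_cast this
  obtain ⟨L, hL⟩ : ∃ L, L = Real.log (N : ℝ) := ⟨_, rfl⟩
  rw [← hL] at hLb hLp ⊢
  have hp : (1 : ℝ) ≤ 2 ^ (U + 1) := one_le_pow₀ (by norm_num)
  have hL0 : 0 < L := by linarith
  rcases le_or_gt (y * y) N with h | h
  · have t1 : ‖∑ n ∈ Icc 1 y, liR n * ee ((n : ℝ) * α)‖ ≤ y := by
      calc _ ≤ ∑ _n ∈ Icc 1 y, (1 : ℝ) := by
            refine (norm_sum_le _ _).trans (sum_le_sum fun n _ => ?_)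
            rw [norm_mul, norm_ee, mul_one]
            exact liR_norm n
        _ = y := by rw [sum_const, Nat.card_Icc, nsmul_eq_mul, mul_one, Nat.add_sub_cancel]
    have t2 : (y : ℝ) ≤ Real.sqrt N := by
      apply Real.le_sqrt_of_sq_le
      have : ((y * y : ℕ) : ℝ) ≤ N := by exact_mod_cast h
      push_cast at this
      rw [pow_two]
      exact this
    refine t1.trans (t2.trans ?_)
    rw [le_div_iff₀ (by positivity)]
    rw [← Real.sqrt_eq_rpow] at hLp
    calc Real.sqrt N * L ^ U ≤ Real.sqrt N * Real.sqrt N := by gcongr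
      _ = N := Real.mul_self_sqrt hN0.le
  · have hy1 : N1 ≤ y := by
      by_contra hc
      push Not at hc
      have : y * y ≤ N1 * N1 := Nat.mul_le_mul hc.le hc.le
      omega
    have hy0 : (0 : ℝ) < y := by
      rcases Nat.eq_zero_or_pos y with h0 | h0
      · rw [h0] at h
        omega
      · exact_mod_cast h0
    have hlog : L ≤ 2 * Real.log y := by
      have h5 : Real.log N ≤ Real.log ((y : ℝ) ^ 2) := by
        apply Real.log_le_log hN0
        have : (N : ℝ) ≤ ((y * y : ℕ) : ℝ) := by exact_mod_cast h.le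
        push_cast at this
        rw [pow_two]
        exact this
      rw [Real.log_pow] at h5
      rw [hL]
      exact_mod_cast h5
    have hyN : (y : ℝ) ≤ N := by exact_mod_cast hy
    refine (h1 y hy1 α).trans ?_
    calc (y : ℝ) / Real.log y ^ (U + 1) ≤ N / (L / 2) ^ (U + 1) := by
          gcongr
          linarith
      _ = N / L ^ U * (2 ^ (U + 1) / L) := by
          rw [div_pow, pow_succ L U]
          field_simp
      _ ≤ N / L ^ U * 1 := by
          apply mul_le_mul_of_nonneg_left _ (by positivity)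
          rw [div_le_one hL0]
          exact hLb
      _ = _ := mul_one _

/-- sums with a primitive character -/
lemma prim_sum {r : ℕ} [NeZero r] (ψ : DirichletCharacter ℂ r) (hprim : ψ.IsPrimitive) (N : ℕ) (F : ℕ → ℂ)
    (T₁ : ℝ) (h1 : ∀ α : ℝ, ‖∑ n ∈ Icc 1 N, F n * ee (n * α)‖ ≤ T₁) (η : ℝ) :
    ‖∑ n ∈ Icc 1 N, (F n * ee (n * η)) * ψ (n : ZMod r)‖ ≤ Real.sqrt r * T₁ := by
  have hinv : (ψ⁻¹).IsPrimitive := by
    rw [DirichletCharacter.isPrimitive_def, DirichletCharacter.conductor_inv]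
    exact hprim
  have hr0 : (0 : ℝ) < r := by exact_mod_cast NeZero.pos r
  have hsq : 0 < Real.sqrt r := Real.sqrt_pos.2 hr0
  have h3 := Pool.Agent.Helper112.MLS.sum_char_T r N (fun n => F n * ee (n * η)) hprim
  have h4 : ‖∑ a : ZMod r, ψ⁻¹ a * Pool.Agent.Helper112.MLS.T r N (fun n => F n * ee (n * η)) a‖ ≤ r * T₁ := by
    have h5 : ∀ a : ZMod r,
        ‖ψ⁻¹ a * Pool.Agent.Helper112.MLS.T r N (fun n => F n * ee (n * η)) a‖ ≤ T₁ := by
      intro a
      have h6 : Pool.Agent.Helper112.MLS.T r N (fun n => F n * ee (n * η)) a =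
          ∑ n ∈ Icc 1 N, F n * ee (n * (η + (a.val : ℝ) / r)) := by
        unfold Pool.Agent.Helper112.MLS.T
        refine Finset.sum_congr rfl fun n _ => ?_
        rw [std_eq, mul_assoc, ← ee_add, ← mul_add]
      rw [norm_mul, h6]
      have h7 := h1 (η + (a.val : ℝ) / r)
      have h8 := DirichletCharacter.norm_le_one ψ⁻¹ a
      calc ‖ψ⁻¹ a‖ * ‖∑ n ∈ Icc 1 N, F n * ee (n * (η + (a.val : ℝ) / r))‖ ≤
            1 * ‖∑ n ∈ Icc 1 N, F n * ee (n * (η + (a.val : ℝ) / r))‖ :=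
            mul_le_mul_of_nonneg_right h8 (norm_nonneg _)
        _ ≤ T₁ := by rw [one_mul]; exact h7
    refine (norm_sum_le _ _).trans ((Finset.sum_le_sum fun a _ => h5 a).trans ?_)
    rw [Finset.sum_const, Finset.card_univ, ZMod.card, nsmul_eq_mul]
  have h9 : ‖gaussSum ψ⁻¹ (ZMod.stdAddChar : AddChar (ZMod r) ℂ)‖ = Real.sqrt r := by
    have h10 := Pool.Agent.Helper112.MLS.norm_gauss r hinv
    rw [← h10, Real.sqrt_sq (norm_nonneg _)]
  rw [h3, norm_mul, h9] at h4
  have h10 : (r : ℝ) * T₁ = (Real.sqrt r * T₁) * Real.sqrt r := by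
    have := Real.mul_self_sqrt hr0.le
    linear_combination (-T₁) * this
  rw [h10] at h4
  exact le_of_mul_le_mul_right h4 hsq

lemma sum_MB (m : ℕ) (hm : m ≠ 0) : ∑ d ∈ m.divisors, MB d = if m = 1 then 1 else 0 := by
  have h2 : ∑ d ∈ m.divisors, MB d = (MB * ZT) m := by
    unfold ZT
    rw [ArithmeticFunction.coe_mul_zeta_apply]
  rw [h2, MB_ZT, ArithmeticFunction.one_apply]

lemma MB_norm (d : ℕ) : ‖MB d‖ ≤ 1 := by
  unfold MB
  rw [ArithmeticFunction.intCoe_apply]
  exact muC_norm d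

/-- characters of small conductor -/
lemma small_li (K U T : ℕ) : ∃ N₀ : ℕ, ∀ N : ℕ, N₀ ≤ N → ∀ (q : ℕ) [NeZero q],
    (q.divisors.card : ℝ) ≤ Real.log N ^ T → ∀ χ : DirichletCharacter ℂ q, (χ.conductor : ℝ) ≤ Real.log N ^ K →
    ∀ y : ℕ, y ≤ N → ∀ η : ℝ, ‖cs q y liR η χ‖ ≤ N / Real.log N ^ U := by
  obtain ⟨N1, h1⟩ := sup_all (U + T + K)
  obtain ⟨N2, h2⟩ := Filter.eventually_atTop.1 (ev_log 1 (s := 1) (by norm_num) 1)
  refine ⟨N1 + N2 + 1, fun N hN q _ hτ χ hχ y hy η => ?_⟩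
  obtain ⟨hL1, -⟩ := h2 N (by omega)
  have hr : NeZero χ.conductor := ⟨DirichletCharacter.conductor_ne_zero χ⟩
  obtain ⟨ψ, hψ⟩ : ∃ ψ, ψ = χ.primitiveCharacter := ⟨_, rfl⟩
  have hprim : ψ.IsPrimitive := by rw [hψ]; exact DirichletCharacter.primitiveCharacter_isPrimitive χ
  have hq0 : q ≠ 0 := NeZero.ne q
  have e1 : ∀ n ∈ Icc 1 y, liR n * χ (n : ZMod q) * ee (n * η) =
      ∑ d ∈ q.divisors, if d ∣ n then MB d * (liR n * ee (n * η) * ψ (n : ZMod χ.conductor)) else 0 := by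
    intro n hn
    rw [mem_Icc] at hn
    have hg : (Nat.gcd n q).divisors = q.divisors.filter (fun d => d ∣ n) := by
      ext d
      rw [Nat.mem_divisors, mem_filter, Nat.mem_divisors, Nat.dvd_gcd_iff]
      constructor
      · rintro ⟨⟨h3, h4⟩, -⟩
        exact ⟨⟨h4, hq0⟩, h3⟩
      · rintro ⟨⟨h4, -⟩, h3⟩
        exact ⟨⟨h3, h4⟩, (Nat.gcd_pos_of_pos_right _ (NeZero.pos q)).ne'⟩
    have e2 : ∑ d ∈ q.divisors, (if d ∣ n then MB d * (liR n * ee (n * η) * ψ (n : ZMod χ.conductor)) else 0) =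
        (if Nat.gcd n q = 1 then 1 else 0) * (liR n * ee (n * η) * ψ (n : ZMod χ.conductor)) := by
      rw [← sum_filter, ← sum_mul, ← hg, sum_MB _ (Nat.gcd_pos_of_pos_right _ (NeZero.pos q)).ne']
    rw [e2]
    by_cases hc : Nat.gcd n q = 1
    · have h4 := DirichletCharacter.primitiveCharacter_apply_of_isCoprime χ (a := (n : ℤ))
        (Nat.isCoprime_iff_coprime.2 hc)
      rw [Int.cast_natCast, Int.cast_natCast] at h4
      rw [if_pos hc, one_mul, hψ, ← h4]
      ring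
    · have : χ (n : ZMod q) = 0 := by
        apply χ.map_nonunit
        rw [ZMod.isUnit_iff_coprime]
        exact hc
      rw [if_neg hc, this]
      ring
  have e3 : ∀ d ∈ q.divisors, ‖∑ n ∈ Icc 1 y,
      (if d ∣ n then MB d * (liR n * ee (n * η) * ψ (n : ZMod χ.conductor)) else 0)‖ ≤
      Real.sqrt χ.conductor * (N / Real.log N ^ (U + T + K)) := by
    intro d hd
    have hd0 : 0 < d := Nat.pos_of_mem_divisors hd
    have e4 : ∑ n ∈ Icc 1 y, (if d ∣ n then MB d * (liR n * ee (n * η) * ψ (n : ZMod χ.conductor)) else 0) =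
        MB d * (liR d * ψ (d : ZMod χ.conductor)) *
          ∑ k ∈ Icc 1 (y / d), liR k * ee (k * (d * η)) * ψ (k : ZMod χ.conductor) := by
      rw [← sum_filter, mul_sum]
      symm
      refine sum_bij' (fun k _ => d * k) (fun n _ => n / d) ?_ ?_ ?_ ?_ ?_
      · intro k hk
        rw [mem_Icc] at hk
        rw [mem_filter, mem_Icc]
        refine ⟨⟨Nat.mul_pos hd0 (by omega), ?_⟩, Dvd.intro _ rfl⟩
        calc d * k ≤ d * (y / d) := Nat.mul_le_mul_left _ hk.2
          _ ≤ y := Nat.mul_div_le _ _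
      · intro n hn
        rw [mem_filter, mem_Icc] at hn
        obtain ⟨⟨h1, h2⟩, c, hc⟩ := hn
        rw [mem_Icc]
        refine ⟨?_, Nat.div_le_div_right h2⟩
        rw [hc, Nat.mul_div_cancel_left _ hd0]
        rcases Nat.eq_zero_or_pos c with h | h
        · rw [h, mul_zero] at hc; omega
        · exact h
      · intro k _
        exact Nat.mul_div_cancel_left _ hd0
      · intro n hn
        rw [mem_filter] at hn
        exact Nat.mul_div_cancel' hn.2
      · intro k hk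
        rw [mem_Icc] at hk
        rw [liR_mul hd0.ne' (by omega), Nat.cast_mul, Nat.cast_mul, map_mul]
        have : (d : ℝ) * (k : ℝ) * η = k * (d * η) := by ring
        rw [this]
        ring
    rw [e4, norm_mul, norm_mul, norm_mul]
    have e5 : ‖∑ k ∈ Icc 1 (y / d), liR k * ee (k * (d * η)) * ψ (k : ZMod χ.conductor)‖ ≤
        Real.sqrt χ.conductor * (N / Real.log N ^ (U + T + K)) :=
      prim_sum ψ hprim (y / d) liR _ (fun α => h1 N (by omega) (y / d) ((Nat.div_le_self _ _).trans hy) α) _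
    have e6 : ‖MB d‖ * (‖liR d‖ * ‖ψ (d : ZMod χ.conductor)‖) ≤ 1 := by
      calc ‖MB d‖ * (‖liR d‖ * ‖ψ (d : ZMod χ.conductor)‖) ≤ 1 * (1 * 1) := by
            gcongr
            · exact MB_norm d
            · exact liR_norm d
            · exact DirichletCharacter.norm_le_one _ _
        _ = 1 := by norm_num
    calc _ ≤ 1 * (Real.sqrt χ.conductor * (N / Real.log N ^ (U + T + K))) :=
          mul_le_mul e6 e5 (norm_nonneg _) zero_le_one
      _ = _ := one_mul _
  unfold cs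
  rw [sum_congr rfl e1, sum_comm]
  refine (norm_sum_le _ _).trans ((sum_le_sum e3).trans ?_)
  rw [sum_const, nsmul_eq_mul]
  obtain ⟨L, hL⟩ : ∃ L, L = Real.log (N : ℝ) := ⟨_, rfl⟩
  rw [← hL] at hL1 hτ hχ ⊢
  have hL0 : 0 < L := by linarith
  have hc1 : (1 : ℝ) ≤ χ.conductor := by exact_mod_cast NeZero.pos χ.conductor
  have h7 : Real.sqrt χ.conductor ≤ L ^ K := by
    refine le_trans ?_ hχ
    rw [Real.sqrt_le_left (by linarith)]
    nlinarith
  calc (q.divisors.card : ℝ) * (Real.sqrt χ.conductor * (N / L ^ (U + T + K))) ≤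
        L ^ T * (L ^ K * (N / L ^ (U + T + K))) := by gcongr
    _ = N / L ^ U := by
        rw [pow_add, pow_add]
        field_simp

end Pool.Agent.R460.SL
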