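import Pool.Agent.R460.SL.Ap

set_option autoImplicit false

/-! The Liouville function at quadratic polynomials, two-sided progressions. -/

namespace Pool.Agent.R460.SL

open Finset
open Pool.Agent.Y614.GJ.Core (ev_log)

/-- the two-sided sum over a progression -/
noncomputable def tsum (a b c s r : ℤ) (y : ℕ) : ℤ :=
  ∑ t ∈ (Icc (-(y : ℤ)) y).filter (fun t : ℤ => t ≡ r [ZMOD s]), lam (a * t ^ 2 + b * t + c)

lemma tsum_eq (a b c r : ℤ) {s : ℕ} (hs : 0 < s) (y : ℕ) : tsum a b c s r y =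
    psum a b c s (r % s).toNat y + psum a (-b) c s ((-r) % s).toNat y +
      (if (0 : ℤ) ≡ r [ZMOD s] then lam c else 0) := by
  have hs' : (0 : ℤ) < s := by exact_mod_cast hs
  have key : ∀ (t : ℕ) (r : ℤ), ((t : ℤ) ≡ r [ZMOD s]) ↔ t ≡ (r % s).toNat [MOD s] := by
    intro t r
    rw [← Int.natCast_modEq_iff]
    have h1 : (((r % (s : ℤ)).toNat : ℕ) : ℤ) = r % s := Int.toNat_of_nonneg (Int.emod_nonneg _ hs'.ne')
    rw [h1]
    constructor
    · intro h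
      exact h.trans (Int.mod_modEq r s).symm
    · intro h
      exact h.trans (Int.mod_modEq r s)
  have hsplit : (Icc (-(y : ℤ)) y).filter (fun t : ℤ => t ≡ r [ZMOD s]) =
      (((Icc 1 y).filter (fun t : ℕ => t ≡ (r % s).toNat [MOD s])).image (fun t : ℕ => (t : ℤ)) ∪
      ((Icc 1 y).filter (fun t : ℕ => t ≡ ((-r) % s).toNat [MOD s])).image (fun t : ℕ => -(t : ℤ))) ∪
      ({0} : Finset ℤ).filter (fun t : ℤ => t ≡ r [ZMOD s]) := by
    ext t
    simp only [mem_filter, mem_union, mem_image, mem_Icc, mem_singleton]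
    constructor
    · rintro ⟨⟨h1, h2⟩, h3⟩
      rcases lt_trichotomy t 0 with h | h | h
      · left; right
        refine ⟨t.natAbs, ⟨⟨by omega, by omega⟩, ?_⟩, by omega⟩
        rw [← key]
        have e1 : ((t.natAbs : ℕ) : ℤ) = -t := by omega
        rw [e1]
        exact h3.neg
      · right
        exact ⟨h, h3⟩
      · left; left
        refine ⟨t.natAbs, ⟨⟨by omega, by omega⟩, ?_⟩, by omega⟩
        rw [← key]
        have e1 : ((t.natAbs : ℕ) : ℤ) = t := by omega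
        rw [e1]
        exact h3
    · rintro ((⟨t', ⟨⟨h1, h2⟩, h3⟩, rfl⟩ | ⟨t', ⟨⟨h1, h2⟩, h3⟩, rfl⟩) | ⟨rfl, h3⟩)
      · refine ⟨⟨by omega, by omega⟩, (key t' r).2 h3⟩
      · refine ⟨⟨by omega, by omega⟩, ?_⟩
        have := ((key t' (-r)).2 h3).neg
        rwa [neg_neg] at this
      · exact ⟨⟨by omega, by omega⟩, h3⟩
  unfold tsum psum
  rw [hsplit, sum_union, sum_union, sum_image, sum_image]
  · congr 1
    · congr 1
      refine sum_congr rfl fun t _ => ?_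
      congr 1
      ring
    · rw [sum_filter, sum_singleton]
      split_ifs
      · congr 1
        ring
      · rfl
  · intro x _ y _ h
    simpa using h
  · intro x _ y _ h
    simpa using h
  · rw [disjoint_left]
    intro t ht ht'
    simp only [mem_filter, mem_image, mem_Icc] at ht ht'
    obtain ⟨u, ⟨⟨h1, -⟩, -⟩, h2⟩ := ht
    obtain ⟨v, ⟨⟨h3, -⟩, -⟩, h4⟩ := ht'
    omega
  · rw [disjoint_left]
    intro t ht ht'
    simp only [mem_filter, mem_image, mem_Icc, mem_union, mem_singleton] at ht ht'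
    rcases ht with ⟨u, ⟨⟨h1, -⟩, -⟩, h2⟩ | ⟨u, ⟨⟨h1, -⟩, -⟩, h2⟩
    · omega
    · omega

/-- the conclusion for one constant term -/
def GoodT (C T κ X q : ℕ) (c : ℤ) : Prop :=
  ∀ a b : ℤ, a ≠ 0 → (|a| : ℝ) ≤ Real.log X ^ κ → (|b| : ℝ) ≤ Real.log X ^ κ →
    (Int.gcd (b ^ 2 - 4 * a * c) q : ℝ) ≤ Real.log X ^ T →
    ∀ (s : ℕ) (r : ℤ) (y : ℕ), 1 ≤ s → (s : ℝ) ≤ Real.log X ^ κ → y ^ 2 ≤ X →
      |((tsum a b c s r y : ℤ) : ℝ)| ≤ Real.sqrt X / Real.log X ^ C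

open Classical in
theorem fin_two (ρ : ℝ) (hρ : 0 < ρ) (A C T κ : ℕ) : ∃ X₀ : ℕ, ∀ X : ℕ, X₀ ≤ X →
    ∀ q : ℕ, 1 ≤ q → (q : ℝ) ≤ (X : ℝ) ^ (1 / 2 - ρ) → (q.divisors.card : ℝ) ≤ Real.log X ^ T → ∀ c₀ : ℤ,
    ((((Icc (-(X : ℤ)) X).filter (fun c : ℤ => c ≡ c₀ [ZMOD q] ∧ ¬ GoodT C T κ X q c)).card : ℕ) : ℝ) ≤
      X / (q * Real.log X ^ A) := by
  obtain ⟨X₁, h1⟩ := fin_ap ρ hρ A (C + 1) T κ
  obtain ⟨X₂, h2⟩ := Filter.eventually_atTop.1 (ev_log (C + 1) (s := 1 / 2) (by norm_num) 3)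
  refine ⟨X₁ + X₂ + 1, fun X hX q hq1 hqX hτ c₀ => ?_⟩
  obtain ⟨hLb, hLp⟩ := h2 X (by omega)
  refine le_trans ?_ (h1 X (by omega) q hq1 hqX hτ c₀)
  have hX0 : (0 : ℝ) < X := by
    have : 0 < X := by omega
    exact_mod_cast this
  unfold badC
  have hsub : (Icc (-(X : ℤ)) X).filter (fun c : ℤ => c ≡ c₀ [ZMOD q] ∧ ¬ GoodT C T κ X q c) ⊆
      (Icc (-(X : ℤ)) X).filter (fun c : ℤ => c ≡ c₀ [ZMOD q] ∧ ¬ GoodC (C + 1) T κ X q c) := by
    intro c hc
    rw [mem_filter] at hc ⊢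
    refine ⟨hc.1, hc.2.1, fun hg => hc.2.2 ?_⟩
    intro a b ha0 ha hb hgcd s r y hs1 hsκ hy
    have k1 := hg a b ha0 ha hb hgcd s (r % s).toNat y hs1 hsκ hy
    have k2 := hg a (-b) ha0 ha (by rw [Int.cast_neg, abs_neg]; exact hb) (by rw [neg_sq]; exact hgcd) s
      ((-r) % s).toNat y hs1 hsκ hy
    have k3 : |(((if (0 : ℤ) ≡ r [ZMOD s] then lam c else 0 : ℤ)) : ℝ)| ≤ 1 := by
      split_ifs
      · exact lam_abs c
      · simp
    rw [tsum_eq a b c r (by omega)]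
    push_cast at k3 ⊢
    obtain ⟨L, hL⟩ : ∃ L, L = Real.log (X : ℝ) := ⟨_, rfl⟩
    rw [← hL] at k1 k2 hLb hLp ⊢
    have hL0 : 0 < L := by linarith
    rw [← Real.sqrt_eq_rpow] at hLp
    have k4 : 1 ≤ Real.sqrt X / L ^ (C + 1) := by
      rw [one_le_div (by positivity)]
      exact hLp
    have k5 : Real.sqrt X / L ^ (C + 1) ≤ Real.sqrt X / L ^ C / 3 := by
      rw [pow_succ, div_div]
      apply div_le_div_of_nonneg_left (Real.sqrt_nonneg _) (by positivity)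
      gcongr
    refine (abs_add_le _ _).trans ((add_le_add (abs_add_le _ _) k3).trans ?_)
    linarith
  exact_mod_cast card_le_card hsub

end Pool.Agent.R460.SL
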